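import Pool.Agent.Lib.MP_d4c35b_ag.TW.Defs2
import Pool.Agent.Lib.MP_d4c35b_ag.TG.LH
import Pool.Agent.Lib.MP_d4c35b_ag.TG.PB
import Pool.Agent.Lib.MP_d4c35b_ag.TG.Surj

/-!
COV: the étale cover defined by a finite torsor of local frames (helper67).
-/

set_option autoImplicit false
set_option linter.unusedSectionVars false

open scoped Manifold ContDiff Topology
open Function Set

namespace MP_d4c35b_ag.TW

open MP_d4c35b_ag.TG

namespace pCOVAux

section lin

variable {E : Type} [NormedAddCommGroup E] [NormedSpace ℂ E] [FiniteDimensional ℂ E]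
  {r k : ℕ} {κ : Type}

theorem tpm_lin (Z : Fin k → Fin r → ℂ) (B : Fin r → E →ₗ[ℂ] ℂ) :
    tpm (fun m => ∑ a, Z m a • B a) =
      ∑ J : Fin k → Fin r, (∏ m, Z m (J m)) • tpm (fun m => B (J m)) := by
  ext v
  rw [tpm_apply]
  simp only [sum_apply, smul_apply, tpm_apply, LinearMap.sum_apply, LinearMap.smul_apply,
    smul_eq_mul]
  rw [Finset.prod_univ_sum, Fintype.piFinset_univ]
  refine Finset.sum_congr rfl fun J _ => ?_
  rw [Finset.prod_mul_distrib]

theorem t_act {t : κ → MM E (Fin k) →ₗ[ℂ] ℂ} {c : κ → (Fin k → Fin r) → ℂ}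
    {B : Fin r → E →ₗ[ℂ] ℂ} (hB : ∀ i (J : Fin k → Fin r), t i (tpm (fun m => B (J m))) = c i J)
    (g : Matrix (Fin r) (Fin r) ℂ) (i : κ) (J : Fin k → Fin r) :
    t i (tpm (fun m => ∑ l, g (J m) l • B l)) = act g c i J := by
  rw [tpm_lin (fun m l => g (J m) l) B, map_sum]
  refine Finset.sum_congr rfl fun L _ => ?_
  rw [map_smul, hB, smul_eq_mul]

theorem li {t : κ → MM E (Fin k) →ₗ[ℂ] ℂ} {c : κ → (Fin k → Fin r) → ℂ} (hk : 1 ≤ k)
    (hc : NC c) {B : Fin r → E →ₗ[ℂ] ℂ}
    (hB : ∀ i (J : Fin k → Fin r), t i (tpm (fun m => B (J m))) = c i J) :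
    LinearIndependent ℂ B := by
  rw [Fintype.linearIndependent_iff]
  intro z hz
  have h1 : z = 0 := by
    refine hc z fun i => ?_
    have h2 : t i (tpm (fun _ : Fin k => ∑ a, z a • B a)) =
        ∑ J : Fin k → Fin r, (∏ m, z (J m)) * c i J := by
      rw [tpm_lin (fun _ a => z a) B, map_sum]
      refine Finset.sum_congr rfl fun L _ => ?_
      rw [map_smul, hB, smul_eq_mul]
    rw [← h2, hz]
    have h3 : tpm (fun _ : Fin k => (0 : E →ₗ[ℂ] ℂ)) = 0 := by
      ext v
      rw [tpm_apply]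
      exact Finset.prod_eq_zero (Finset.mem_univ (⟨0, hk⟩ : Fin k)) rfl
    rw [h3, map_zero]
  intro a
  rw [h1]
  rfl

theorem act_one (c : κ → (Fin k → Fin r) → ℂ) : act (1 : Matrix (Fin r) (Fin r) ℂ) c = c := by
  classical
  funext i J
  change ∑ L : Fin k → Fin r, (∏ a, (1 : Matrix (Fin r) (Fin r) ℂ) (J a) (L a)) * c i L = c i J
  rw [Finset.sum_eq_single J]
  · rw [Finset.prod_eq_one (fun a _ => Matrix.one_apply_eq _), one_mul]
  · intro L _ hL
    obtain ⟨a, ha⟩ : ∃ a, L a ≠ J a := by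
      by_contra h
      push Not at h
      exact hL (funext h)
    have h0 : (1 : Matrix (Fin r) (Fin r) ℂ) (J a) (L a) = 0 := Matrix.one_apply_ne (Ne.symm ha)
    rw [Finset.prod_eq_zero (Finset.mem_univ a) h0, zero_mul]
  · intro h
    exact absurd (Finset.mem_univ J) h

theorem act_mul (g h : Matrix (Fin r) (Fin r) ℂ) (c : κ → (Fin k → Fin r) → ℂ) :
    act (g * h) c = act g (act h c) := by
  funext i J
  change ∑ L : Fin k → Fin r, (∏ a, (g * h) (J a) (L a)) * c i L =
    ∑ N : Fin k → Fin r, (∏ a, g (J a) (N a)) *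
      ∑ L : Fin k → Fin r, (∏ a, h (N a) (L a)) * c i L
  simp only [Matrix.mul_apply]
  have e1 : ∀ L : Fin k → Fin r, (∏ a, ∑ n, g (J a) n * h n (L a)) * c i L =
      ∑ N : Fin k → Fin r, (∏ a, g (J a) (N a)) * ((∏ a, h (N a) (L a)) * c i L) := by
    intro L
    rw [Finset.prod_univ_sum, Fintype.piFinset_univ, Finset.sum_mul]
    refine Finset.sum_congr rfl fun N _ => ?_
    rw [Finset.prod_mul_distrib, mul_assoc]
  rw [Finset.sum_congr rfl fun L _ => e1 L, Finset.sum_comm]
  refine Finset.sum_congr rfl fun N _ => ?_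
  rw [Finset.mul_sum]

/-- the stabilizer of `c` -/
def GG0 (c : κ → (Fin k → Fin r) → ℂ) : Subgroup (Matrix (Fin r) (Fin r) ℂ)ˣ where
  carrier := {g | act g.1 c = c}
  mul_mem' := by
    intro a b ha hb
    change act (a.1 * b.1) c = c
    have ha' : act a.1 c = c := ha
    have hb' : act b.1 c = c := hb
    rw [act_mul, hb', ha']
  one_mem' := act_one c
  inv_mem' := by
    intro a ha
    change act (a⁻¹).1 c = c
    have ha' : act a.1 c = c := ha
    have h1 : (a⁻¹).1 * a.1 = 1 := a.inv_mul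
    calc act (a⁻¹).1 c = act (a⁻¹).1 (act a.1 c) := by rw [ha']
      _ = c := by rw [← act_mul, h1, act_one]

theorem GG0_finite (hGRP : S_GRP) [Fintype κ] {c : κ → (Fin k → Fin r) → ℂ} (hk : 1 ≤ k)
    (hc : NC c) : Finite (GG0 c) := by
  have h1 := (hGRP r k κ c hk hc).1
  have := h1.to_subtype
  refine Finite.of_injective (β := {γ : Matrix (Fin r) (Fin r) ℂ |
      ∀ i j, ∑ l : Fin k → Fin r, (∏ m, γ (j m) (l m)) * c i l = c i j})
    (fun g => ⟨g.1.1, fun i j => congrFun (congrFun g.2 i) j⟩) ?_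
  intro a b hab
  exact Subtype.ext (Units.ext (congrArg Subtype.val hab))

/-- uniqueness of the matrix -/
theorem mat_uni {B : Fin r → E →ₗ[ℂ] ℂ} (hB : LinearIndependent ℂ B)
    {g g' : Matrix (Fin r) (Fin r) ℂ}
    (h : ∀ a, ∑ l, g a l • B l = ∑ l, g' a l • B l) : g = g' := by
  ext a l
  have h1 : ∑ l, (g a l - g' a l) • B l = 0 := by
    simp only [sub_smul, Finset.sum_sub_distrib]
    rw [h a, sub_self]
  have h2 := Fintype.linearIndependent_iff.1 hB (fun l => g a l - g' a l) h1 l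
  exact sub_eq_zero.1 h2

/-- composition of substitutions -/
theorem mat_comp (g h : Matrix (Fin r) (Fin r) ℂ) (B : Fin r → E →ₗ[ℂ] ℂ) (a : Fin r) :
    ∑ l, (g * h) a l • B l = ∑ n, g a n • ∑ l, h n l • B l := by
  simp only [Matrix.mul_apply, Finset.sum_smul, Finset.smul_sum, smul_smul]
  rw [Finset.sum_comm]

theorem mat_one (B : Fin r → E →ₗ[ℂ] ℂ) (a : Fin r) :
    ∑ l, (1 : Matrix (Fin r) (Fin r) ℂ) a l • B l = B a := by
  classical
  rw [Finset.sum_eq_single a]
  · rw [Matrix.one_apply_eq, one_smul]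
  · intro l _ hl
    rw [Matrix.one_apply_ne (Ne.symm hl), zero_smul]
  · intro h
    exact absurd (Finset.mem_univ a) h

/-- the transition matrix -/
theorem trans {t : κ → MM E (Fin k) →ₗ[ℂ] ℂ} {c : κ → (Fin k → Fin r) → ℂ} (hk : 1 ≤ k)
    (hc : NC c) {B B' : Fin r → E →ₗ[ℂ] ℂ}
    (hB : ∀ i (J : Fin k → Fin r), t i (tpm (fun m => B (J m))) = c i J)
    (hB' : ∀ i (J : Fin k → Fin r), t i (tpm (fun m => B' (J m))) = c i J)
    (hs : Submodule.span ℂ (range B) = Submodule.span ℂ (range B')) :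
    ∃ g : GG0 c, ∀ a, B a = ∑ l, g.1.1 a l • B' l := by
  have h1 : ∀ a, ∃ z : Fin r → ℂ, ∑ l, z l • B' l = B a := by
    intro a
    rw [← Submodule.mem_span_range_iff_exists_fun, ← hs]
    exact Submodule.subset_span ⟨a, rfl⟩
  have h2 : ∀ a, ∃ z : Fin r → ℂ, ∑ l, z l • B l = B' a := by
    intro a
    rw [← Submodule.mem_span_range_iff_exists_fun, hs]
    exact Submodule.subset_span ⟨a, rfl⟩
  choose g hg using h1
  choose g' hg' using h2
  have e1 : Matrix.of g * Matrix.of g' = 1 := by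
    refine mat_uni (li hk hc hB) fun a => ?_
    rw [mat_comp, mat_one]
    calc ∑ n, Matrix.of g a n • ∑ l, Matrix.of g' n l • B l = ∑ n, g a n • B' n :=
          Finset.sum_congr rfl fun n _ => congrArg (fun z => g a n • z) (hg' n)
      _ = B a := hg a
  have e2 : Matrix.of g' * Matrix.of g = 1 := by
    refine mat_uni (li hk hc hB') fun a => ?_
    rw [mat_comp, mat_one]
    calc ∑ n, Matrix.of g' a n • ∑ l, Matrix.of g n l • B' l = ∑ n, g' a n • B n :=
          Finset.sum_congr rfl fun n _ => congrArg (fun z => g' a n • z) (hg n)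
      _ = B' a := hg' a
  refine ⟨⟨⟨Matrix.of g, Matrix.of g', e1, e2⟩, ?_⟩, fun a => (hg a).symm⟩
  change act (Matrix.of g) c = c
  funext i J
  rw [← t_act hB' (Matrix.of g) i J, ← hB i J]
  congr 2
  funext m
  exact hg (J m)

theorem span_eq {B : Fin r → E →ₗ[ℂ] ℂ} (hB : LinearIndependent ℂ B)
    {W : Submodule ℂ (E →ₗ[ℂ] ℂ)} (hW : Module.finrank ℂ W = r) (hm : ∀ a, B a ∈ W) :
    Submodule.span ℂ (range B) = W := by
  refine Submodule.eq_of_le_of_finrank_eq ?_ ?_
  · rw [Submodule.span_le]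
    rintro _ ⟨a, rfl⟩
    exact hm a
  · rw [hW, finrank_span_eq_card hB, Fintype.card_fin]

end lin

end pCOVAux

open pCOVAux

theorem pCOV (hGRP : S_GRP) (hTOPG : S_TOPG) : S_COV := by
  classical
  intro E _ _ _ X _ _ _ k κ _ τ r c hk hNC hrk hLS
  choose U A hUo hU hUA using hLS
  have hgood : ∀ i x, x ∈ U i → ∀ l (J : Fin k → Fin r), τ l x (tpm (fun m => A i (J m) x)) = c l J :=
    fun i x hx => (hUA i x hx).2
  have hli : ∀ i x, x ∈ U i → LinearIndependent ℂ (fun a => A i a x) := fun i x hx =>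
    li hk hNC (t := fun l => τ l x) (hgood i x hx)
  have hsp : ∀ i x, x ∈ U i → Submodule.span ℂ (range fun a => A i a x) = WS E x := fun i x hx =>
    span_eq (hli i x hx) (hrk x) fun a => ((hUA i x hx).1 a).2
  have hfin : Finite (GG0 c) := GG0_finite hGRP hk hNC
  have hr : ∀ i j x : X, ∃ g : GG0 c, x ∈ U i → x ∈ U j →
      ∀ a, A i a x = ∑ l, g.1.1 a l • A j l x := by
    intro i j x
    by_cases hi : x ∈ U i
    · by_cases hj : x ∈ U j
      · obtain ⟨g, hg⟩ := trans hk hNC (t := fun l => τ l x) (hgood i x hi) (hgood j x hj)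
          ((hsp i x hi).trans (hsp j x hj).symm)
        exact ⟨g, fun _ _ => hg⟩
      · exact ⟨1, fun _ h => absurd h hj⟩
    · exact ⟨1, fun h => absurd h hi⟩
  choose γ hγ using hr
  have huni : ∀ (j x : X), x ∈ U j → ∀ g g' : GG0 c,
      (∀ a, ∑ l, g.1.1 a l • A j l x = ∑ l, g'.1.1 a l • A j l x) → g = g' := by
    intro j x hj g g' h
    exact Subtype.ext (Units.ext (mat_uni (hli j x hj) h))
  -- continuity
  have hcont : ∀ i x, x ∈ U i → ∀ a v, ContinuousAt (fun z => A i a z (toT x z v)) x :=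
    fun i x hx a v => (((hUA i x hx).1 a).1 v).continuousAt
  have hloc : ∀ i j x, x ∈ U i → x ∈ U j → ∀ᶠ z in 𝓝 x, γ i j z = γ i j x := by
    intro i j x hi hj
    have h1 : ∀ g : GG0 c, ∀ᶠ z in 𝓝 x, g ≠ γ i j x → γ i j z ≠ g := by
      intro g
      by_cases hg : g = γ i j x
      · exact Filter.Eventually.of_forall fun z h => absurd hg h
      · obtain ⟨a, ha⟩ : ∃ a, A i a x ≠ ∑ l, g.1.1 a l • A j l x := by
          by_contra hcon
          push Not at hcon
          refine hg (huni j x hj _ _ fun a => ?_)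
          rw [← hcon a, ← hγ i j x hi hj a]
        obtain ⟨v, hv⟩ : ∃ v, A i a x v ≠ (∑ l, g.1.1 a l • A j l x) v := by
          by_contra hcon
          push Not at hcon
          exact ha (LinearMap.ext hcon)
        have hc1 := hcont i x hi a v
        have hc2 : ContinuousAt (fun z => ∑ l, g.1.1 a l * A j l z (toT x z v)) x :=
          tendsto_finsetSum _ fun l _ => (hcont j x hj l v).const_mul (g.1.1 a l)
        have hne : A i a x (toT x x v) - ∑ l, g.1.1 a l * A j l x (toT x x v) ≠ 0 := by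
          rw [sub_ne_zero]
          simp only [toT_self]
          rw [LinearMap.sum_apply] at hv
          simpa only [LinearMap.smul_apply, smul_eq_mul] using hv
        filter_upwards [(hc1.sub hc2).eventually_ne hne, (hUo i).mem_nhds hi,
          (hUo j).mem_nhds hj] with z hz hzi hzj _ h
        apply hz
        refine sub_eq_zero.2 ?_
        have h2 := congrArg (fun L : E →ₗ[ℂ] ℂ => L (toT x z v)) (hγ i j z hzi hzj a)
        simp only [LinearMap.sum_apply, LinearMap.smul_apply, smul_eq_mul] at h2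
        rw [h] at h2
        exact h2
    filter_upwards [Filter.eventually_all.2 h1] with z hz
    by_contra hne
    exact hz (γ i j z) hne rfl
  have hcoc : ∀ i j l x, x ∈ U i → x ∈ U j → x ∈ U l → γ i j x * γ j l x = γ i l x := by
    intro i j l x hi hj hl
    refine huni l x hl _ _ fun a => ?_
    rw [← hγ i l x hi hl a]
    change ∑ m, ((γ i j x).1.1 * (γ j l x).1.1) a m • A l m x = _
    rw [mat_comp, hγ i j x hi hj a]
    exact Finset.sum_congr rfl fun n _ => congrArg (fun z => (γ i j x).1.1 a n • z)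
      (hγ j l x hj hl n).symm
  have : LocallyConnectedSpace X := ChartedSpace.locallyConnectedSpace E X
  obtain ⟨Y, _, f, d, hY1, hY2, hY3, hf, hdc, hdr⟩ := hTOPG X (GG0 c) U γ hUo hU hloc hcoc
  obtain ⟨_, hYm, hfe⟩ := pLH E X Y f hf
  have hCCM : CCM E Y := ⟨hY1, hY2, hY3, hYm⟩
  have hfc : Continuous f := hf.continuous
  -- the forms
  have hη : ∀ y i, f y ∈ U i → ∀ a,
      ∑ l, (d (f y) y).1.1 a l • A (f y) l (f y) = ∑ l, (d i y).1.1 a l • A i l (f y) := by
    intro y i hi a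
    have h1 := hdr i (f y) y hi (hU (f y))
    rw [← h1]
    change ∑ l, ((d i y).1.1 * (γ i (f y) (f y)).1.1) a l • A (f y) l (f y) = _
    rw [mat_comp]
    exact Finset.sum_congr rfl fun n _ => congrArg (fun z => (d i y).1.1 a n • z)
      (hγ i (f y) (f y) hi (hU (f y)) n).symm
  refine ⟨Y, _, _, hCCM, f, hfe, fun a y =>
    (∑ l, (d (f y) y).1.1 a l • A (f y) l (f y)).comp (dd f y : E →L[ℂ] E).toLinearMap, ?_, ?_⟩
  · intro a
    rw [H1_iff]
    intro y v
    have h1 : DA (E := E) (fun z => ∑ l, (d (f y) y).1.1 a l * pull1 f (A (f y) l) z (toT y z v)) y :=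
      da_sum fun l => da_mul (da_const _ y)
        (H1at_pull1 (hfe y).contMDiffAt ((hUA (f y) (f y) (hU (f y))).1 l).1 v)
    refine h1.congr_of_eventuallyEq ?_
    have hV : IsOpen (f ⁻¹' U (f y)) := (hUo (f y)).preimage hfc
    filter_upwards [hdc (f y) y (hU (f y)), hV.mem_nhds (hU (f y))] with z hz hzV
    change (∑ l, (d (f z) z).1.1 a l • A (f z) l (f z)) (dd f z (toT y z v)) =
      ∑ l, (d (f y) y).1.1 a l * A (f y) l (f z) (dd f z (toT y z v))
    rw [hη z (f y) hzV a, hz]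
    simp only [LinearMap.sum_apply, LinearMap.smul_apply, smul_eq_mul]
  · intro y
    refine ⟨fun a => ∑ l, (d (f y) y).1.1 a l • A (f y) l (f y), ?_, fun a => rfl⟩
    have hg : act (d (f y) y).1.1 c = c := (d (f y) y).2
    refine span_eq (li hk hNC (t := fun l => τ l (f y)) fun l J => ?_) (hrk (f y)) fun a => ?_
    · have h1 := t_act (t := fun l => τ l (f y)) (B := fun a => A (f y) a (f y))
        (hgood (f y) (f y) (hU (f y))) (d (f y) y).1.1 l J
      rw [hg] at h1
      exact h1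
    · exact Submodule.sum_mem _ fun l _ => Submodule.smul_mem _ _
        ((hUA (f y) (f y) (hU (f y))).1 l).2

end MP_d4c35b_ag.TW
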