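import Pool.Agent.Lib.MP_d4c35b_ag.TW.Defs2

/-!
DER: the derivative of the equations of the torsor at a solution.
-/

set_option autoImplicit false

open scoped Manifold ContDiff Topology
open Function Set

namespace MP_d4c35b_ag.TW

open MP_d4c35b_ag.TG

namespace pDERAux

/-- the coordinate `m (a, l)` -/
noncomputable def prc (E : Type) [NormedAddCommGroup E] [NormedSpace ℂ E] {r : ℕ} (a l : Fin r) :
    E × (Fin r → Fin r → ℂ) →L[ℂ] ℂ :=
  (ContinuousLinearMap.proj l).comp ((ContinuousLinearMap.proj a).comp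
    (ContinuousLinearMap.snd ℂ E (Fin r → Fin r → ℂ)))

theorem prc_apply {E : Type} [NormedAddCommGroup E] [NormedSpace ℂ E] {r : ℕ} (a l : Fin r)
    (p : E × (Fin r → Fin r → ℂ)) : prc E a l p = p.2 a l := rfl

/-- the derivative of the coefficient of `J` -/
noncomputable def dc {E : Type} [NormedAddCommGroup E] [NormedSpace ℂ E] {r k : ℕ} {κ : Type}
    (θ : E → κ → (Fin k → Fin r) → ℂ) (u₀ : E) (m₀ : Fin r → Fin r → ℂ) (i : κ)
    (J : Fin k → Fin r) : E × (Fin r → Fin r → ℂ) →L[ℂ] ℂ :=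
  ∑ L : Fin k → Fin r, ((∏ a, m₀ (J a) (L a)) • ((fderiv ℂ (fun v => θ v i L) u₀).comp
    (ContinuousLinearMap.fst ℂ E (Fin r → Fin r → ℂ))) + θ u₀ i L •
      ∑ a, (∏ b ∈ Finset.univ.erase a, m₀ (J b) (L b)) • prc E (J a) (L a))

theorem hasF {E : Type} [NormedAddCommGroup E] [NormedSpace ℂ E] {r k : ℕ} {κ : Type}
    (θ : E → κ → (Fin k → Fin r) → ℂ) (u₀ : E) (m₀ : Fin r → Fin r → ℂ)
    (hθ : ∀ i L, DifferentiableAt ℂ (fun v => θ v i L) u₀) (i : κ) (J : Fin k → Fin r) :
    HasFDerivAt (fun p : E × (Fin r → Fin r → ℂ) =>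
      ∑ L : Fin k → Fin r, (∏ a, p.2 (J a) (L a)) * θ p.1 i L) (dc θ u₀ m₀ i J) (u₀, m₀) := by
  classical
  refine HasFDerivAt.fun_sum fun L _ => ?_
  have h1 : HasFDerivAt (fun p : E × (Fin r → Fin r → ℂ) => ∏ a, p.2 (J a) (L a))
      (∑ a, (∏ b ∈ Finset.univ.erase a, m₀ (J b) (L b)) • prc E (J a) (L a)) (u₀, m₀) := by
    exact HasFDerivAt.finsetProd (𝕜 := ℂ) (u := Finset.univ)
      (g := fun (a : Fin k) (p : E × (Fin r → Fin r → ℂ)) => p.2 (J a) (L a))
      (g' := fun a => prc E (J a) (L a)) (x := (u₀, m₀))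
      fun a _ => (prc E (J a) (L a)).hasFDerivAt
  have h2 : HasFDerivAt (fun p : E × (Fin r → Fin r → ℂ) => θ p.1 i L)
      ((fderiv ℂ (fun v => θ v i L) u₀).comp (ContinuousLinearMap.fst ℂ E (Fin r → Fin r → ℂ)))
      (u₀, m₀) :=
    HasFDerivAt.comp (u₀, m₀) (g := fun v => θ v i L) (f := Prod.fst) (hθ i L).hasFDerivAt
      hasFDerivAt_fst
  exact h1.mul h2

theorem dc_snd {E : Type} [NormedAddCommGroup E] [NormedSpace ℂ E] {r k : ℕ} {κ : Type}
    (θ : E → κ → (Fin k → Fin r) → ℂ) (u₀ : E) (m₀ : Fin r → Fin r → ℂ) (i : κ)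
    (J : Fin k → Fin r) (v : Fin r → Fin r → ℂ) : dc θ u₀ m₀ i J (0, v) =
    ∑ L : Fin k → Fin r, θ u₀ i L *
      ∑ a, (∏ b ∈ Finset.univ.erase a, m₀ (J b) (L b)) * v (J a) (L a) := by
  simp only [dc, ContinuousLinearMap.sum_apply, ContinuousLinearMap.add_apply,
    ContinuousLinearMap.smul_apply, ContinuousLinearMap.comp_apply,
    ContinuousLinearMap.coe_fst', map_zero, smul_eq_mul, mul_zero, zero_add, prc_apply]

theorem prod_upd {r k : ℕ} (m₀ : Fin r → Fin r → ℂ) (J L : Fin k → Fin r) (a : Fin k) (l : Fin r) :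
    ∏ b, m₀ (update J a l b) (L b) =
      m₀ l (L a) * ∏ b ∈ Finset.univ.erase a, m₀ (J b) (L b) := by
  classical
  rw [← Finset.mul_prod_erase Finset.univ (fun b => m₀ (update J a l b) (L b)) (Finset.mem_univ a),
    update_self]
  congr 1
  refine Finset.prod_congr rfl fun b hb => ?_
  rw [update_of_ne (Finset.ne_of_mem_erase hb)]

end pDERAux

open pDERAux

theorem pDER : S_DER := by
  intro E _ _ r k κ _ c θ u₀ m₀ n hθ hact hn hB
  refine ⟨ContinuousLinearMap.pi fun i => ContinuousLinearMap.pi fun J => dc θ u₀ m₀ i J, ?_, ?_⟩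
  · have h1 : HasFDerivAt (fun p : E × (Fin r → Fin r → ℂ) => act (Matrix.of p.2) (θ p.1))
        (ContinuousLinearMap.pi fun i => ContinuousLinearMap.pi fun J => dc θ u₀ m₀ i J)
        (u₀, m₀) := by
      refine hasFDerivAt_pi.2 fun i => ?_
      refine hasFDerivAt_pi.2 fun J => ?_
      exact hasF θ u₀ m₀ hθ i J
    exact h1.sub_const c
  · intro v hv
    have hv' : ∀ (i : κ) (J : Fin k → Fin r), dc θ u₀ m₀ i J (0, v) = 0 := fun i J =>
      congrFun (congrFun hv i) J
    let D : Matrix (Fin r) (Fin r) ℂ := Matrix.of v * n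
    have hD : D * Matrix.of m₀ = Matrix.of v := by
      rw [show D = Matrix.of v * n from rfl, Matrix.mul_assoc, hn, Matrix.mul_one]
    have hD' : ∀ a b, v a b = ∑ l, D a l * m₀ l b := by
      intro a b
      have h := congrFun (congrFun hD a) b
      rw [Matrix.mul_apply] at h
      exact h.symm
    have h0 : D = 0 := by
      refine hB D fun i J => ?_
      rw [← hv' i J, dc_snd]
      have h1 : ∀ (a : Fin k) (l : Fin r), c i (update J a l) =
          ∑ L : Fin k → Fin r, (m₀ l (L a) * ∏ b ∈ Finset.univ.erase a, m₀ (J b) (L b)) *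
            θ u₀ i L := by
        intro a l
        rw [← hact]
        refine Finset.sum_congr rfl fun L _ => ?_
        rw [← prod_upd]
        rfl
      have h3 : ∑ L : Fin k → Fin r, θ u₀ i L *
          ∑ a, (∏ b ∈ Finset.univ.erase a, m₀ (J b) (L b)) * v (J a) (L a) =
          ∑ a : Fin k, ∑ L : Fin k → Fin r, θ u₀ i L *
            ((∏ b ∈ Finset.univ.erase a, m₀ (J b) (L b)) * v (J a) (L a)) := by
        simp only [Finset.mul_sum]
        exact Finset.sum_comm
      rw [h3]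
      refine Finset.sum_congr rfl fun a _ => ?_
      simp only [h1, hD', Finset.mul_sum]
      rw [Finset.sum_comm]
      refine Finset.sum_congr rfl fun L _ => Finset.sum_congr rfl fun l _ => ?_
      ring
    funext a b
    rw [hD' a b, h0]
    simp

end MP_d4c35b_ag.TW
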