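import Pool.Agent.Lib.MP_d4c35b_ag.TG.Surj
import Pool.Agent.Lib.MP_d4c35b_ag.TG.G1c
import Pool.Agent.Lib.MP_d4c35b_ag.TG.Spec

/-!
THEOREM W of MP_d4c35b_ag: compact complex manifolds such that the stable base locus of
`O_{P(T_X)}(1)` does not dominate `X`.  Definitions and statements of the modules.

Conventions as in `TG`: `TangentSpace 𝓘(ℂ, E) x = E`; a covariant tensor field with slots `ι` is a
function `s : X → MM E ι` (`MM E ι` = `ι`-multilinear forms on `E`), `HC s` = holomorphic,
`HK τ` = holomorphic contravariant tensor field, given as a functional on `MM E κ`.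
-/

set_option autoImplicit false

open scoped Manifold ContDiff Topology
open Function Set

namespace MP_d4c35b_ag.TW

open MP_d4c35b_ag.TG

/-- the product `∏ ξ(v_i)` -/
noncomputable def pwM {E : Type} [NormedAddCommGroup E] [NormedSpace ℂ E] (k : ℕ)
    (ξ : E →ₗ[ℂ] ℂ) : MM E (Fin k) := tpm (fun _ : Fin k => ξ)

/-- the contravariant tensors `t_i` of degree `k` have no common zero `ξ ≠ 0` -/
def NCZ {E : Type} [NormedAddCommGroup E] [NormedSpace ℂ E] {k : ℕ} {κ : Type}
    (t : κ → MM E (Fin k) →ₗ[ℂ] ℂ) : Prop :=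
  ∀ ξ : E →ₗ[ℂ] ℂ, (∀ i, t i (pwM k ξ) = 0) → ξ = 0

/-- all nonzero holomorphic covariant tensor fields on `X` have no zeros -/
def INJ (E X : Type) [NormedAddCommGroup E] [NormedSpace ℂ E] [FiniteDimensional ℂ E]
    [TopologicalSpace X] [ChartedSpace E X] [IsManifold 𝓘(ℂ, E) ω X] : Prop :=
  ∀ (ι : Type) [Fintype ι] (s : X → MM E ι), HC s → ∀ y : X, s y = 0 → s = 0

/-- `s` vanishes to order `≥ N` at `y` -/
def OV {E X : Type} [NormedAddCommGroup E] [NormedSpace ℂ E]
    [TopologicalSpace X] [ChartedSpace E X] [IsManifold 𝓘(ℂ, E) ω X]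
    (N : ℕ) {ι : Type} (s : X → MM E ι) (y : X) : Prop :=
  ∀ v : ι → E, (fun x => s x (fun i => toT y x (v i))) =O[𝓝 y]
    fun x => ‖chartAt E y x - chartAt E y y‖ ^ N

/-- the covector obtained from `m` by filling all slots but `none` -/
noncomputable def cv {E : Type} [NormedAddCommGroup E] [NormedSpace ℂ E] {κ : Type}
    (m : MM E (Option κ)) (b : κ → E) : E →ₗ[ℂ] ℂ :=
  by classical exact m.toLinearMap (fun o => o.elim 0 b) none

/-- the space of covectors at `x` spanned by the slots of all holomorphic tensor fields -/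
def WS (E : Type) {X : Type} [NormedAddCommGroup E] [NormedSpace ℂ E] [FiniteDimensional ℂ E]
    [TopologicalSpace X] [ChartedSpace E X] [IsManifold 𝓘(ℂ, E) ω X] (x : X) :
    Submodule ℂ (E →ₗ[ℂ] ℂ) :=
  Submodule.span ℂ {ξ | ∃ (κ : Type) (_ : Fintype κ) (s : X → MM E (Option κ)) (b : κ → E),
    HC s ∧ ξ = cv (s x) b}

/-- polynomial covariant fields in the vector variables `n` -/
def PF {E X : Type} [NormedAddCommGroup E] [NormedSpace ℂ E] [FiniteDimensional ℂ E]
    [TopologicalSpace X] [ChartedSpace E X] [IsManifold 𝓘(ℂ, E) ω X] {n : Type}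
    (G : X → (n → E) → ℂ) : Prop :=
  ∃ (A : Type) (_ : Fintype A) (ι : A → Type) (_ : ∀ a, Fintype (ι a))
    (s : ∀ a, X → MM E (ι a)) (ρ : ∀ a, ι a → n),
    (∀ a, HC (s a)) ∧ ∀ x v, G x v = ∑ a, s a x (fun i => v (ρ a i))

/-- FD.  Finite-dimensionality of the space of holomorphic covariant tensor fields.

Proof.  Let `b` be a basis of `E`.  For every `a : X` choose `r_a > 0` with
`closedBall (φ_a a) (3 r_a) ⊆ φ_a.target` (`φ_a = chartAt E a`).  Finitely many sets
`B_a = φ_a⁻¹(ball (φ_a a) r_a)` cover `X`.  For `s` in the space let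
`g_{a,I}(u) = s (φ_a⁻¹ (φ_a a + r_a u)) (toT a _ b_I)` for `‖u‖ ≤ 2` (`I : ι → Fin dim E`).
Put `‖s‖ = max_{a,I} sup_{‖u‖ ≤ 1} |g_{a,I}(u)|`.  (1) `sup_{‖u‖ ≤ 2} |g_{a,I}(u)| ≤ C ‖s‖`:
the point lies in some `B_c`, and `toT a x b_i = toT c x (tangentCoordChange a c x b_i)`
(`toT_change`), the coordinates of `tangentCoordChange a c x b_i` are bounded for `x` in the
compact set `φ_a⁻¹(closedBall 2r_a) ∩ φ_c⁻¹(closedBall r_c)`.  (2) Cauchy estimate: `g_{a,I}` is
holomorphic on `ball 0 2` and bounded by `C‖s‖`, hence `C' ‖s‖`-Lipschitz on `closedBall 0 1`.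
(3) Map the space injectively to `Fin m → C(closedBall 0 1, ℂ)`; if it were infinite-dimensional,
`exists_seq_norm_le_one_le_norm_sub'` gives a bounded sequence with pairwise distances `≥ 1`;
by (2) it is equicontinuous, so by Arzela-Ascoli it has a convergent subsequence: contradiction. -/
def S_FD : Prop :=
  ∀ (E : Type) [NormedAddCommGroup E] [NormedSpace ℂ E] [FiniteDimensional ℂ E]
    (X : Type) [TopologicalSpace X] [ChartedSpace E X] [CCM E X] (ι : Type) [Fintype ι],
    Module.Finite ℂ (FC E X ι)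

/-- ORD.  The vanishing order of a nonzero holomorphic tensor field at `y` is bounded.

Proof from FD.  The subspaces `V_N = {s ∈ FC | OV N s y}` decrease, so they are constant from some
`N` on (`FC` is Artinian).  A field `s` in all `V_N` vanishes near `y`: each coefficient function
`F(u) = s (φ_y⁻¹ u) (toT y _ v)` is analytic at `φ_y y` (differentiable near `φ_y y`, `E`
finite-dimensional over `ℂ`; or restrict it to complex lines through `φ_y y` and use analyticity
in one variable) and `O(‖u - φ_y y‖^N)` for every `N`, so it is zero near `φ_y y`.  Then `s x = 0`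
for `x` near `y` (`toT y x` is bijective: `toT_ofT`), and `s = 0` by `HC_ident` (TG/Ident.lean). -/
def S_ORD : Prop :=
  ∀ (E : Type) [NormedAddCommGroup E] [NormedSpace ℂ E] [FiniteDimensional ℂ E]
    (X : Type) [TopologicalSpace X] [ChartedSpace E X] [CCM E X] (y : X) (ι : Type) [Fintype ι],
    ∃ N : ℕ, ∀ s : X → MM E ι, HC s → OV N s y → s = 0

/-- NSH.  Homogeneous Nullstellensatz.

Proof.  By `MvPolynomial.vanishingIdeal_zeroLocus_eq_radical` every variable `X_j` lies in the
radical of the ideal `(f_i)`, so `X_j ^ m ∈ (f_i)` for a common `m ≥ 1`; a monomial of degree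
`M = card σ * m + k` (say) contains some `X_j ^ m`, so it is in the ideal; take the homogeneous
component of degree `M - k` of the coefficients. (`σ` empty: there is no monomial of degree
`M ≥ 1`.) -/
def S_NSH : Prop :=
  ∀ (σ κ : Type) [Fintype σ] [Fintype κ] (f : κ → MvPolynomial σ ℂ) (k : ℕ), 1 ≤ k →
    (∀ i, (f i).IsHomogeneous k) →
    (∀ z : σ → ℂ, (∀ i, MvPolynomial.eval z (f i) = 0) → z = 0) →
    ∃ M : ℕ, k ≤ M ∧ ∀ μ : σ →₀ ℕ, μ.degree = M →
      ∃ g : κ → MvPolynomial σ ℂ, (∀ i, (g i).IsHomogeneous (M - k)) ∧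
        MvPolynomial.monomial μ 1 = ∑ i, g i * f i

/-- KL.  Contraction lemma: if the `t_i` have no common zero, then every nonzero multilinear form
of large degree has a nonzero contraction with some `t_i` in some `k` slots.

Proof.  Let `b` be a basis of `E` (dimension `n`), `f_i = ∑_{u : Fin k → Fin n} t_i(⊗ b*_{u_j})
∏ X_{u_j}` in `MvPolynomial (Fin n) ℂ`; then `eval z f_i = t_i (pwM k (∑ z_j b*_j))`, so the `f_i`
have no common zero, and NSH gives `M`.  Let `J = n * M + 1`.  Let `B ≠ 0` with `card ι ≥ J`.  Some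
value `B (b ∘ w)`, `w : ι → Fin n`, is nonzero; by the pigeonhole principle some basis vector
`e = b_c` occurs in at least `M` slots; fix the other slots: get `B' : MM E (Fin M)` with
`B'(e,…,e) ≠ 0`.  Suppose all contractions of `B` vanish; then so do all contractions of `B'`
with `t_i` in `k` of its slots, and those of its symmetrization `B''` (also `B''(e,…,e) ≠ 0`).
Let `L : MvPolynomial (Fin n) ℂ → ℂ` be the linear functional with
`L(∏_{a : Fin M} X_{w_a}) = B''(b ∘ w)` and zero in degrees `≠ M`.  Then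
`L(f_i * ∏_{a : Fin (M-k)} X_{w_a})` is the contraction of `B''` with `t_i` evaluated at `b ∘ w`,
hence zero, and NSH gives `B''(e,…,e) = L(X_c ^ M) = 0`: contradiction.  (`n = 0`: then `B = 0` if
`card ι ≥ 1`.) -/
def S_KL : Prop :=
  ∀ (E : Type) [NormedAddCommGroup E] [NormedSpace ℂ E] [FiniteDimensional ℂ E]
    (k : ℕ) (κ : Type) [Fintype κ] (t : κ → MM E (Fin k) →ₗ[ℂ] ℂ), 1 ≤ k → NCZ t →
    ∃ J : ℕ, ∀ (ι : Type) [Fintype ι] [DecidableEq ι], J ≤ Fintype.card ι →
      ∀ B : MM E ι, B ≠ 0 → ∃ (i : κ) (ι' : Type) (_ : Fintype ι') (_ : DecidableEq ι')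
        (e : ι ≃ ι' ⊕ Fin k),
        (t i).compMultilinearMap ((B.domDomCongr e).currySum) ≠ 0

/-- PFI.  A polynomial covariant field that vanishes identically at one point is zero.

Proof.  `G x v = ∑_a s_a x (v ∘ ρ_a)`.  Let `S` be a finite subset of `n × ℕ`.  Let
`G_S = ∑_a ∑_{e : ι_a ≃ S, fst ∘ e = ρ_a} reix e s_a : X → MM E S`, a holomorphic field.
Claim: `G_S y = 0`.  Substitute `v_i = ∑_{j < d} t_{ij} w_{ij}` in `G y v = 0` and expand:
`∑_a ∑_{κ : ι_a → Fin d} (∏_i t_{ρ_a i, κ i}) s_a y (w_{ρ_a i, κ i}) = 0` for all `t`; the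
coefficient of the squarefree monomial `∏_{(i,j) ∈ S} t_{ij}` is `G_S y (w|_S)`.  By INJ,
`G_S = 0`.  For `δ : n → ℕ` let `S_δ = {(i,j) | j < δ i}`; for `w_{ij} = v_i` one gets
`G_{S_δ} x w = (∏ (δ i)!) ∑_{a of multidegree δ} s_a x (v ∘ ρ_a)`; so all these partial sums
vanish, and `G x v = 0`.  (Other proofs are fine, e.g. with iterated derivatives.) -/
def S_PFI : Prop :=
  ∀ (E : Type) [NormedAddCommGroup E] [NormedSpace ℂ E] [FiniteDimensional ℂ E]
    (X : Type) [TopologicalSpace X] [ChartedSpace E X] [IsManifold 𝓘(ℂ, E) ω X], INJ E X →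
    ∀ (n : Type) [Fintype n] (G : X → (n → E) → ℂ), PF G → ∀ y : X, (∀ v, G y v = 0) →
      ∀ x v, G x v = 0

/-- PFC.  Closure properties of the class PF: values of holomorphic fields at chosen variables,
constants, sums, products, renaming of variables.

Proof.  Disjoint unions of index types; for products index type `A × A'`, slots
`ι a ⊕ ι' a'`, field `mulF` (HC_mulF in TG/Ops.lean); constants: `A = Unit`, `ι = Empty`
(or `Fin 0`), the constant form. -/
def S_PFC : Prop :=
  ∀ (E : Type) [NormedAddCommGroup E] [NormedSpace ℂ E] [FiniteDimensional ℂ E]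
    (X : Type) [TopologicalSpace X] [ChartedSpace E X] [IsManifold 𝓘(ℂ, E) ω X] (n : Type),
    (∀ (ι : Type) [Fintype ι] (s : X → MM E ι) (ρ : ι → n), HC s →
      PF (fun x v => s x (fun i => v (ρ i)))) ∧
    (∀ c : ℂ, PF (fun (_ : X) (_ : n → E) => c)) ∧
    (∀ G G' : X → (n → E) → ℂ, PF G → PF G' → PF (fun x v => G x v + G' x v)) ∧
    (∀ G G' : X → (n → E) → ℂ, PF G → PF G' → PF (fun x v => G x v * G' x v)) ∧
    (∀ (Q : Type) [Fintype Q] (G : Q → X → (n → E) → ℂ), (∀ q, PF (G q)) →
      PF (fun x v => ∑ q, G q x v)) ∧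
    (∀ (Q : Type) [Fintype Q] (G : Q → X → (n → E) → ℂ), (∀ q, PF (G q)) →
      PF (fun x v => ∏ q, G q x v)) ∧
    (∀ (m : Type) (π : m → n) (G : X → (m → E) → ℂ), PF G → PF (fun x v => G x (fun i => v (π i))))

/-- TP.  Transfer principle.

Proof.  For `x : X` let `F_x` be the span of the functions `b ↦ f_q x (a ⊕ b)` and `G_x` the span
of the functions `b ↦ g x (a ⊕ b)`.  `F_x` and `G_x` are finite-dimensional (expand the variables
`a` in a basis of `E`).  General fact: for a set `S` of functions `β → ℂ`, the span of `S` has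
dimension `≥ ρ` iff there are `h_1, …, h_ρ ∈ S` and `b_1, …, b_ρ : β` with
`det (h_i b_j) ≠ 0`.  For `h_i(x; a) ∈ {f_q, g}` the determinant
`det (h_i x (a_i ⊕ b_j))` is a polynomial covariant field in the variables `a_i, b_j` (PFC), so by
PFI it is identically zero at `x₀` iff it is identically zero at `x`.  Hence `dim F_x` and
`dim (F_x + G_x)` do not depend on `x`.  If `G_{x₀} ⊆ F_{x₀}`, these two numbers are equal, so
`G_x ⊆ F_x` for all `x`. -/
def S_TP : Prop :=
  ∀ (E : Type) [NormedAddCommGroup E] [NormedSpace ℂ E] [FiniteDimensional ℂ E]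
    (X : Type) [TopologicalSpace X] [ChartedSpace E X] [IsManifold 𝓘(ℂ, E) ω X], INJ E X →
    ∀ (n m Q : Type) [Fintype n] [Fintype m] [Fintype Q] (f : Q → X → (n ⊕ m → E) → ℂ)
      (g : X → (n ⊕ m → E) → ℂ), (∀ q, PF (f q)) → PF g → ∀ x₀ x : X,
      (∀ a : n → E, (fun b : m → E => g x₀ (Sum.elim a b)) ∈
        Submodule.span ℂ {h : (m → E) → ℂ | ∃ q a', h = fun b => f q x₀ (Sum.elim a' b)}) →
      ∀ a : n → E, (fun b : m → E => g x (Sum.elim a b)) ∈
        Submodule.span ℂ {h : (m → E) → ℂ | ∃ q a', h = fun b => f q x (Sum.elim a' b)}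

/-- GF.  Generating family of the spaces `WS E x`; in particular their dimension is constant.

Proof.  Choose `x₀` with `dim WS E x₀ = r` maximal; choose a basis of `WS E x₀` of the form
`cv (s_j x₀) b_j`, `j < r`.  If the slot type `κ_j` of `s_j` is empty, replace `s_j` by the field
`s_j ⊗ s_j` with slots `Option Unit` (`(u, w) ↦ s_j(u) s_j(w)`), which is nonzero at every point
because `s_j x ≠ 0` by INJ.  There are vectors `u_i` with `det (cv (s_j x₀) b_j u_i) ≠ 0`.  The
function `(x; u, b) ↦ det (cv (s_j x) b_j u_i)` is in PF, so by PFI it is not identically zero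
at any `x`: for every `x` there are `b` such that the covectors `cv (s_j x) (b_j)` are linearly
independent; they lie in `WS E x`, whose dimension is at most `r`, so they span it. -/
def S_GF : Prop :=
  ∀ (E : Type) [NormedAddCommGroup E] [NormedSpace ℂ E] [FiniteDimensional ℂ E]
    (X : Type) [TopologicalSpace X] [ChartedSpace E X] [CCM E X], INJ E X →
    ∃ (r : ℕ) (κ : Fin r → Type) (_ : ∀ j, Fintype (κ j)) (_ : ∀ j, Nonempty (κ j))
      (s : ∀ j, X → MM E (Option (κ j))), (∀ j, HC (s j)) ∧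
      ∀ x : X, ∃ b : ∀ j, κ j → E, LinearIndependent ℂ (fun j => cv (s j x) (b j)) ∧
        Submodule.span ℂ (range fun j => cv (s j x) (b j)) = WS E x

/-- GRP.  The group of matrices preserving a family of tensors without common zeros is finite,
and no infinitesimal matrix preserves them.

Here `c i : (Fin k → Fin r) → ℂ` are the coefficients of a `k`-linear form on `ℂ^r`, and
`(γ • c) i j = ∑_l ∏_m γ_{j_m l_m} c i l`.

Proof.  The function `h(z) = max_i |∑_j ∏ z_{j_m} c i j|` is continuous, homogeneous of degree `k`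
and positive for `z ≠ 0`, so `h(z) ≥ δ ‖z‖^k`.  (b) Let `B` be as in the last item.  Then
`E(t) := exp(tB) • c` satisfies `E'(t) = exp(tB) • (B · c) = 0`, where `B · c` is the left side of
the hypothesis; so `exp(tB) • c = c` for all `t : ℂ`, hence `h(z exp(tB)) = h(z)` and `exp(tB)` is
bounded; by Liouville `t ↦ exp(tB)` is constant, so `B = 0`.  (a) The set of `γ` with `γ • c = c`
is closed and bounded, so compact.  It is discrete: near one of its points `γ₀` the map
`γ ↦ γ • c` has injective derivative (if `D • …` kills `c` at `γ₀`, write `D = γ₀ B`, `γ₀`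
invertible; then `B` satisfies (b)), so it is injective near `γ₀`
(a differentiable map with injective derivative at `γ₀` has no further solution of
`f γ = f γ₀` near `γ₀`).  Compact and discrete: finite. -/
def S_GRP : Prop :=
  ∀ (r k : ℕ) (κ : Type) [Fintype κ] (c : κ → (Fin k → Fin r) → ℂ), 1 ≤ k →
    (∀ z : Fin r → ℂ, (∀ i, ∑ j : Fin k → Fin r, (∏ m, z (j m)) * c i j = 0) → z = 0) →
    Set.Finite {γ : Matrix (Fin r) (Fin r) ℂ |
      ∀ i j, ∑ l : Fin k → Fin r, (∏ m, γ (j m) (l m)) * c i l = c i j} ∧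
    ∀ B : Matrix (Fin r) (Fin r) ℂ,
      (∀ i (j : Fin k → Fin r), ∑ m : Fin k, ∑ l : Fin r, B (j m) l * c i (update j m l) = 0) →
      B = 0

/-- LOC.  Differentiability of a continuous solution of a system with injective partial
derivative.

Proof.  Let `(x_0, m_0) = (x₀, μ x₀)`, `L` the derivative of `F` there.  For `x` near `x₀`:
`0 = F(x, μ x) - F(x_0, m_0) = L(x - x_0, 0) + L(0, μ x - m_0) + o(‖x - x_0‖ + ‖μ x - m_0‖)`.
`L(0, ·)` is injective on the finite-dimensional space `V`, so it has a left inverse `R`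
(continuous linear).  First `‖μ x - m_0‖ ≤ C ‖x - x_0‖` near `x₀`, then
`μ x - m_0 = - R L(x - x_0, 0) + o(‖x - x_0‖)`. -/
def S_LOC : Prop :=
  ∀ (E V F : Type) [NormedAddCommGroup E] [NormedSpace ℂ E] [FiniteDimensional ℂ E]
    [NormedAddCommGroup V] [NormedSpace ℂ V] [FiniteDimensional ℂ V]
    [NormedAddCommGroup F] [NormedSpace ℂ F] [FiniteDimensional ℂ F]
    (Φ : E × V → F) (μ : E → V) (x₀ : E) (L : E × V →L[ℂ] F),
    HasFDerivAt Φ L (x₀, μ x₀) → (∀ v : V, L (0, v) = 0 → v = 0) → ContinuousAt μ x₀ →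
    (∀ᶠ x in 𝓝 x₀, Φ (x, μ x) = 0) → DifferentiableAt ℂ μ x₀

/-- TOPG.  The finite cover defined by a Čech cocycle with values in a finite group; same proof
as `pTOP` (TG/Top.lean), with the roots of unity replaced by `G` with the discrete topology and
`coordChange i j x g = g * γ i j x`. -/
def S_TOPG : Prop :=
  ∀ (X : Type) [TopologicalSpace X] [T2Space X] [CompactSpace X] [Nonempty X]
    [LocallyConnectedSpace X] (G : Type) [Group G] [Finite G],
    ∀ (U : X → Set X) (γ : X → X → X → G),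
      (∀ i, IsOpen (U i)) → (∀ i, i ∈ U i) →
      (∀ i j x, x ∈ U i → x ∈ U j → ∀ᶠ z in 𝓝 x, γ i j z = γ i j x) →
      (∀ i j l x, x ∈ U i → x ∈ U j → x ∈ U l → γ i j x * γ j l x = γ i l x) →
      ∃ (Y : Type) (_ : TopologicalSpace Y) (f : Y → X) (c : X → Y → G),
        T2Space Y ∧ CompactSpace Y ∧ ConnectedSpace Y ∧ IsLocalHomeomorph f ∧
        (∀ i y, f y ∈ U i → ∀ᶠ z in 𝓝 y, c i z = c i y) ∧
        (∀ i j y, f y ∈ U i → f y ∈ U j → c i y * γ i j (f y) = c j y)

/-- UNI.  Uniform degree: sections `τ_ξ` of degree depending on the covector `ξ` at `x₀`, not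
vanishing at `ξ`, give finitely many sections of one degree `k ≥ 1` without common zero at `x₀`.

Proof.  The unit sphere of the (finite-dimensional) space of covectors is compact, the sets
`{ξ | τ x₀ (pwM k ξ) ≠ 0}` are open: finitely many `(k_a, τ_a)` suffice.  Let `k = ∏ k_a` and take
the powers `τ_a^{⊗ k/k_a}`, where for `q` slots groups the power of a functional
`t : MM E (Fin k) → ℂ` is the functional on `MM E (Fin (q * k))` with
`t^{⊗q}(pwM ξ) = (t (pwM ξ))^q` (iterated contraction, group by group); it is holomorphic by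
`HK_iff`, `da_HK` (TG/Hol.lean). -/
def S_UNI : Prop :=
  ∀ (E : Type) [NormedAddCommGroup E] [NormedSpace ℂ E] [FiniteDimensional ℂ E]
    (X : Type) [TopologicalSpace X] [ChartedSpace E X] [IsManifold 𝓘(ℂ, E) ω X] (x₀ : X),
    (∀ ξ : E →ₗ[ℂ] ℂ, ξ ≠ 0 → ∃ (k : ℕ) (_ : 1 ≤ k) (τ : X → MM E (Fin k) →ₗ[ℂ] ℂ),
      HK τ ∧ τ x₀ (pwM k ξ) ≠ 0) →
    ∃ (k : ℕ) (_ : 1 ≤ k) (κ : Type) (_ : Fintype κ) (τ : κ → X → MM E (Fin k) →ₗ[ℂ] ℂ),
      (∀ i, HK (τ i)) ∧ NCZ (fun i => τ i x₀)

end MP_d4c35b_ag.TW
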