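import Pool.Agent.Lib.MP_d4c35b_ag.TW.Defs

/-!
THEOREM W of MP_d4c35b_ag, second part: the torsor of bases of `WS E x` in which the tensors
`τ_i` have prescribed coefficients, and the finite étale cover defined by it.
-/

set_option autoImplicit false

open scoped Manifold ContDiff Topology
open Function Set

namespace MP_d4c35b_ag.TW

open MP_d4c35b_ag.TG

/-- `(γ • c)_i(J) = ∑_L ∏_a γ_{J_a L_a} c_i(L)` -/
noncomputable def act {r k : ℕ} {κ : Type} (γ : Matrix (Fin r) (Fin r) ℂ)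
    (c : κ → (Fin k → Fin r) → ℂ) : κ → (Fin k → Fin r) → ℂ :=
  fun i J => ∑ L : Fin k → Fin r, (∏ a, γ (J a) (L a)) * c i L

/-- the tensors with coefficients `c_i` have no common zero -/
def NC {r k : ℕ} {κ : Type} (c : κ → (Fin k → Fin r) → ℂ) : Prop :=
  ∀ z : Fin r → ℂ, (∀ i, ∑ J : Fin k → Fin r, (∏ a, z (J a)) * c i J = 0) → z = 0

/-- NZ.  The sections `τ_i` have no common zero on `WS E x`, for all `x`. -/
def S_NZ : Prop :=
  ∀ (E : Type) [NormedAddCommGroup E] [NormedSpace ℂ E] [FiniteDimensional ℂ E]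
    (X : Type) [TopologicalSpace X] [ChartedSpace E X] [CCM E X], INJ E X →
    ∀ (k : ℕ) (κ : Type) [Fintype κ] (τ : κ → X → MM E (Fin k) →ₗ[ℂ] ℂ) (x₀ : X), 1 ≤ k →
      (∀ i, HK (τ i)) → NCZ (fun i => τ i x₀) →
      ∀ x : X, ∀ ζ ∈ WS E x, (∀ i, τ i x (pwM k ζ) = 0) → ζ = 0

/-- JN.  The coefficients of the `τ_i` at `x₀` occur at every point `x`.

Proof.  Let `s, K` be the generating family of GF (so `b ↦ xi s x b` (Gen.lean) maps onto `WS E x`
for every `x`, `xi_surj`).  Put `c i J = τ i x₀ (tpm (A⁰ ∘ J))`.  Suppose there is no such `A` at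
`x`.  Let `w : Fin r → WS E x` be a basis.  Consider in `MvPolynomial (R × Fin r) ℂ` the
polynomials `F_{i,J} = ∑_{u : Fin k → Fin r} C (τ i x (tpm (w ∘ u))) ∏_m X (J m, u m)`;
`eval z F_{i,J} = τ i x (tpm (A_z ∘ J))` with `A_z ρ = ∑_j z (ρ, j) • w j`.  So the polynomials
`F_{i,J} - C (c i J)` have no common zero, and by the Nullstellensatz
(`MvPolynomial.vanishingIdeal_zeroLocus_eq_radical`) `1 = ∑ g_{i,J} (F_{i,J} - C (c i J))`.  Every
monomial `∏_{l < D'} X (ρ_l, j_l)` evaluated at the coordinates of `xi s x (b_ρ)`, `ρ : R`, is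
`∏_{l < D'} (xi s x (b_{ρ_l})) (v_{j_l})` with `v_j : E` dual to `w` (`w i (v j) = δ_ij`).  So with
`D` = bound for the degrees of the `g_{i,J}` the function `1` of `b : R × (Σ j, K j) → E` is in
the span of the functions
`b ↦ (∏_{l < D'} (xi s x b_{ρ_l}) (a_l)) * (τ i x (tpm (fun m => xi s x b_{J m})) - c i J)`,
`D' ≤ D`, `ρ : Fin D' → R`, `i`, `J`, `a : Fin D → E`.  By the transfer principle TP (finite index
type `Q` = (D', ρ, i, J), `n = Fin D`, `m = R × Σ j, K j`; the functions are in PF by `PF_xi`,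
`PF_tau` (Gen.lean) and PFC) the same is true at `x₀` in place of `x`.  But at `x₀` all these
functions vanish at the point `b⁰` with `xi s x₀ (b⁰_ρ) = A⁰ ρ`: contradiction. -/
def S_JN : Prop :=
  ∀ (E : Type) [NormedAddCommGroup E] [NormedSpace ℂ E] [FiniteDimensional ℂ E]
    (X : Type) [TopologicalSpace X] [ChartedSpace E X] [CCM E X], INJ E X →
    ∀ (k : ℕ) (κ : Type) [Fintype κ] (τ : κ → X → MM E (Fin k) →ₗ[ℂ] ℂ), (∀ i, HK (τ i)) →
      ∀ (R : Type) [Fintype R] (x₀ : X) (A₀ : R → E →ₗ[ℂ] ℂ), (∀ ρ, A₀ ρ ∈ WS E x₀) →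
      ∀ x : X, ∃ A : R → E →ₗ[ℂ] ℂ, (∀ ρ, A ρ ∈ WS E x) ∧
        ∀ (i : κ) (J : Fin k → R), τ i x (tpm (fun m => A (J m))) =
          τ i x₀ (tpm (fun m => A₀ (J m)))

/-- SEC.  Continuous local sections of a finite torsor.

Proof.  (1) For every `u₂ ∈ O`, `m₂` with `Φ(u₂, m₂) = 0` and `ε > 0`, for `u` near `u₂` there is a
solution `m` of `Φ(u, m) = 0` with `‖m - m₂‖ < ε`.  Otherwise there is a sequence `u_n → u₂` without
such solution; choose solutions `m_n`; they are bounded, so a subsequence converges to some `m'`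
with `Φ(u₂, m') = 0`; `m' = g m₂`, so `g⁻¹ m_n → g⁻¹ m' = m₂`, and `g⁻¹ m_n` is a solution:
contradiction.  (2) There is `ε > 0` such that for `u` near `u₁` there is at most one solution in
the ball `B(m₁, ε)`: for `g ≠ 1` we have `g m₁ ≠ m₁` (uniqueness of `g`), so the closed set of
`(m, m')` with `m' = g m` does not contain `(m₁, m₁)`; take `ε` for the finitely many `g ≠ 1`.
(3) Let `μ u` be the solution in `B(m₁, ε)` for `u` near `u₁`; for `u₂` near `u₁` (1) with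
`m₂ = μ u₂` and (2) show that `μ` is continuous at `u₂`. -/
def S_SEC : Prop :=
  ∀ (E V F G : Type) [NormedAddCommGroup E] [NormedAddCommGroup V] [ProperSpace V]
    [NormedAddCommGroup F] [Group G] [Finite G] (ac : G → V → V) (O : Set E) (Φ : E × V → F),
    (∀ m, ac 1 m = m) → (∀ g h m, ac (g * h) m = ac g (ac h m)) → (∀ g, Continuous (ac g)) →
    IsOpen O → (∀ u ∈ O, ∀ m, ContinuousAt Φ (u, m)) →
    (∀ u ∈ O, ∃ m, Φ (u, m) = 0) →
    (∀ u ∈ O, ∀ m g, Φ (u, m) = 0 → Φ (u, ac g m) = 0) →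
    (∀ u ∈ O, ∀ m m', Φ (u, m) = 0 → Φ (u, m') = 0 → ∃ g, m' = ac g m) →
    (∀ u ∈ O, ∀ m g, Φ (u, m) = 0 → ac g m = m → g = 1) →
    (∀ u ∈ O, ∃ C : ℝ, ∀ᶠ u' in 𝓝 u, ∀ m, Φ (u', m) = 0 → ‖m‖ ≤ C) →
    ∀ u₁ ∈ O, ∀ m₁, Φ (u₁, m₁) = 0 → ∃ (O' : Set E) (μ : E → V), IsOpen O' ∧ u₁ ∈ O' ∧ O' ⊆ O ∧
      μ u₁ = m₁ ∧ ∀ u ∈ O', ContinuousAt μ u ∧ Φ (u, μ u) = 0

/-- DER.  The derivative of the equations of the torsor at a solution.

Proof.  Product rule; the partial derivative in the direction `B` is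
`∑_L ∑_a B (J a) (L a) ∏_{b ≠ a} m₀ (J b) (L b) θ_i(L)`.  Write `B = D m₀` (`D = B n`); the sum
equals `∑_a ∑_l D (J a) l (m₀ • θ)_i(update J a l) = ∑_a ∑_l D (J a) l c_i(update J a l)`, so
`D = 0`. -/
def S_DER : Prop :=
  ∀ (E : Type) [NormedAddCommGroup E] [NormedSpace ℂ E]
    (r k : ℕ) (κ : Type) [Fintype κ] (c : κ → (Fin k → Fin r) → ℂ)
    (θ : E → κ → (Fin k → Fin r) → ℂ) (u₀ : E) (m₀ : Fin r → Fin r → ℂ)
    (n : Matrix (Fin r) (Fin r) ℂ),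
    (∀ i L, DifferentiableAt ℂ (fun v => θ v i L) u₀) →
    act (Matrix.of m₀) (θ u₀) = c → n * Matrix.of m₀ = 1 →
    (∀ B : Matrix (Fin r) (Fin r) ℂ,
      (∀ i (j : Fin k → Fin r), ∑ m : Fin k, ∑ l : Fin r, B (j m) l * c i (update j m l) = 0) →
      B = 0) →
    ∃ L : E × (Fin r → Fin r → ℂ) →L[ℂ] (κ → (Fin k → Fin r) → ℂ),
      HasFDerivAt (fun p : E × (Fin r → Fin r → ℂ) => act (Matrix.of p.2) (θ p.1) - c) L
        (u₀, m₀) ∧ ∀ v, L (0, v) = 0 → v = 0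

/-- LSEC.  Holomorphic local solutions of `m • θ(u) = c`.

Proof.  Apply SEC with `V = Fin r → Fin r → ℂ`, `Φ(u, m) = m • θ(u) - c`, `G` = the subgroup of
`(Matrix (Fin r) (Fin r) ℂ)ˣ` of the `γ` with `γ • c = c` (finite by GRP), `ac γ m = γ * m`
(`act (γ * γ') c = act γ (act γ' c)`).  A solution `m` at `u` is invertible: `z m = 0` (row vector
`z`) gives `∑_J ∏ z_{J_a} c_i(J) = 0`, so `z = 0` by `NC c`.  Two solutions `m, m'` at `u`: `γ = m' m⁻¹`
satisfies `γ • c = c`.  Bound: on the unit sphere of `Fin r → ℂ` the function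
`max_i |∑_L ∏ z_{L_a} θ(u)_i(L)|` is `≥ δ > 0` for `u` near `u₁`, by `NC (θ u₁)` and compactness;
for a row `z` of a solution `m` this gives `δ ‖z‖^k ≤ max |c|`.  Differentiability: LOC and DER,
using the second part of GRP. -/
def S_LSEC : Prop :=
  ∀ (E : Type) [NormedAddCommGroup E] [NormedSpace ℂ E] [FiniteDimensional ℂ E]
    (r k : ℕ) (κ : Type) [Fintype κ] (c : κ → (Fin k → Fin r) → ℂ)
    (θ : E → κ → (Fin k → Fin r) → ℂ) (O : Set E), 1 ≤ k → IsOpen O → NC c →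
    (∀ u ∈ O, ∀ i L, DifferentiableAt ℂ (fun v => θ v i L) u) →
    (∀ u ∈ O, NC (θ u)) →
    (∀ u ∈ O, ∃ m : Matrix (Fin r) (Fin r) ℂ, act m (θ u) = c) →
    ∀ u₁ ∈ O, ∃ (O' : Set E) (μ : E → Fin r → Fin r → ℂ), IsOpen O' ∧ u₁ ∈ O' ∧ O' ⊆ O ∧
      ∀ u ∈ O', DifferentiableAt ℂ μ u ∧ act (Matrix.of (μ u)) (θ u) = c

/-- local sections of the torsor on `X` -/
def LS {E X : Type} [NormedAddCommGroup E] [NormedSpace ℂ E] [FiniteDimensional ℂ E]
    [TopologicalSpace X] [ChartedSpace E X] [IsManifold 𝓘(ℂ, E) ω X] {k r : ℕ} {κ : Type}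
    (τ : κ → X → MM E (Fin k) →ₗ[ℂ] ℂ) (c : κ → (Fin k → Fin r) → ℂ) : Prop :=
  ∀ x₁ : X, ∃ (U : Set X) (A : Fin r → X → E →ₗ[ℂ] ℂ), IsOpen U ∧ x₁ ∈ U ∧
    ∀ x ∈ U, (∀ a, H1at (A a) x ∧ A a x ∈ WS E x) ∧
      ∀ i (J : Fin k → Fin r), τ i x (tpm (fun a => A (J a) x)) = c i J

/-- LSX.  Local sections on `X`. -/
def S_LSX : Prop :=
  ∀ (E : Type) [NormedAddCommGroup E] [NormedSpace ℂ E] [FiniteDimensional ℂ E]
    (X : Type) [TopologicalSpace X] [ChartedSpace E X] [CCM E X], INJ E X →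
    ∀ (k : ℕ) (κ : Type) [Fintype κ] (τ : κ → X → MM E (Fin k) →ₗ[ℂ] ℂ) (x₀ : X), 1 ≤ k →
      (∀ i, HK (τ i)) → NCZ (fun i => τ i x₀) →
      ∃ (r : ℕ) (c : κ → (Fin k → Fin r) → ℂ), NC c ∧
        (∀ x : X, Module.finrank ℂ (WS E x) = r) ∧ LS τ c

/-- COV.  The étale cover defined by the torsor.

Proof.  Let `U i`, `A i : Fin r → X → E →ₗ[ℂ] ℂ` be the local sections at `i : X`.  For `x ∈ U i`
the covectors `A i a x` (`a : Fin r`) are linearly independent (`∑ z_a A_a = 0` gives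
`0 = τ_l x (pwM k (∑ z_a A_a)) = ∑_J ∏ z_{J_a} c_l(J)` for all `l`, so `z = 0` by `NC c`), so they
are a basis of `WS E x`.  For `x ∈ U i ∩ U j` we have `A i a x = ∑_l γ_{al} A j l x` with a unique
matrix `γ = γ_ij(x)`, invertible, and `act γ c = c` (multilinearity).  Let `G` be the subgroup of
`(Matrix (Fin r) (Fin r) ℂ)ˣ` of all `γ` with `act γ c = c`; it is finite by GRP.  `γ_ij` is
locally constant on `U i ∩ U j`: for `g ≠ γ_ij(x)` in `G` there are `a` and `v : E` with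
`A i a x v ≠ ∑_l g_{al} A j l x v`, so by continuity (`H1at`)
`A i a z (toT x z v) ≠ ∑_l g_{al} A j l z (toT x z v)` for `z` near `x`; `G` is finite.
Apply TOPG (`hTOPG`), then `pLH` (TG/LH.lean), and put
`η a y = ∑_l (c_i y)_{al} • pull1 f (A i l) y` for `i = f y` (or any `i` with `f y ∈ U i`), where
`c_i : Y → G` is given by TOPG.  Compare `exists_cover` in TG/Cover.lean (same proof for the roots
of unity); `H1at_pull1`, `dd_surj` are in TG/PB.lean. -/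
def S_COV : Prop :=
  ∀ (E : Type) [NormedAddCommGroup E] [NormedSpace ℂ E] [FiniteDimensional ℂ E]
    (X : Type) [TopologicalSpace X] [ChartedSpace E X] [CCM E X]
    (k : ℕ) (κ : Type) [Fintype κ] (τ : κ → X → MM E (Fin k) →ₗ[ℂ] ℂ) (r : ℕ)
    (c : κ → (Fin k → Fin r) → ℂ), 1 ≤ k → NC c → (∀ x : X, Module.finrank ℂ (WS E x) = r) →
    LS τ c →
    ∃ (Y : Type) (_ : TopologicalSpace Y) (_ : ChartedSpace E Y) (_ : CCM E Y) (f : Y → X),
      Etale E f ∧ ∃ η : Fin r → Y → E →ₗ[ℂ] ℂ, (∀ a, H1 (η a)) ∧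
        ∀ y, ∃ A : Fin r → E →ₗ[ℂ] ℂ, Submodule.span ℂ (range A) = WS E (f y) ∧
          ∀ a, η a y = (A a).comp (dd f y : E →L[ℂ] E).toLinearMap

end MP_d4c35b_ag.TW
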