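import Pool.Agent.Lib.MP_d4c35b_ag.TW.Defs

/-!
Finite-dimensionality of the space of holomorphic covariant tensor fields on a compact complex
manifold.  There is a finite set of points such that a holomorphic field that vanishes at these
points is zero (Cauchy estimates).
-/

set_option autoImplicit false
set_option linter.unusedSectionVars false

open scoped Manifold ContDiff Topology
open Function Set

namespace MP_d4c35b_ag.TW

open MP_d4c35b_ag.TG

namespace pFDAux

variable {E : Type} [NormedAddCommGroup E] [NormedSpace ℂ E] [FiniteDimensional ℂ E]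
variable {X : Type} [TopologicalSpace X] [ChartedSpace E X] [IsManifold 𝓘(ℂ, E) ω X]
variable {ι : Type} [Fintype ι]

/-- a fixed basis of `E` -/
noncomputable abbrev bb (E : Type) [NormedAddCommGroup E] [NormedSpace ℂ E]
    [FiniteDimensional ℂ E] : Module.Basis (Fin (Module.finrank ℂ E)) ℂ E :=
  Module.finBasis ℂ E

/-- coefficients of the field `s` in the chart at `a` -/
noncomputable def hh (s : X → MM E ι) (a : X) (I : ι → Fin (Module.finrank ℂ E)) (x : X) : ℂ :=
  s x (fun i => toT a x (bb E (I i)))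

/-- coefficients of the change of charts -/
noncomputable def cf (a c : X) (I K : ι → Fin (Module.finrank ℂ E)) (x : X) : ℂ :=
  ∏ i, (bb E).coord (K i) (tangentCoordChange 𝓘(ℂ, E) a c x (bb E (I i)))

theorem hh_change [DecidableEq ι] (s : X → MM E ι) {a c x : X} (ha : x ∈ (chartAt E a).source)
    (hc : x ∈ (chartAt E c).source) (I : ι → Fin (Module.finrank ℂ E)) :
    hh s a I x = ∑ K, hh s c K x * cf a c I K x := by
  have h1 : hh s a I x =
      ((s x).compLinearMap (fun _ => (toT c x : E →L[ℂ] E).toLinearMap))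
        (fun i => tangentCoordChange 𝓘(ℂ, E) a c x (bb E (I i))) := by
    unfold hh
    rw [MultilinearMap.compLinearMap_apply]
    congr 1
    funext i
    exact toT_change ha hc _
  rw [h1]
  exact mm_exp_apply (bb E) ((s x).compLinearMap (fun _ => (toT c x : E →L[ℂ] E).toLinearMap))
    LinearMap.id LinearMap.id (fun i => tangentCoordChange 𝓘(ℂ, E) a c x (bb E (I i)))
    (fun i => rfl)

theorem cf_cont {a c x : X} (ha : x ∈ (chartAt E a).source) (hc : x ∈ (chartAt E c).source)
    (I K : ι → Fin (Module.finrank ℂ E)) : ContinuousAt (fun z => cf a c I K z) x := by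
  have h : DA (E := E) (fun z => cf a c I K z) x :=
    da_prod fun i => da_coord (da_tcc ha hc _) _
  exact h.continuousAt

theorem hh_eq_zero {s : X → MM E ι} {a x : X} (ha : x ∈ (chartAt E a).source)
    (h : ∀ I, hh s a I x = 0) : s x = 0 := by
  classical
  ext w
  have h1 := mm_exp_apply (bb E) (s x) (toT a x : E →L[ℂ] E).toLinearMap
    (ofT a x : E →L[ℂ] E).toLinearMap w (fun i => toT_ofT ha _)
  rw [h1]
  refine Finset.sum_eq_zero fun I _ => ?_
  have h2 : s x (fun i => (toT a x : E →L[ℂ] E).toLinearMap (bb E (I i))) = 0 := h I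
  rw [h2, zero_mul]

/-- the coefficients are holomorphic -/
theorem hh_diff {s : X → MM E ι} (hs : HC s) (a : X) (I : ι → Fin (Module.finrank ℂ E)) :
    DifferentiableOn ℂ (fun u => hh s a I ((chartAt E a).symm u)) (chartAt E a).target := by
  have h1 := hs a (fun i => bb E (I i))
  have h2 : MDifferentiableOn 𝓘(ℂ, E) 𝓘(ℂ, E) ((chartAt E a).symm) (chartAt E a).target :=
    mdifferentiableOn_atlas_symm (chart_mem_atlas E a)
  have h3 : MDifferentiableOn 𝓘(ℂ, E) 𝓘(ℂ)
      (fun u => hh s a I ((chartAt E a).symm u)) (chartAt E a).target := by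
    intro u hu
    exact (h1 ((chartAt E a).symm u) ((chartAt E a).map_target hu)).comp u (h2 u hu)
      (fun w hw => (chartAt E a).map_target hw)
  exact mdifferentiableOn_iff_differentiableOn.mp h3

/-- the compact set of the points at distance `≤ ρ` from `a` in the chart at `a` -/
def KK (E : Type) [NormedAddCommGroup E] [NormedSpace ℂ E] {X : Type} [TopologicalSpace X]
    [ChartedSpace E X] (a : X) (ρ : ℝ) : Set X :=
  (chartAt E a).symm '' Metric.closedBall (chartAt E a a) ρ

theorem KK_compact {a : X} {ρ : ℝ}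
    (h : Metric.closedBall (chartAt E a a) ρ ⊆ (chartAt E a).target) : IsCompact (KK E a ρ) := by
  have : ProperSpace E := FiniteDimensional.proper ℂ E
  exact (isCompact_closedBall _ _).image_of_continuousOn
    ((chartAt E a).continuousOn_symm.mono h)

theorem KK_src {a : X} {ρ : ℝ} (h : Metric.closedBall (chartAt E a a) ρ ⊆ (chartAt E a).target)
    {x : X} (hx : x ∈ KK E a ρ) : x ∈ (chartAt E a).source := by
  obtain ⟨u, hu, rfl⟩ := hx
  exact (chartAt E a).map_target (h hu)

theorem hh_cont {s : X → MM E ι} (hs : HC s) {a : X} (I : ι → Fin (Module.finrank ℂ E)) :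
    ContinuousOn (fun x => hh s a I x) (chartAt E a).source :=
  (hs a (fun i => bb E (I i))).continuousOn

theorem cf_bound [DecidableEq ι] [T2Space X] {a c : X} {ρ σ : ℝ}
    (ha : Metric.closedBall (chartAt E a a) ρ ⊆ (chartAt E a).target)
    (hc : Metric.closedBall (chartAt E c c) σ ⊆ (chartAt E c).target) :
    ∃ C : ℝ, ∀ x ∈ KK E a ρ, x ∈ KK E c σ → ∀ I : ι → Fin (Module.finrank ℂ E),
      ∑ K, ‖cf a c I K x‖ ≤ C := by
  have hK : IsCompact (KK E a ρ ∩ KK E c σ) := (KK_compact ha).inter (KK_compact hc)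
  have hcont : ContinuousOn (fun x => ∑ I : ι → Fin (Module.finrank ℂ E),
      ∑ K : ι → Fin (Module.finrank ℂ E), ‖cf a c I K x‖) (KK E a ρ ∩ KK E c σ) := by
    refine continuousOn_finsetSum _ fun I _ => continuousOn_finsetSum _ fun K _ => ?_
    intro x hx
    exact ((cf_cont (KK_src ha hx.1) (KK_src hc hx.2) I K).norm).continuousWithinAt
  obtain ⟨C, hC⟩ := hK.exists_bound_of_continuousOn hcont
  refine ⟨C, fun x hx1 hx2 I => ?_⟩
  have h1 := hC x ⟨hx1, hx2⟩
  rw [Real.norm_of_nonneg (Finset.sum_nonneg fun I _ => Finset.sum_nonneg fun K _ =>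
    norm_nonneg _)] at h1
  exact (Finset.single_le_sum (f := fun I : ι → Fin (Module.finrank ℂ E) =>
    ∑ K : ι → Fin (Module.finrank ℂ E), ‖cf a c I K x‖)
    (fun I _ => Finset.sum_nonneg fun K _ => norm_nonneg _) (Finset.mem_univ I)).trans h1

/-- a finite set of points that determines all holomorphic fields -/
theorem net [T2Space X] [CompactSpace X] :
    ∃ T : Set X, T.Finite ∧ ∀ s : X → MM E ι, HC s → (∀ t ∈ T, s t = 0) → s = 0 := by
  classical
  have : ProperSpace E := FiniteDimensional.proper ℂ E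
  have hr : ∀ a : X, ∃ r : ℝ, 0 < r ∧
      Metric.closedBall (chartAt E a a) (2 * r) ⊆ (chartAt E a).target := by
    intro a
    obtain ⟨ε, hε, h⟩ := Metric.nhds_basis_closedBall.mem_iff.1
      ((chartAt E a).open_target.mem_nhds ((chartAt E a).map_source (mem_chart_source E a)))
    exact ⟨ε / 2, by positivity, by rwa [mul_div_cancel₀ ε two_ne_zero]⟩
  choose r hr0 hr2 using hr
  have hr1 : ∀ a, Metric.closedBall (chartAt E a a) (r a) ⊆ (chartAt E a).target := fun a =>
    (Metric.closedBall_subset_closedBall (by linarith [hr0 a])).trans (hr2 a)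
  -- the cover
  have hU : ∀ a : X, (chartAt E a).source ∩ (chartAt E a) ⁻¹' (Metric.ball (chartAt E a a) (r a)) ∈
      𝓝 a := fun a => ((chartAt E a).isOpen_inter_preimage Metric.isOpen_ball).mem_nhds
    ⟨mem_chart_source E a, Metric.mem_ball_self (hr0 a)⟩
  obtain ⟨A, hA⟩ := CompactSpace.elim_nhds_subcover _ hU
  have hcov : ∀ x : X, ∃ c ∈ A, x ∈ KK E c (r c) := by
    intro x
    have hx : x ∈ ⋃ a ∈ A, ((chartAt E a).source ∩
        (chartAt E a) ⁻¹' (Metric.ball (chartAt E a a) (r a))) := by rw [hA]; trivial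
    simp only [mem_iUnion] at hx
    obtain ⟨c, hc, h1, h2⟩ := hx
    exact ⟨c, hc, chartAt E c x, Metric.ball_subset_closedBall h2, (chartAt E c).left_inv h1⟩
  -- the constants
  have hcb : ∀ p : X × X, ∃ C : ℝ, ∀ x ∈ KK E p.1 (2 * r p.1), x ∈ KK E p.2 (r p.2) →
      ∀ I : ι → Fin (Module.finrank ℂ E), ∑ K, ‖cf p.1 p.2 I K x‖ ≤ C :=
    fun p => cf_bound (hr2 p.1) (hr1 p.2)
  choose Cp hCp using hcb
  obtain ⟨C, hC⟩ : ∃ C : ℝ, C = 1 + ∑ p ∈ A ×ˢ A, |Cp p| := ⟨_, rfl⟩
  have hC1 : 1 ≤ C := by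
    rw [hC]
    linarith [Finset.sum_nonneg (s := A ×ˢ A) fun p _ => abs_nonneg (Cp p)]
  have hCa : ∀ a ∈ A, ∀ c ∈ A, Cp (a, c) ≤ C := by
    intro a ha c hc
    have h1 := Finset.single_le_sum (f := fun p => |Cp p|) (fun p _ => abs_nonneg (Cp p))
      (Finset.mk_mem_product ha hc)
    have h2 := le_abs_self (Cp (a, c))
    rw [hC]
    linarith
  -- the nets
  have hnet : ∀ a : X, ∃ T : Set E, T ⊆ Metric.closedBall (chartAt E a a) (r a) ∧ T.Finite ∧
      Metric.closedBall (chartAt E a a) (r a) ⊆ ⋃ t ∈ T, Metric.ball t (r a / (3 * C)) := fun a =>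
    (isCompact_closedBall _ _).finite_cover_balls (div_pos (hr0 a) (by linarith))
  choose T hT1 hT2 hT3 using hnet
  refine ⟨⋃ a ∈ A, (chartAt E a).symm '' T a,
    A.finite_toSet.biUnion fun a _ => (hT2 a).image _, fun s hs hst => ?_⟩
  -- it is enough to show that all coefficients vanish
  suffices hz : ∀ a ∈ A, ∀ I, ∀ x ∈ KK E a (r a), hh s a I x = 0 by
    funext x
    obtain ⟨c, hc, hx⟩ := hcov x
    exact hh_eq_zero (KK_src (hr1 c) hx) fun I => hz c hc I x hx
  by_contra hne
  push Not at hne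
  obtain ⟨a₀, ha₀, I₀, x₀, hx₀, h0⟩ := hne
  -- the maximum
  have hmax : ∀ q : X × (ι → Fin (Module.finrank ℂ E)), ∃ y ∈ KK E q.1 (r q.1),
      ∀ x ∈ KK E q.1 (r q.1), ‖hh s q.1 q.2 x‖ ≤ ‖hh s q.1 q.2 y‖ := by
    intro q
    obtain ⟨y, hy, h⟩ := (KK_compact (hr1 q.1)).exists_isMaxOn
      ⟨q.1, chartAt E q.1 q.1, Metric.mem_closedBall_self (hr0 q.1).le,
        (chartAt E q.1).left_inv (mem_chart_source E q.1)⟩
      (((hh_cont hs q.2).mono fun x hx => KK_src (hr1 q.1) hx).norm)
    exact ⟨y, hy, fun x hx => h hx⟩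
  choose y hy hmy using hmax
  obtain ⟨q, hq, hqm⟩ := Finset.exists_max_image (A ×ˢ (Finset.univ :
    Finset (ι → Fin (Module.finrank ℂ E)))) (fun q => ‖hh s q.1 q.2 (y q)‖)
    ⟨(a₀, I₀), Finset.mk_mem_product ha₀ (Finset.mem_univ _)⟩
  obtain ⟨M, hM⟩ : ∃ M : ℝ, M = ‖hh s q.1 q.2 (y q)‖ := ⟨_, rfl⟩
  have hMb : ∀ a ∈ A, ∀ I, ∀ x ∈ KK E a (r a), ‖hh s a I x‖ ≤ M := by
    intro a ha I x hx
    rw [hM]
    exact (hmy (a, I) x hx).trans (hqm (a, I) (Finset.mk_mem_product ha (Finset.mem_univ _)))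
  have hM0 : 0 < M := (norm_pos_iff.2 h0).trans_le (hMb a₀ ha₀ I₀ x₀ hx₀)
  have hqA : q.1 ∈ A := (Finset.mem_product.1 hq).1
  -- the bound on the bigger ball
  have hbig : ∀ x ∈ KK E q.1 (2 * r q.1), ‖hh s q.1 q.2 x‖ ≤ C * M := by
    intro x hx
    obtain ⟨c, hc, hxc⟩ := hcov x
    rw [hh_change s (KK_src (hr2 q.1) hx) (KK_src (hr1 c) hxc)]
    calc ‖∑ K, hh s c K x * cf q.1 c q.2 K x‖
        ≤ ∑ K, ‖hh s c K x * cf q.1 c q.2 K x‖ := norm_sum_le _ _
      _ ≤ ∑ K, M * ‖cf q.1 c q.2 K x‖ := Finset.sum_le_sum fun K _ => by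
          rw [norm_mul]
          exact mul_le_mul_of_nonneg_right (hMb c hc K x hxc) (norm_nonneg _)
      _ = M * ∑ K, ‖cf q.1 c q.2 K x‖ := by rw [Finset.mul_sum]
      _ ≤ M * C := mul_le_mul_of_nonneg_left
          ((hCp (q.1, c) x hx hxc q.2).trans (hCa q.1 hqA c hc)) hM0.le
      _ = C * M := mul_comm _ _
  -- the Schwarz lemma
  obtain ⟨u, hu, huy⟩ := hy q
  obtain ⟨t, ht, hut⟩ : ∃ t ∈ T q.1, dist u t < r q.1 / (3 * C) := by
    have := hT3 q.1 hu
    simp only [mem_iUnion] at this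
    obtain ⟨t, ht, h⟩ := this
    exact ⟨t, ht, h⟩
  have htb := hT1 q.1 ht
  have hsub : Metric.ball t (r q.1) ⊆ Metric.closedBall (chartAt E q.1 q.1) (2 * r q.1) := by
    intro z hz
    have h1 := Metric.mem_ball.1 hz
    have h2 := Metric.mem_closedBall.1 htb
    have h3 := dist_triangle z t (chartAt E q.1 q.1)
    exact Metric.mem_closedBall.2 (by linarith)
  have hg0 : hh s q.1 q.2 ((chartAt E q.1).symm t) = 0 := by
    unfold hh
    rw [hst _ (mem_biUnion hqA ⟨t, ht, rfl⟩)]
    rfl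
  have hR : r q.1 / (3 * C) < r q.1 := by
    rw [div_lt_iff₀ (by linarith)]
    nlinarith [hr0 q.1]
  have hsch := Complex.dist_le_div_mul_dist_of_mapsTo_ball (R₂ := C * M)
    ((hh_diff hs q.1 q.2).mono (hsub.trans (hr2 q.1)))
    (fun z hz => by
      simp only [Metric.mem_closedBall]
      rw [hg0, dist_zero_right]
      exact hbig _ ⟨z, hsub hz, rfl⟩)
    (Metric.mem_ball.2 (hut.trans hR))
  rw [hg0, dist_zero_right, huy, ← hM] at hsch
  have h5 : C * M / r q.1 * dist u t ≤ C * M / r q.1 * (r q.1 / (3 * C)) :=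
    mul_le_mul_of_nonneg_left hut.le (div_nonneg (by positivity) (hr0 q.1).le)
  have h6 : C * M / r q.1 * (r q.1 / (3 * C)) = M / 3 := by
    have := (hr0 q.1).ne'
    have : C ≠ 0 := by linarith
    field_simp
  linarith

end pFDAux

theorem pFD : S_FD := by
  intro E _ _ _ X _ _ _ ι _
  classical
  obtain ⟨T, hTf, hT⟩ := pFDAux.net (E := E) (X := X) (ι := ι)
  have : Finite T := hTf
  let Φ : FC E X ι →ₗ[ℂ] (T → MM E ι) :=
    { toFun := fun s t => (s : X → MM E ι) t
      map_add' := fun s s' => rfl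
      map_smul' := fun c s => rfl }
  refine Module.Finite.of_injective Φ ?_
  rw [injective_iff_map_eq_zero]
  intro s h
  refine Subtype.ext ?_
  exact hT s s.2 fun t ht => congrFun h ⟨t, ht⟩

end MP_d4c35b_ag.TW
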