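import Pool.Agent.Lib.MP_d4c35b_ag.TW.Defs

set_option autoImplicit false
set_option linter.unusedSectionVars false

open scoped Manifold ContDiff Topology
open Function Set

namespace MP_d4c35b_ag.TW

open MP_d4c35b_ag.TG

section lin

variable {E : Type} [NormedAddCommGroup E] [NormedSpace ℂ E]

/-- product of multilinear forms with slots `ι m` -/
noncomputable def prodM {M : Type} [Fintype M] {ι : M → Type} (f : ∀ m, MM E (ι m)) :
    MM E (Σ m, ι m) where
  toFun := fun v => ∏ m, f m (fun i => v ⟨m, i⟩)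
  map_update_add' := by
    classical
    intro _ v ij a b
    obtain ⟨m0, j0⟩ := ij
    have h2 : ∀ c : E, (∏ m, f m (fun i => Function.update v ⟨m0, j0⟩ c ⟨m, i⟩)) =
        f m0 (Function.update (fun i => v ⟨m0, i⟩) j0 c) *
          ∏ m ∈ Finset.univ.erase m0, f m (fun i => v ⟨m, i⟩) := by
      intro c
      rw [← Finset.mul_prod_erase Finset.univ _ (Finset.mem_univ m0)]
      congr 1
      · congr 1
        funext i
        by_cases hi : i = j0
        · subst hi; simp
        · rw [Function.update_of_ne (by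
            intro h
            exact hi (eq_of_heq (Sigma.mk.inj_iff.mp h).2)), Function.update_of_ne hi]
      · refine Finset.prod_congr rfl fun m hm => ?_
        congr 1
        funext i
        rw [Function.update_of_ne]
        intro h
        exact (Finset.ne_of_mem_erase hm) (Sigma.mk.inj_iff.mp h).1
    have h4 : ∀ c : E, (∏ m, f m (fun i => Function.update v ⟨m0, j0⟩ c ⟨m, i⟩)) =
        f m0 (Function.update (fun i => v ⟨m0, i⟩) j0 c) *
          ∏ m ∈ Finset.univ.erase m0, f m (fun i => v ⟨m, i⟩) := by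
      intro c
      convert h2 c
    rw [h4, h4, h4, MultilinearMap.map_update_add, add_mul]
  map_update_smul' := by
    classical
    intro _ v ij a b
    obtain ⟨m0, j0⟩ := ij
    have h2 : ∀ c : E, (∏ m, f m (fun i => Function.update v ⟨m0, j0⟩ c ⟨m, i⟩)) =
        f m0 (Function.update (fun i => v ⟨m0, i⟩) j0 c) *
          ∏ m ∈ Finset.univ.erase m0, f m (fun i => v ⟨m, i⟩) := by
      intro c
      rw [← Finset.mul_prod_erase Finset.univ _ (Finset.mem_univ m0)]
      congr 1
      · congr 1
        funext i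
        by_cases hi : i = j0
        · subst hi; simp
        · rw [Function.update_of_ne (by
            intro h
            exact hi (eq_of_heq (Sigma.mk.inj_iff.mp h).2)), Function.update_of_ne hi]
      · refine Finset.prod_congr rfl fun m hm => ?_
        congr 1
        funext i
        rw [Function.update_of_ne]
        intro h
        exact (Finset.ne_of_mem_erase hm) (Sigma.mk.inj_iff.mp h).1
    have h4 : ∀ c : E, (∏ m, f m (fun i => Function.update v ⟨m0, j0⟩ c ⟨m, i⟩)) =
        f m0 (Function.update (fun i => v ⟨m0, i⟩) j0 c) *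
          ∏ m ∈ Finset.univ.erase m0, f m (fun i => v ⟨m, i⟩) := by
      intro c
      convert h2 c
    rw [h4, h4, MultilinearMap.map_update_smul, smul_mul_assoc]

theorem prodM_apply {M : Type} [Fintype M] {ι : M → Type} (f : ∀ m, MM E (ι m))
    (v : (Σ m, ι m) → E) : prodM f v = ∏ m, f m (fun i => v ⟨m, i⟩) := rfl

theorem cv_apply {κ : Type} (m : MM E (Option κ)) (b : κ → E) (u : E) :
    cv m b u = m (fun o => o.elim u b) := by
  classical
  have h : cv m b u = m (Function.update (fun o : Option κ => o.elim 0 b) none u) := by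
    unfold cv
    rfl
  rw [h]
  congr 1
  funext o
  cases o <;> simp

end lin

variable {E : Type} [NormedAddCommGroup E] [NormedSpace ℂ E] [FiniteDimensional ℂ E]
variable {X : Type} [TopologicalSpace X] [ChartedSpace E X] [IsManifold 𝓘(ℂ, E) ω X]

theorem HC_prodM {M : Type} [Fintype M] {ι : M → Type} [∀ m, Fintype (ι m)]
    {s : ∀ m, X → MM E (ι m)} (hs : ∀ m, HC (s m)) : HC (fun x => prodM (fun m => s m x)) := by
  rw [HC_iff]
  intro y v
  simp only [prodM_apply]
  exact da_prod fun m => (HC_iff.mp (hs m) y) (fun i => v ⟨m, i⟩)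

section fam

variable {r : ℕ} {κ : Fin r → Type} [∀ j, Fintype (κ j)] (s : ∀ j, X → MM E (Option (κ j)))

/-- the covector at `x` given by the parameters `b` -/
noncomputable def xi (x : X) (b : (Σ j, κ j) → E) : E →ₗ[ℂ] ℂ :=
  ∑ j, cv (s j x) (fun i => b ⟨j, i⟩)

theorem xi_apply (x : X) (b : (Σ j, κ j) → E) (u : E) :
    xi s x b u = ∑ j, s j x (fun o => o.elim u (fun i => b ⟨j, i⟩)) := by
  simp [xi, LinearMap.sum_apply, cv_apply]

theorem xi_mem {s : ∀ j, X → MM E (Option (κ j))} (hs : ∀ j, HC (s j)) (x : X)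
    (b : (Σ j, κ j) → E) : xi s x b ∈ WS E x :=
  Submodule.sum_mem _ fun j _ => Submodule.subset_span
    ⟨κ j, inferInstance, s j, _, hs j, rfl⟩

theorem xi_surj [∀ j, Nonempty (κ j)] {s : ∀ j, X → MM E (Option (κ j))} {x : X}
    (h : ∃ b : ∀ j, κ j → E, LinearIndependent ℂ (fun j => cv (s j x) (b j)) ∧
      Submodule.span ℂ (range fun j => cv (s j x) (b j)) = WS E x)
    {ζ : E →ₗ[ℂ] ℂ} (hζ : ζ ∈ WS E x) : ∃ b, xi s x b = ζ := by
  classical
  obtain ⟨b, -, hb⟩ := h
  rw [← hb, Submodule.mem_span_range_iff_exists_fun] at hζ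
  obtain ⟨c, hc⟩ := hζ
  refine ⟨fun p => Function.update (b p.1) (Classical.arbitrary (κ p.1))
    (c p.1 • b p.1 (Classical.arbitrary (κ p.1))) p.2, ?_⟩
  rw [← hc]
  unfold xi
  refine Finset.sum_congr rfl fun j _ => ?_
  ext u
  rw [LinearMap.smul_apply, cv_apply, cv_apply]
  have h1 : (fun o : Option (κ j) => o.elim u (fun i => Function.update (b j)
      (Classical.arbitrary (κ j)) (c j • b j (Classical.arbitrary (κ j))) i)) =
      Function.update (fun o : Option (κ j) => o.elim u (b j)) (some (Classical.arbitrary (κ j)))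
        (c j • (fun o : Option (κ j) => o.elim u (b j)) (some (Classical.arbitrary (κ j)))) := by
    funext o
    cases o with
    | none => simp
    | some i =>
      by_cases hi : i = Classical.arbitrary (κ j)
      · subst hi; simp
      · rw [Function.update_of_ne (by simpa using hi)]
        simp [Function.update_of_ne hi]
  rw [h1, MultilinearMap.map_update_smul, Function.update_eq_self]

theorem PF_xi (hPFC : S_PFC) {s : ∀ j, X → MM E (Option (κ j))} (hs : ∀ j, HC (s j)) {n : Type}
    (α : n) (β : (Σ j, κ j) → n) :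
    PF (fun x (v : n → E) => xi s x (fun p => v (β p)) (v α)) := by
  obtain ⟨h1, -, -, -, h5, -, -⟩ := hPFC E X n
  simp only [xi_apply]
  refine h5 (Fin r) (fun j x v => s j x (fun o => o.elim (v α) (fun i => v (β ⟨j, i⟩)))) ?_
  intro j
  have h := h1 (Option (κ j)) (s j) (fun o => o.elim α (fun i => β ⟨j, i⟩)) (hs j)
  convert h using 4
  rename_i x v
  funext o
  cases o <;> rfl

theorem PF_tau (hPFC : S_PFC) {s : ∀ j, X → MM E (Option (κ j))} (hs : ∀ j, HC (s j)) {n : Type}
    {k : ℕ} {τ : X → MM E (Fin k) →ₗ[ℂ] ℂ} (hτ : HK τ) (β : Fin k → (Σ j, κ j) → n) :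
    PF (fun x (v : n → E) => τ x (tpm (fun m => xi s x (fun p => v (β m p))))) := by
  classical
  obtain ⟨h1, -, -, -, h5, -, -⟩ := hPFC E X n
  -- the product tensor
  set e : ∀ J : Fin k → Fin r, (Σ m, Option (κ (J m))) ≃ (Σ m, κ (J m)) ⊕ Fin k := fun J =>
    { toFun := fun p => match p with
        | ⟨m, none⟩ => Sum.inr m
        | ⟨m, some i⟩ => Sum.inl ⟨m, i⟩
      invFun := fun q => match q with
        | Sum.inr m => ⟨m, none⟩
        | Sum.inl ⟨m, i⟩ => ⟨m, some i⟩
      left_inv := by rintro ⟨m, _ | i⟩ <;> rfl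
      right_inv := by rintro (⟨m, i⟩ | m) <;> rfl } with he
  set T : ∀ J : Fin k → Fin r, X → MM E (Σ m, κ (J m)) := fun J =>
    ctr (reix (e J) (fun x => prodM (fun m => s (J m) x))) τ with hT
  have hTC : ∀ J, HC (T J) := fun J =>
    HC_ctr (HC_reix (e J) (HC_prodM (fun m => hs (J m)))) hτ
  have hTv : ∀ (J : Fin k → Fin r) (x : X) (w : (Σ m, κ (J m)) → E),
      T J x w = τ x (tpm (fun m => cv (s (J m) x) (fun i => w ⟨m, i⟩))) := by
    intro J x w
    simp only [hT]
    rw [ctr_apply]
    congr 1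
    ext u
    rw [MultilinearMap.currySum_apply', reix_apply, prodM_apply, tpm_apply]
    refine Finset.prod_congr rfl fun m _ => ?_
    rw [cv_apply]
    congr 1
    funext o
    cases o <;> rfl
  have hmain : (fun x (v : n → E) => τ x (tpm (fun m => xi s x (fun p => v (β m p))))) =
      fun x v => ∑ J : Fin k → Fin r, T J x (fun p => v (β p.1 ⟨J p.1, p.2⟩)) := by
    funext x v
    have h2 : tpm (fun m => xi s x (fun p => v (β m p))) =
        ∑ J : Fin k → Fin r, tpm (fun m => cv (s (J m) x) (fun i => v (β m ⟨J m, i⟩))) := by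
      ext u
      simp only [tpm_apply, sum_apply, xi, LinearMap.sum_apply]
      rw [Finset.prod_univ_sum]
      simp
    rw [h2, map_sum]
    refine Finset.sum_congr rfl fun J _ => ?_
    rw [hTv]
  rw [hmain]
  exact h5 (Fin k → Fin r) (fun J x v => T J x (fun p => v (β p.1 ⟨J p.1, p.2⟩)))
    (fun J => h1 (Σ m, κ (J m)) (T J) (fun p => β p.1 ⟨J p.1, p.2⟩) (hTC J))

end fam

end MP_d4c35b_ag.TW
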