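import Pool.Agent.Lib.MP_d4c35b_ag.TW.Ncz
import Pool.Agent.Lib.MP_d4c35b_ag.TG.Theta

set_option autoImplicit false
set_option linter.unusedSectionVars false

open scoped Manifold ContDiff Topology
open Function Set

namespace MP_d4c35b_ag.TW

open MP_d4c35b_ag.TG

variable {E : Type} [NormedAddCommGroup E] [NormedSpace ℂ E] [FiniteDimensional ℂ E]
variable {X : Type} [TopologicalSpace X] [ChartedSpace E X] [IsManifold 𝓘(ℂ, E) ω X]

theorem OV_reix {N : ℕ} {ι ι' : Type} (e : ι ≃ ι') {s : X → MM E ι} {y : X} (h : OV N s y) :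
    OV N (reix e s) y := by
  intro v
  exact h (fun i => v (e i))

theorem OV_ctr {N : ℕ} {ι κ : Type} [Fintype ι] [Fintype κ] [DecidableEq ι] [DecidableEq κ]
    {s : X → MM E (ι ⊕ κ)} {τ : X → MM E κ →ₗ[ℂ] ℂ} {y : X} (h : OV N s y) (hτ : HK τ) :
    OV N (ctr s τ) y := by
  intro v
  set b := Module.finBasis ℂ E with hb
  have h1 : (fun x => ctr s τ x (fun i => toT y x (v i))) =ᶠ[𝓝 y] fun x =>
      ∑ I : κ → Fin (Module.finrank ℂ E),
        s x (fun i => toT y x (Sum.elim v (fun j => b (I j)) i)) *
        τ x ((EI b I).compLinearMap (fun _ => (ofT y x : E →L[ℂ] E).toLinearMap)) := by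
    filter_upwards [(chartAt E y).open_source.mem_nhds (mem_chart_source E y)] with x hx
    rw [ctr_apply]
    have hexp := mm_exp b ((s x).currySum (fun i => toT y x (v i)))
      (toT y x : E →L[ℂ] E).toLinearMap (ofT y x : E →L[ℂ] E).toLinearMap
      (fun u => toT_ofT hx u)
    rw [hexp, map_sum]
    refine Finset.sum_congr rfl fun I _ => ?_
    rw [map_smul, smul_eq_mul]
    congr 1
    rw [MultilinearMap.currySum_apply']
    congr 1
    funext i
    cases i <;> rfl
  have h5 : (fun x => ∑ I : κ → Fin (Module.finrank ℂ E),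
        s x (fun i => toT y x (Sum.elim v (fun j => b (I j)) i)) *
        τ x ((EI b I).compLinearMap (fun _ => (ofT y x : E →L[ℂ] E).toLinearMap))) =O[𝓝 y]
      fun x => ‖chartAt E y x - chartAt E y y‖ ^ N := by
    refine Asymptotics.IsBigO.fun_sum (s := Finset.univ) (A := fun (I : κ → Fin (Module.finrank ℂ E)) x =>
      s x (fun i => toT y x (Sum.elim v (fun j => b (I j)) i)) *
        τ x ((EI b I).compLinearMap (fun _ => (ofT y x : E →L[ℂ] E).toLinearMap))) ?_
    intro I _
    have h2 := h (Sum.elim v (fun j => b (I j)))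
    have h3 : (fun x => τ x ((EI b I).compLinearMap
        (fun _ => (ofT y x : E →L[ℂ] E).toLinearMap))) =O[𝓝 y] fun _ => (1 : ℝ) :=
      ((HK_iff.mp hτ y) (EI b I)).continuousAt.isBigO_one ℝ
    have h4 := h2.mul h3
    simpa using h4
  exact h5.congr' h1.symm (Filter.EventuallyEq.refl _ _)

theorem OV_one {ι : Type} [Fintype ι] {s : X → MM E ι} (hs : HC s) {y : X} (h : s y = 0) :
    OV 1 s y := by
  intro v
  have h1 := (HC_iff.mp hs y) v
  have h2 : DifferentiableAt ℂ
      ((fun x => s x (fun i => toT y x (v i))) ∘ (chartAt E y).symm) (chartAt E y y) := by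
    have h3 : MDifferentiableAt 𝓘(ℂ, E) 𝓘(ℂ, E) (chartAt E y).symm (chartAt E y y) :=
      (mdifferentiableOn_atlas_symm (chart_mem_atlas E y) (chartAt E y y)
        ((chartAt E y).map_source (mem_chart_source E y))).mdifferentiableAt
        ((chartAt E y).open_target.mem_nhds ((chartAt E y).map_source (mem_chart_source E y)))
    have h1' : DA (E := E) (fun x => s x (fun i => toT y x (v i)))
        ((chartAt E y).symm (chartAt E y y)) := by
      rw [(chartAt E y).left_inv (mem_chart_source E y)]; exact h1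
    exact mdifferentiableAt_iff_differentiableAt.mp (h1'.comp (chartAt E y y) h3)
  have h4 := h2.hasFDerivAt.isBigO_sub
  have hv0 : ((fun x => s x (fun i => toT y x (v i))) ∘ (chartAt E y).symm) (chartAt E y y) = 0 := by
    simp [h]
  rw [hv0] at h4
  simp only [sub_zero] at h4
  have h5 : Filter.Tendsto (chartAt E y) (𝓝 y) (𝓝 (chartAt E y y)) :=
    (chartAt E y).continuousAt (mem_chart_source E y)
  have h6 := h4.comp_tendsto h5
  have h7 : ((fun x => s x (fun i => toT y x (v i))) ∘ (chartAt E y).symm) ∘ (chartAt E y)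
      =ᶠ[𝓝 y] fun x => s x (fun i => toT y x (v i)) := by
    filter_upwards [(chartAt E y).open_source.mem_nhds (mem_chart_source E y)] with x hx
    simp only [comp_apply]
    rw [(chartAt E y).left_inv hx]
  refine (h6.congr' h7 (Filter.EventuallyEq.refl _ _)).trans ?_
  refine Asymptotics.IsBigO.of_norm_right ?_
  simp only [comp_def, pow_one]
  exact Asymptotics.isBigO_refl _ _ |>.norm_right |>.trans (by
    refine Asymptotics.IsBigO.of_bound 1 (Filter.Eventually.of_forall fun x => ?_)
    simp)

theorem OV_pow {ι : Type} {s : X → MM E ι} {y : X} (h : OV 1 s y) (N : ℕ) :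
    OV N (fun x => powM N (s x)) y := by
  intro v
  simp only [powM_apply]
  have h1 : ∀ i : Fin N, (fun x => s x (fun j => toT y x (v (i, j)))) =O[𝓝 y]
      fun x => ‖chartAt E y x - chartAt E y y‖ := by
    intro i
    simpa using h (fun j => v (i, j))
  have h2 := Asymptotics.IsBigO.finsetProd (s := Finset.univ) (l := 𝓝 y)
    (f := fun (i : Fin N) x => s x (fun j => toT y x (v (i, j))))
    (g := fun (_ : Fin N) x => ‖chartAt E y x - chartAt E y y‖) (fun i _ => h1 i)
  simpa using h2

theorem powM_ne {ι : Type} {m : MM E ι} (h : m ≠ 0) (N : ℕ) : powM N m ≠ 0 := by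
  obtain ⟨v, hv⟩ : ∃ v, m v ≠ 0 := by
    by_contra hcon
    push Not at hcon
    exact h (MultilinearMap.ext hcon)
  intro h1
  have h2 := congrArg (fun f => f (fun ij : Fin N × ι => v ij.2)) h1
  have h3 : powM N m (fun ij => v ij.2) = 0 := h2
  rw [powM_apply] at h3
  simp only [Finset.prod_const, Finset.card_univ, Fintype.card_fin] at h3
  exact pow_ne_zero N hv h3

def S_INJ : Prop :=
  ∀ (E : Type) [NormedAddCommGroup E] [NormedSpace ℂ E] [FiniteDimensional ℂ E]
    (X : Type) [TopologicalSpace X] [ChartedSpace E X] [CCM E X] (k : ℕ) (κ : Type) [Fintype κ]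
    (τ : κ → X → MM E (Fin k) →ₗ[ℂ] ℂ) (x₀ : X), 1 ≤ k → (∀ i, HK (τ i)) →
    NCZ (fun i => τ i x₀) → INJ E X

theorem pINJ (hORD : S_ORD) (hKL : S_KL) : S_INJ := by
  classical
  intro E _ _ _ X _ _ _ k κ _ τ x₀ hk hτ h0 ι₀ _ s hs y hy
  by_contra hne
  -- a good point
  obtain ⟨x₁, hx₁, hsx⟩ : ∃ x₁, NCZ (fun i => τ i x₁) ∧ s x₁ ≠ 0 := by
    by_contra hcon
    push Not at hcon
    apply hne
    refine HC_ident hs (x₁ := x₀) ?_
    filter_upwards [ncz_nhds hτ h0] with x hx
    exact hcon x hx
  obtain ⟨J, hJ⟩ := hKL E k κ (fun i => τ i x₁) hk hx₁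
  choose Nj hNj using fun j : ℕ => hORD E X y (Fin j)
  set N := ∑ j ∈ Finset.range J, Nj j with hN
  have claim : ∀ (m : ℕ) (ι : Type) [Fintype ι] [DecidableEq ι], Fintype.card ι = m →
      ∀ c : X → MM E ι, HC c → c x₁ ≠ 0 → ¬ OV N c y := by
    intro m
    induction m using Nat.strong_induction_on with
    | _ m ih =>
      intro ι _ _ hcard c hc hcx hov
      by_cases hm : m < J
      · -- bounded degree
        set e : ι ≃ Fin m := (Fintype.equivFinOfCardEq hcard) with he
        have h1 : OV (Nj m) (reix e c) y := by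
          have h2 := OV_reix e hov
          intro v
          refine (h2 v).trans ?_
          have h3 : Nj m ≤ N := by
            rw [hN]
            exact Finset.single_le_sum (f := Nj) (fun i _ => Nat.zero_le _)
              (Finset.mem_range.mpr hm)
          refine Asymptotics.IsBigO.of_bound 1 ?_
          have h4 : ∀ᶠ x in 𝓝 y, ‖chartAt E y x - chartAt E y y‖ < 1 := by
            have h5 : ContinuousAt (fun x => ‖chartAt E y x - chartAt E y y‖) y :=
              (((chartAt E y).continuousAt (mem_chart_source E y)).sub continuousAt_const).norm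
            refine h5.eventually_lt continuousAt_const ?_
            simp
          filter_upwards [h4] with x hx
          rw [norm_pow, norm_pow, norm_norm, one_mul]
          exact pow_le_pow_of_le_one (norm_nonneg _) hx.le h3
        have h6 := hNj m (reix e c) (HC_reix e hc) h1
        apply hcx
        ext v
        have h7 := congrArg (fun f => f (v ∘ e.symm)) (congrFun h6 x₁)
        have h8 : c x₁ (fun i => (v ∘ e.symm) (e i)) = 0 := h7
        have h9 : (fun i => (v ∘ e.symm) (e i)) = v := by
          funext i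
          exact congrArg v (e.symm_apply_apply i)
        rw [h9] at h8
        exact h8
      · obtain ⟨i, ι', _, _, e, hne'⟩ := hJ ι (by rw [hcard]; omega) (c x₁) hcx
        have hcard' : Fintype.card ι' < m := by
          have h1 := Fintype.card_congr e
          rw [Fintype.card_sum, Fintype.card_fin, hcard] at h1
          omega
        exact ih (Fintype.card ι') hcard' ι' rfl (ctr (reix e c) (τ i))
          (HC_ctr (HC_reix e hc) (hτ i)) hne' (OV_ctr (OV_reix e hov) (hτ i))
  exact claim _ (Fin N × ι₀) rfl (fun x => powM N (s x)) (HC_pow N hs) (powM_ne hsx N)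
    (OV_pow (OV_one hs hy) N)

end MP_d4c35b_ag.TW
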