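import Pool.Agent.Lib.MP_d4c35b_ag.TW.Defs2
import Pool.Agent.Lib.MP_d4c35b_ag.TW.Gen
import Pool.Agent.Lib.MP_d4c35b_ag.TW.InjW
import Pool.Agent.Lib.MP_d4c35b_ag.TG.Surj
import Pool.Agent.Lib.MP_d4c35b_ag.TG.LinAlg

set_option autoImplicit false
set_option linter.unusedSectionVars false

open scoped Manifold ContDiff Topology
open Function Set

namespace MP_d4c35b_ag.TW

open MP_d4c35b_ag.TG

section

variable {E : Type} [NormedAddCommGroup E] [NormedSpace ℂ E] [FiniteDimensional ℂ E]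
variable {X : Type} [TopologicalSpace X] [ChartedSpace E X]
variable {Y : Type} [TopologicalSpace Y] [ChartedSpace E Y]
variable {Z : Type} [TopologicalSpace Z] [ChartedSpace E Z]

/-- pull back of a contravariant tensor field by an étale map -/
noncomputable def pullK {κ : Type} (f : Y → X) (τ : X → MM E κ →ₗ[ℂ] ℂ) : Y → MM E κ →ₗ[ℂ] ℂ :=
  fun z =>
    { toFun := fun m => τ (f z) (m.compLinearMap (fun _ => (di f z : E →L[ℂ] E).toLinearMap))
      map_add' := fun a b => by rw [← map_add]; rfl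
      map_smul' := fun c a => by rw [RingHom.id_apply, ← map_smul]; rfl }

theorem pullK_apply {κ : Type} (f : Y → X) (τ : X → MM E κ →ₗ[ℂ] ℂ) (z : Y) (m : MM E κ) :
    pullK f τ z m =
      τ (f z) (m.compLinearMap (fun _ => (di f z : E →L[ℂ] E).toLinearMap)) := rfl

theorem HK_pullK [IsManifold 𝓘(ℂ, E) ω X] [IsManifold 𝓘(ℂ, E) ω Y] {κ : Type} [Fintype κ]
    {f : Y → X} (hf : Etale E f) {τ : X → MM E κ →ₗ[ℂ] ℂ} (hτ : HK τ) : HK (pullK f τ) := by
  rw [HK_iff]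
  intro y m
  obtain ⟨g, hg, hgy, hge⟩ := dd_inv (hf y)
  obtain ⟨B, hB, hBe⟩ := dd_chart hg
  rw [hgy] at hBe
  have hfc : ContinuousAt f y := (hf y).contMDiffAt.continuousAt
  have hBe' := hfc.eventually hBe
  have hfm : MDifferentiableAt 𝓘(ℂ, E) 𝓘(ℂ, E) f y := (hf y).mdifferentiableAt (by simp)
  have h1 := da_HK (HK_iff.mp hτ (f y)) hfm
    (m := fun z => m.compLinearMap (fun _ => (B (f z) : E →L[ℂ] E).toLinearMap))
    (fun w => mm_da m (fun i => by
      have h2 : MDifferentiableAt 𝓘(ℂ, E) 𝓘(ℂ, E →L[ℂ] E) (fun z => B (f z)) y :=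
        hB.comp y hfm
      exact h2.clm_apply mdifferentiableAt_const))
  refine h1.congr_of_eventuallyEq ?_
  have h3 : ∀ᶠ z in 𝓝 y, f z ∈ (chartAt E (f y)).source :=
    hfc.eventually ((chartAt E (f y)).open_source.mem_nhds (mem_chart_source E _))
  have h4 : ∀ᶠ z in 𝓝 y, z ∈ (chartAt E y).source :=
    (chartAt E y).open_source.mem_nhds (mem_chart_source E _)
  filter_upwards [hge, hBe', h3, h4] with z hz hBz hz1 hz2
  have h5 : di f z = dd g (f z) := di_eq hz.2.1 hz.2.2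
  change τ (f z) ((m.compLinearMap (fun _ => (ofT y z : E →L[ℂ] E).toLinearMap)).compLinearMap
    (fun _ => (di f z : E →L[ℂ] E).toLinearMap)) = _
  congr 1
  ext w
  simp only [MultilinearMap.compLinearMap_apply, ContinuousLinearMap.coe_coe]
  congr 1
  funext i
  rw [h5]
  have h6 := hBz (ofT (f y) (f z) (w i))
  rw [toT_ofT hz1, hz.1] at h6
  rw [h6, ofT_toT hz2]

/-- Hypothesis: finitely many holomorphic sections of `T_X^{⊗k}` without common zero in the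
projectivized cotangent space at some point. -/
def HW (E X : Type) [NormedAddCommGroup E] [NormedSpace ℂ E] [FiniteDimensional ℂ E]
    [TopologicalSpace X] [ChartedSpace E X] [IsManifold 𝓘(ℂ, E) ω X] (k : ℕ) : Prop :=
  ∃ (κ : Type) (_ : Fintype κ) (τ : κ → X → MM E (Fin k) →ₗ[ℂ] ℂ) (x₀ : X),
    (∀ i, HK (τ i)) ∧ NCZ (fun i => τ i x₀)

theorem HW_lift [CCM E X] [CCM E Y] {f : Y → X} (hf : Etale E f) {k : ℕ} (h : HW E X k) :
    HW E Y k := by
  obtain ⟨κ, _, τ, x₀, hτ, h0⟩ := h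
  obtain ⟨y₀, rfl⟩ := etale_surj hf x₀
  refine ⟨κ, inferInstance, fun i => pullK f (τ i), y₀, fun i => HK_pullK hf (hτ i), ?_⟩
  intro ξ hξ
  have h1 : ξ.comp (di f y₀ : E →L[ℂ] E).toLinearMap = 0 := by
    refine h0 _ (fun i => ?_)
    have h2 := hξ i
    rw [pullK_apply] at h2
    rw [← h2]
    congr 1
  obtain ⟨g, -, -, hge⟩ := dd_inv (hf y₀)
  have h2 := hge.self_of_nhds
  have h3 : di f y₀ = dd g (f y₀) := di_eq h2.2.1 h2.2.2
  ext v
  have h4 := congrArg (fun L : E →ₗ[ℂ] ℂ => L (dd f y₀ v)) h1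
  have h5 : ξ (di f y₀ (dd f y₀ v)) = 0 := h4
  rw [h3, h2.2.1] at h5
  exact h5

theorem INJ_form [IsManifold 𝓘(ℂ, E) ω X] (hI : INJ E X) {η : X → E →ₗ[ℂ] ℂ} (hη : H1 η) {x : X}
    (h : η x = 0) : η = 0 := by
  have h1 : tp (fun _ : Fin 1 => η) = 0 := by
    refine hI (Fin 1) _ (HC_tp fun _ => hη) x ?_
    ext v
    rw [tp_apply]
    simp [h]
  funext z
  ext v
  have h2 := congrArg (fun f => f (fun _ => v)) (congrFun h1 z)
  have h3 : tp (fun _ : Fin 1 => η) z (fun _ => v) = 0 := h2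
  rw [tp_apply] at h3
  simpa using h3

theorem evF_injW [CCM E X] (hI : INJ E X) (x : X) : Injective (evF (E := E) x) := by
  rw [injective_iff_map_eq_zero]
  intro η h
  exact Subtype.ext (INJ_form hI η.2 h)

theorem F1_finiteW [CCM E X] (hI : INJ E X) : Module.Finite ℂ (F1 E X) := by
  obtain ⟨x⟩ := (inferInstance : Nonempty X)
  exact Module.Finite.of_injective (evF (E := E) x) (evF_injW hI x)

theorem F1_rankW [CCM E X] (hI : INJ E X) :
    Module.finrank ℂ (F1 E X) ≤ Module.finrank ℂ (E →ₗ[ℂ] ℂ) := by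
  obtain ⟨x⟩ := (inferInstance : Nonempty X)
  exact LinearMap.finrank_le_finrank_of_injective (evF_injW hI x)

end

/-- Choice of the étale cover with the largest number of 1-forms. -/
theorem exists_maxW {E : Type} [NormedAddCommGroup E] [NormedSpace ℂ E] [FiniteDimensional ℂ E]
    {X : Type} [TopologicalSpace X] [ChartedSpace E X] [CCM E X]
    (hI : ∀ (Z : Type) [TopologicalSpace Z] [ChartedSpace E Z] [CCM E Z] (g : Z → X),
      Etale E g → INJ E Z) :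
    ∃ (Y : Type) (_ : TopologicalSpace Y) (_ : ChartedSpace E Y) (_ : CCM E Y) (f : Y → X),
      Etale E f ∧
      ∀ (Z : Type) [TopologicalSpace Z] [ChartedSpace E Z] [CCM E Z] (g : Z → Y), Etale E g →
        ∀ η : Z → E →ₗ[ℂ] ℂ, H1 η → ∃ β : Y → E →ₗ[ℂ] ℂ, H1 β ∧ η = pull1 g β := by
  classical
  set P : ℕ → Prop := fun n => ∃ (Y : Type) (_ : TopologicalSpace Y) (_ : ChartedSpace E Y)
    (_ : CCM E Y) (f : Y → X), Etale E f ∧ Module.finrank ℂ (F1 E Y) = n with hP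
  have hP0 : P (Module.finrank ℂ (F1 E X)) := ⟨X, _, _, inferInstance, id, etale_id, rfl⟩
  have hb : ∀ n, P n → n ≤ Module.finrank ℂ (E →ₗ[ℂ] ℂ) := by
    rintro n ⟨Y, _, _, _, f, hf, rfl⟩
    exact F1_rankW (hI Y f hf)
  obtain ⟨n, ⟨Y, _, _, _, f, hf, hn⟩, hmax⟩ : ∃ n, P n ∧ ∀ m, P m → m ≤ n := by
    refine ⟨Nat.findGreatest P (Module.finrank ℂ (E →ₗ[ℂ] ℂ)), ?_, ?_⟩
    · exact Nat.findGreatest_spec (hb _ hP0) hP0
    · intro m hm
      exact Nat.le_findGreatest (hb m hm) hm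
  refine ⟨Y, _, _, inferInstance, f, hf, ?_⟩
  intro Z _ _ _ g hg η hη
  have hfY := F1_finiteW (hI Y f hf)
  have hfZ := F1_finiteW (hI Z (f ∘ g) (etale_comp hf hg))
  have h1 : Module.finrank ℂ (F1 E Z) ≤ n :=
    hmax _ ⟨Z, _, _, inferInstance, f ∘ g, etale_comp hf hg, rfl⟩
  have h2 : Module.finrank ℂ (F1 E Y) ≤ Module.finrank ℂ (F1 E Z) :=
    LinearMap.finrank_le_finrank_of_injective (pl_inj hg)
  have h3 : Module.finrank ℂ (F1 E Y) = Module.finrank ℂ (F1 E Z) := le_antisymm h2 (hn ▸ h1)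
  have h4 : Surjective (pl hg) :=
    (LinearMap.injective_iff_surjective_of_finrank_eq_finrank h3).mp (pl_inj hg)
  obtain ⟨β, hβ⟩ := h4 ⟨η, hη⟩
  exact ⟨β, β.2, (congrArg Subtype.val hβ).symm⟩

/-- THEOREM W, internal form. -/
def S_mainW : Prop :=
  ∀ (E : Type) [NormedAddCommGroup E] [NormedSpace ℂ E] [FiniteDimensional ℂ E]
    (X : Type) [TopologicalSpace X] [ChartedSpace E X] [CCM E X] (k : ℕ), 1 ≤ k → HW E X k →
    ∃ (Y : Type) (_ : TopologicalSpace Y) (_ : ChartedSpace E Y) (_ : CCM E Y) (f : Y → X),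
      Etale E f ∧
      (∀ η : Y → E →ₗ[ℂ] ℂ, H1 η → ∀ y : Y, η y = 0 → η = 0) ∧
      ∀ (Z : Type) [TopologicalSpace Z] [ChartedSpace E Z] [CCM E Z] (g : Z → Y), Etale E g →
        ∀ (p : ℕ) (s : Z → MM E (Fin p)), HC s →
          s ∈ Submodule.span ℂ {t : Z → MM E (Fin p) | ∃ η : Fin p → Y → E →ₗ[ℂ] ℂ,
            (∀ i, H1 (η i)) ∧ t = tp (fun i => pull1 g (η i))}

theorem mainW (hINJ : S_INJ) (hLSX : S_LSX) (hCOV : S_COV) : S_mainW := by
  classical
  intro E _ _ _ X _ _ _ k hk hW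
  have hI : ∀ (Z : Type) [TopologicalSpace Z] [ChartedSpace E Z] [CCM E Z] (g : Z → X),
      Etale E g → INJ E Z := by
    intro Z _ _ _ g hg
    obtain ⟨κ, _, τ, z₀, hτ, h0⟩ := HW_lift hg hW
    exact hINJ E Z k κ τ z₀ hk hτ h0
  obtain ⟨Y, _, _, _, f, hf, hmax⟩ := exists_maxW hI
  refine ⟨Y, _, _, inferInstance, f, hf, fun η hη y hy => INJ_form (hI Y f hf) hη hy, ?_⟩
  intro Z _ _ _ g hg p s hs
  have hIZ : INJ E Z := hI Z (f ∘ g) (etale_comp hf hg)
  obtain ⟨κ, _, τ, z₀, hτ, h0⟩ := HW_lift (etale_comp hf hg) hW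
  obtain ⟨r, c, hNC, hrk, hLS⟩ := hLSX E Z hIZ k κ τ z₀ hk hτ h0
  obtain ⟨W, _, _, _, h, hh, η, hη, hspan⟩ := hCOV E Z k κ τ r c hk hNC hrk hLS
  choose β hβ hβe using fun a => hmax W (g ∘ h) (etale_comp hg hh) (η a) (hη a)
  obtain ⟨w₁⟩ := (inferInstance : Nonempty W)
  obtain ⟨A, hA, hAe⟩ := hspan w₁
  set z₁ := h w₁ with hz₁
  have hAβ : ∀ a, A a = pull1 g (β a) z₁ := by
    intro a
    ext v
    obtain ⟨u, rfl⟩ := dd_surj (hh w₁) v
    have h1 := hAe a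
    rw [hβe a, pull1_comp hg hh] at h1
    exact (congrArg (fun L : E →ₗ[ℂ] ℂ => L u) h1).symm
  -- evaluation of the pulled back 1-forms
  set T : Submodule ℂ (Z → MM E (Fin p)) := Submodule.span ℂ {t : Z → MM E (Fin p) |
    ∃ η : Fin p → Y → E →ₗ[ℂ] ℂ, (∀ i, H1 (η i)) ∧ t = tp (fun i => pull1 g (η i))} with hT
  have hTC : T ≤ FC E Z (Fin p) := by
    refine Submodule.span_le.mpr ?_
    rintro t ⟨η, hη, rfl⟩
    exact HC_tp fun i => H1_pull1 hg (hη i)
  have hWS : ∀ ξ ∈ WS E z₁, ∃ b : Y → E →ₗ[ℂ] ℂ, H1 b ∧ pull1 g b z₁ = ξ := by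
    intro ξ hξ
    rw [← hA] at hξ
    obtain ⟨z, rfl⟩ := (Submodule.mem_span_range_iff_exists_fun ℂ).mp hξ
    refine ⟨∑ a, z a • β a, ?_, ?_⟩
    · exact Submodule.sum_mem (F1 E Y) fun a _ => Submodule.smul_mem _ _ (hβ a)
    · ext v
      simp only [pull1, Finset.sum_apply, Pi.smul_apply, LinearMap.comp_apply,
        LinearMap.sum_apply, LinearMap.smul_apply]
      refine Finset.sum_congr rfl fun a _ => ?_
      rw [hAβ a]
      rfl
  have h1 : s z₁ ∈ Submodule.span ℂ {t : MM E (Fin p) | ∃ f : Fin p → E →ₗ[ℂ] ℂ,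
      (∀ i, f i ∈ WS E z₁) ∧ t = tpm f} := by
    refine la1 (WS E z₁) (s z₁) ?_
    intro j v
    refine ⟨cv (reix (Equiv.optionSubtypeNe j).symm s z₁) (fun i => v i.1),
      Submodule.subset_span ⟨{b : Fin p // b ≠ j}, inferInstance,
        reix (Equiv.optionSubtypeNe j).symm s, fun i => v i.1, HC_reix _ hs, rfl⟩, fun u => ?_⟩
    rw [cv_apply, reix_apply]
    congr 1
    funext i
    by_cases hi : i = j
    · subst hi
      simp
    · rw [Equiv.optionSubtypeNe_symm_of_ne hi]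
      simp [Function.update_of_ne hi]
  have h2 : Submodule.span ℂ {t : MM E (Fin p) | ∃ f : Fin p → E →ₗ[ℂ] ℂ,
      (∀ i, f i ∈ WS E z₁) ∧ t = tpm f} ≤
      Submodule.map (LinearMap.proj z₁ : (Z → MM E (Fin p)) →ₗ[ℂ] MM E (Fin p)) T := by
    refine Submodule.span_le.mpr ?_
    rintro t ⟨f, hf, rfl⟩
    choose b hb hbf using fun i => hWS (f i) (hf i)
    refine ⟨tp (fun i => pull1 g (b i)), Submodule.subset_span ⟨b, hb, rfl⟩, ?_⟩
    ext v
    change tp (fun i => pull1 g (b i)) z₁ v = tpm f v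
    rw [tp_apply, tpm_apply]
    refine Finset.prod_congr rfl fun i _ => ?_
    rw [hbf i]
  obtain ⟨t, ht, hts⟩ := h2 h1
  have h3 : s - t = 0 := by
    refine hIZ (Fin p) _ (HC_sub hs (hTC ht)) z₁ ?_
    have h4 : t z₁ = s z₁ := hts
    rw [Pi.sub_apply, h4, sub_self]
  rw [sub_eq_zero] at h3
  rw [h3]
  exact ht

end MP_d4c35b_ag.TW
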