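import Pool.Agent.Lib.MP_d4c35b_ag.TW.ReadW
import Pool.Agent.Lib.MP_d4c35b_ag.TW.MainW
import Pool.Agent.Lib.MP_d4c35b_ag.TG.Fin

set_option autoImplicit false

open scoped Manifold ContDiff TensorProduct
open Set Function MP_d4c35b_ag.TG MP_d4c35b_ag.Read

namespace MP_d4c35b_ag.TW

variable {E : Type} [NormedAddCommGroup E] [NormedSpace ℂ E] [FiniteDimensional ℂ E]
  {X : Type} [TopologicalSpace X] [ChartedSpace E X] [IsManifold 𝓘(ℂ, E) ω X]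

theorem HW_of_outside (hUNI : S_UNI) {x₀ : X} (h : OutsideStableBaseLocus (E := E) x₀) :
    ∃ k : ℕ, 1 ≤ k ∧ HW E X k := by
  obtain ⟨k, hk, κ, _, τ, hτ, h0⟩ := hUNI E X x₀ (fun ξ hξ => by
    obtain ⟨k, τ, hk, hτ, hv⟩ := h ξ hξ
    exact ⟨k, hk, funl τ, HK_of_holContra hτ, hv⟩)
  exact ⟨k, hk, κ, inferInstance, τ, x₀, hτ, h0⟩

end MP_d4c35b_ag.TW
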