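import Pool.Agent.Lib.MP_d4c35b_ag.TW.Defs
import Pool.Agent.Lib.MP_d4c35b_ag.TG.Ops

/-!
GF of THEOREM W (MP_d4c35b_ag): a generating family of the spaces `WS E x`.
-/

set_option autoImplicit false

open scoped Manifold ContDiff Topology
open Function Set

namespace MP_d4c35b_ag.TW

open MP_d4c35b_ag.TG

namespace pGFAux

variable {E : Type} [NormedAddCommGroup E] [NormedSpace ℂ E] [FiniteDimensional ℂ E]

omit [FiniteDimensional ℂ E] in
theorem cv_apply {κ : Type} (m : MM E (Option κ)) (b : κ → E) (u : E) :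
    cv m b u = m (fun o => o.elim u b) := by
  classical
  unfold cv
  rw [MultilinearMap.toLinearMap_apply]
  congr 1
  funext o
  rcases o with _ | k
  · simp
  · simp

/-- `Option κ ⊕ Option κ ≃ Option (κ ⊕ Option κ)`. -/
def eqv (κ : Type) : Option κ ⊕ Option κ ≃ Option (κ ⊕ Option κ) where
  toFun := Sum.elim (fun o => o.elim none fun k => some (Sum.inl k)) fun o => some (Sum.inr o)
  invFun := fun p => p.elim (Sum.inl none) fun q => Sum.elim (fun k => Sum.inl (some k)) (fun o => Sum.inr o) q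
  left_inv := by
    rintro ((_ | k) | o) <;> rfl
  right_inv := by
    rintro (_ | (k | o)) <;> rfl

omit [FiniteDimensional ℂ E] in
theorem cv_mul {X : Type} {κ : Type} (s : X → MM E (Option κ)) (x : X) (b : κ → E) (c : Option κ → E) :
    cv (reix (eqv κ) (mulF s s) x) (Sum.elim b c) = (s x c) • cv (s x) b := by
  ext u
  rw [cv_apply, LinearMap.smul_apply, cv_apply, smul_eq_mul]
  have h0 : reix (eqv κ) (mulF s s) x (fun o => o.elim u (Sum.elim b c)) =
      mulF s s x (fun i => (eqv κ i).elim u (Sum.elim b c)) := rfl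
  rw [h0]
  have h : mulF s s x (fun i => (eqv κ i).elim u (Sum.elim b c)) =
      s x (fun o => (eqv κ (Sum.inl o)).elim u (Sum.elim b c)) *
        s x (fun o => (eqv κ (Sum.inr o)).elim u (Sum.elim b c)) := by
    simp [mulF, mulM, MultilinearMap.domCoprod_apply]
  rw [h, mul_comm]
  congr 1
  congr 1
  funext o
  rcases o with _ | k <;> rfl

section

variable {X : Type} [TopologicalSpace X] [ChartedSpace E X] [IsManifold 𝓘(ℂ, E) ω X]

theorem pos {x : X} {ξ : E →ₗ[ℂ] ℂ} (hξ0 : ξ ≠ 0)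
    (hξ : ∃ (κ : Type) (_ : Fintype κ) (s : X → MM E (Option κ)) (b : κ → E), HC s ∧ ξ = cv (s x) b) :
    ∃ (κ : Type) (_ : Fintype κ) (_ : Nonempty κ) (s : X → MM E (Option κ)) (b : κ → E) (c : ℂ),
      HC s ∧ c ≠ 0 ∧ cv (s x) b = c • ξ := by
  obtain ⟨κ, _, s, b, hs, rfl⟩ := hξ
  have h1 : s x ≠ 0 := by
    intro h
    apply hξ0
    ext u
    rw [cv_apply, h]
    rfl
  obtain ⟨c, hc⟩ : ∃ c, s x c ≠ 0 := by
    by_contra hcon
    push Not at hcon
    exact h1 (MultilinearMap.ext hcon)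
  exact ⟨κ ⊕ Option κ, inferInstance, inferInstance, reix (eqv κ) (mulF s s), Sum.elim b c, s x c,
    HC_reix _ (HC_mulF hs hs), hc, cv_mul s x b c⟩

end

omit [FiniteDimensional ℂ E] in
/-- Linearly independent covectors have a nonzero determinant. -/
theorem exists_det {r : ℕ} (ξ : Fin r → (E →ₗ[ℂ] ℂ)) (h : LinearIndependent ℂ ξ) :
    ∃ u : Fin r → E, Matrix.det (Matrix.of fun i j => ξ j (u i)) ≠ 0 := by
  classical
  let f : E →ₗ[ℂ] (Fin r → ℂ) := LinearMap.pi ξ
  have hsurj : LinearMap.range f = ⊤ := by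
    by_contra hne
    obtain ⟨g, hg0, hg⟩ := Submodule.exists_le_ker_of_lt_top _ (lt_top_iff_ne_top.2 hne)
    have h1 : ∑ j, g (Pi.single j 1) • ξ j = 0 := by
      ext v
      have h2 : g (f v) = 0 := hg ⟨v, rfl⟩
      rw [LinearMap.pi_apply_eq_sum_univ g] at h2
      simp only [LinearMap.sum_apply, LinearMap.smul_apply, smul_eq_mul, LinearMap.zero_apply]
      rw [← h2]
      refine Finset.sum_congr rfl fun j _ => ?_
      rw [smul_eq_mul, mul_comm]
      congr 2
      funext i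
      simp [Pi.single_apply, eq_comm]
    have h3 := Fintype.linearIndependent_iff.1 h _ h1
    apply hg0
    ext j
    simpa using h3 j
  have h1 : ∀ i : Fin r, ∃ u, f u = Pi.single i 1 := by
    intro i
    have : (Pi.single i 1 : Fin r → ℂ) ∈ LinearMap.range f := hsurj ▸ Submodule.mem_top
    exact this
  choose u hu using h1
  refine ⟨u, ?_⟩
  have h2 : (Matrix.of fun i j => ξ j (u i)) = (1 : Matrix (Fin r) (Fin r) ℂ) := by
    ext i j
    have h3 := congrFun (hu i) j
    have h4 : ξ j (u i) = (Pi.single i 1 : Fin r → ℂ) j := h3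
    rw [Matrix.of_apply, h4, Matrix.one_apply, Pi.single_apply]
    simp [eq_comm]
  rw [h2, Matrix.det_one]
  exact one_ne_zero

omit [FiniteDimensional ℂ E] in
theorem indep_of_det {r : ℕ} (ξ : Fin r → (E →ₗ[ℂ] ℂ)) (u : Fin r → E)
    (h : Matrix.det (Matrix.of fun i j => ξ j (u i)) ≠ 0) : LinearIndependent ℂ ξ := by
  rw [Fintype.linearIndependent_iff]
  intro a ha
  have h1 : (Matrix.of fun i j => ξ j (u i)).mulVec a = 0 := by
    funext i
    have h2 := LinearMap.congr_fun ha (u i)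
    simp only [LinearMap.sum_apply, LinearMap.smul_apply, smul_eq_mul, LinearMap.zero_apply] at h2
    simp only [Matrix.mulVec, dotProduct, Matrix.of_apply, Pi.zero_apply]
    rw [← h2]
    exact Finset.sum_congr rfl fun j _ => mul_comm _ _
  have h2 := Matrix.eq_zero_of_mulVec_eq_zero h h1
  intro i
  exact congrFun h2 i

end pGFAux

open pGFAux in
/-- GF. -/
theorem pGF (hPFI : S_PFI) (hPFC : S_PFC) : S_GF := by
  classical
  intro E _ _ _ X _ _ _ hI
  have hne : Nonempty X := (CCM.connected (E := E) (X := X)).toNonempty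
  -- a point with maximal dimension
  obtain ⟨x₀, hx₀⟩ : ∃ x₀ : X, ∀ x : X, Module.finrank ℂ (WS E x) ≤ Module.finrank ℂ (WS E x₀) := by
    have hb : BddAbove (range fun x : X => Module.finrank ℂ (WS E x)) :=
      ⟨Module.finrank ℂ (E →ₗ[ℂ] ℂ), by rintro _ ⟨x, rfl⟩; exact Submodule.finrank_le _⟩
    obtain ⟨x₀, h⟩ := Nat.sSup_mem (range_nonempty _) hb
    refine ⟨x₀, fun x => ?_⟩
    have h1 : Module.finrank ℂ (WS E x₀) = sSup (range fun x : X => Module.finrank ℂ (WS E x)) := h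
    rw [h1]
    exact le_csSup hb ⟨x, rfl⟩
  -- a basis
  obtain ⟨B, hB1, hB2, hB3⟩ := exists_linearIndependent ℂ
    {ξ : E →ₗ[ℂ] ℂ | ∃ (κ : Type) (_ : Fintype κ) (s : X → MM E (Option κ)) (b : κ → E),
      HC s ∧ ξ = cv (s x₀) b}
  have hfin : Finite B := hB3.finite
  have : Fintype B := Fintype.ofFinite B
  have hcard : Fintype.card B = Module.finrank ℂ (WS E x₀) := by
    have h1 := finrank_span_eq_card hB3
    have h2 : Submodule.span ℂ (range (Subtype.val : B → (E →ₗ[ℂ] ℂ))) = WS E x₀ := by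
      rw [Subtype.range_coe]
      exact hB2
    rw [← h1, ← h2]
  let eB : Fin (Module.finrank ℂ (WS E x₀)) ≃ B := (finCongr hcard.symm).trans (Fintype.equivFin B).symm
  obtain ⟨r, hr⟩ : ∃ r, r = Module.finrank ℂ (WS E x₀) := ⟨_, rfl⟩
  rw [← hr] at eB hx₀
  have hli : LinearIndependent ℂ (fun j : Fin r => ((eB j : B) : E →ₗ[ℂ] ℂ)) :=
    hB3.comp eB eB.injective
  have hex : ∀ j : Fin r, ∃ (κ : Type) (_ : Fintype κ) (_ : Nonempty κ) (s : X → MM E (Option κ))
      (b : κ → E) (c : ℂ), HC s ∧ c ≠ 0 ∧ cv (s x₀) b = c • ((eB j : B) : E →ₗ[ℂ] ℂ) :=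
    fun j => pos (hli.ne_zero j) (hB1 (eB j).2)
  choose κ hκ1 hκ2 s b c hs hc hb using hex
  refine ⟨r, κ, hκ1, hκ2, s, hs, ?_⟩
  have hli0 : LinearIndependent ℂ (fun j : Fin r => cv (s j x₀) (b j)) := by
    have h1 := hli.units_smul (fun j => Units.mk0 (c j) (hc j))
    refine (linearIndependent_equiv' (Equiv.refl _) ?_).1 h1
    funext j
    show cv (s j x₀) (b j) = _
    rw [hb]
    rfl
  obtain ⟨u, hu⟩ := exists_det _ hli0
  -- the determinant as a polynomial field
  obtain ⟨p1, p2, -, p4, p5, p6, -⟩ := hPFC E X (Fin r ⊕ (Σ j, κ j))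
  let G : X → (Fin r ⊕ (Σ j, κ j) → E) → ℂ := fun x v =>
    Matrix.det (Matrix.of fun i j => s j x (fun o => o.elim (v (Sum.inl i)) fun k => v (Sum.inr ⟨j, k⟩)))
  have hG : PF G := by
    have h1 : G = fun x v => ∑ σ : Equiv.Perm (Fin r), ((Equiv.Perm.sign σ : ℤ) : ℂ) *
        ∏ i, s i x (fun o => v (o.elim (Sum.inl (σ i)) fun k => Sum.inr ⟨i, k⟩)) := by
      funext x v
      show Matrix.det _ = _
      rw [Matrix.det_apply']
      refine Finset.sum_congr rfl fun σ _ => ?_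
      congr 1
      refine Finset.prod_congr rfl fun i _ => ?_
      rw [Matrix.of_apply]
      congr 1
      funext o
      rcases o with _ | k <;> rfl
    rw [h1]
    refine p5 _ _ fun σ => ?_
    refine p4 _ _ (p2 _) ?_
    refine p6 _ _ fun i => ?_
    exact p1 (Option (κ i)) (s i) (fun o => o.elim (Sum.inl (σ i)) fun k => Sum.inr ⟨i, k⟩) (hs i)
  have hval : ∀ (x : X) (v : Fin r ⊕ (Σ j, κ j) → E), G x v =
      Matrix.det (Matrix.of fun i j => cv (s j x) (fun k => v (Sum.inr ⟨j, k⟩)) (v (Sum.inl i))) := by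
    intro x v
    show Matrix.det _ = _
    congr 1
    ext i j
    rw [Matrix.of_apply, Matrix.of_apply, cv_apply]
  intro x
  obtain ⟨v, hv⟩ : ∃ v, G x v ≠ 0 := by
    by_contra hcon
    push Not at hcon
    have h1 := hPFI E X hI (Fin r ⊕ (Σ j, κ j)) G hG x hcon x₀
      (Sum.elim u fun p => b p.1 p.2)
    rw [hval] at h1
    exact hu h1
  rw [hval] at hv
  have h1 := indep_of_det (fun j => cv (s j x) (fun k => v (Sum.inr ⟨j, k⟩))) (fun i => v (Sum.inl i)) hv
  refine ⟨fun j k => v (Sum.inr ⟨j, k⟩), h1, ?_⟩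
  refine Submodule.eq_of_le_of_finrank_le ?_ ?_
  · rw [Submodule.span_le]
    rintro _ ⟨j, rfl⟩
    exact Submodule.subset_span ⟨κ j, hκ1 j, s j, _, hs j, rfl⟩
  · rw [finrank_span_eq_card h1, Fintype.card_fin]
    exact hx₀ x

end MP_d4c35b_ag.TW
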