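import Pool.Agent.Lib.MP_d4c35b_ag.TW.Defs2
import Pool.Agent.Lib.MP_d4c35b_ag.TW.Gen

/-!
The torsor of frames is nonempty at every point: weak Nullstellensatz and the transfer principle.
-/

set_option autoImplicit false
set_option linter.unusedSectionVars false

open scoped Manifold ContDiff Topology
open Function Set

namespace MP_d4c35b_ag.TW

open MP_d4c35b_ag.TG

namespace pJNAux

open MvPolynomial

/-- weak Nullstellensatz -/
theorem wns {σ Q : Type} [Fintype σ] [Fintype Q] (f : Q → MvPolynomial σ ℂ)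
    (h : ∀ z : σ → ℂ, ∃ q, MvPolynomial.eval z (f q) ≠ 0) :
    ∃ g : Q → MvPolynomial σ ℂ, ∑ q, g q * f q = 1 := by
  classical
  set I : Ideal (MvPolynomial σ ℂ) := Ideal.span (Set.range f) with hI
  have h2 : (1 : MvPolynomial σ ℂ) ∈ I.radical := by
    rw [← vanishingIdeal_zeroLocus_eq_radical (K := ℂ), mem_vanishingIdeal_iff]
    intro x hx
    obtain ⟨q, hq⟩ := h x
    have := hx (f q) (Ideal.subset_span ⟨q, rfl⟩)
    rw [MvPolynomial.aeval_eq_eval] at this
    exact absurd this hq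
  obtain ⟨n, hn⟩ := Ideal.mem_radical_iff.1 h2
  rw [one_pow, hI, Ideal.mem_span_range_iff_exists_fun] at hn
  exact hn

/-- a functional on a space of covectors is the evaluation at a vector -/
theorem exists_dual {E : Type} [NormedAddCommGroup E] [NormedSpace ℂ E] [FiniteDimensional ℂ E]
    (W : Submodule ℂ (E →ₗ[ℂ] ℂ)) (φ : W →ₗ[ℂ] ℂ) :
    ∃ v : E, ∀ ζ : W, φ ζ = (ζ : E →ₗ[ℂ] ℂ) v := by
  obtain ⟨g, hg⟩ := φ.exists_extend
  refine ⟨(Module.evalEquiv ℂ E).symm g, fun ζ => ?_⟩
  have h1 : (ζ : E →ₗ[ℂ] ℂ) ((Module.evalEquiv ℂ E).symm g) = g ζ :=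
    Module.apply_evalEquiv_symm_apply ℂ E (ζ : E →ₗ[ℂ] ℂ) g
  rw [h1, ← hg]
  rfl

variable {E : Type} [NormedAddCommGroup E] [NormedSpace ℂ E] [FiniteDimensional ℂ E]
variable {X : Type} [TopologicalSpace X] [ChartedSpace E X] [IsManifold 𝓘(ℂ, E) ω X]
variable {r : ℕ} {K : Fin r → Type} (s : ∀ j, X → MM E (Option (K j)))
variable {R : Type}

/-- products of `D` values at `x` -/
noncomputable def pr (x : X) (D : ℕ) (ρ : Fin D → Option R) (a : Fin D → E)
    (b : R × (Σ j, K j) → E) : ℂ :=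
  ∏ l, (ρ l).elim 1 (fun q => xi s x (fun p => b (q, p)) (a l))

/-- the span of these products -/
noncomputable def PS (x : X) (D : ℕ) : Submodule ℂ ((R × (Σ j, K j) → E) → ℂ) :=
  Submodule.span ℂ {h | ∃ ρ a, h = pr (R := R) s x D ρ a}

theorem PS_mul (x : X) (D : ℕ) (h : (R × (Σ j, K j) → E) → ℂ) (hh : h ∈ PS s x D) (q : R) (v : E) :
    (fun b => h b * xi s x (fun p => b (q, p)) v) ∈ PS s x (D + 1) := by
  unfold PS at hh
  induction hh using Submodule.span_induction with
  | mem h hh =>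
    obtain ⟨ρ, a, rfl⟩ := hh
    refine Submodule.subset_span ⟨Fin.cons (some q) ρ, Fin.cons v a, ?_⟩
    funext b
    unfold pr
    rw [Fin.prod_univ_succ, mul_comm]
    rfl
  | zero =>
    have : (fun b : R × (Σ j, K j) → E => (0 : (R × (Σ j, K j) → E) → ℂ) b *
        xi s x (fun p => b (q, p)) v) = 0 := by
      funext b
      simp
    rw [this]
    exact Submodule.zero_mem _
  | add h h' _ _ ih ih' =>
    have : (fun b : R × (Σ j, K j) → E => (h + h') b * xi s x (fun p => b (q, p)) v) =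
        (fun b => h b * xi s x (fun p => b (q, p)) v) +
        fun b => h' b * xi s x (fun p => b (q, p)) v := by
      funext b
      simp [add_mul]
    rw [this]
    exact Submodule.add_mem _ ih ih'
  | smul c h _ ih =>
    have : (fun b : R × (Σ j, K j) → E => (c • h) b * xi s x (fun p => b (q, p)) v) =
        c • fun b => h b * xi s x (fun p => b (q, p)) v := by
      funext b
      simp [mul_assoc]
    rw [this]
    exact Submodule.smul_mem _ c ih

theorem PS_poly (x : X) {n : ℕ} (v : Fin n → E) (p : MvPolynomial (R × Fin n) ℂ) :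
    ∃ D, ∀ D', D ≤ D' → (fun b : R × (Σ j, K j) → E =>
      eval (fun z : R × Fin n => xi s x (fun p => b (z.1, p)) (v z.2)) p) ∈ PS s x D' := by
  induction p using MvPolynomial.induction_on with
  | C a =>
    refine ⟨0, fun D' _ => ?_⟩
    have : (fun b : R × (Σ j, K j) → E =>
        eval (fun z : R × Fin n => xi s x (fun p => b (z.1, p)) (v z.2)) (C a)) =
        a • pr (R := R) s x D' (fun _ => none) (fun _ => 0) := by
      funext b
      simp [pr]
    rw [this]
    exact Submodule.smul_mem _ a (Submodule.subset_span ⟨_, _, rfl⟩)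
  | add p q hp hq =>
    obtain ⟨D, hD⟩ := hp
    obtain ⟨D₂, hD₂⟩ := hq
    refine ⟨max D D₂, fun D' h => ?_⟩
    have := Submodule.add_mem _ (hD D' (le_trans (le_max_left _ _) h))
      (hD₂ D' (le_trans (le_max_right _ _) h))
    refine Eq.mp (congrArg (fun t => t ∈ PS s x D') ?_) this
    funext b
    simp
  | mul_X p z hp =>
    obtain ⟨D, hD⟩ := hp
    refine ⟨D + 1, fun D' h => ?_⟩
    obtain ⟨D'', rfl⟩ : ∃ D'', D' = D'' + 1 := ⟨D' - 1, by omega⟩
    have := PS_mul s x D'' _ (hD D'' (by omega)) z.1 (v z.2)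
    refine Eq.mp (congrArg (fun t => t ∈ PS s x (D'' + 1)) ?_) this
    funext b
    simp

end pJNAux

open MvPolynomial pJNAux

theorem pJN (hPFC : S_PFC) (hTP : S_TP) (hGF : S_GF) : S_JN := by
  intro E _ _ _ X _ _ _ hINJ k κ _ τ hτ R _ x₀ A₀ hA₀ x
  classical
  obtain ⟨r, K, _, _, s, hs, hGF⟩ := hGF E X hINJ
  by_contra hno
  -- the basis at `x`
  let w := Module.finBasis ℂ (WS E x)
  set n := Module.finrank ℂ (WS E x) with hn
  choose v hv using fun j => exists_dual (WS E x) (w.coord j)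
  -- the coefficients
  let c : κ → (Fin k → R) → ℂ := fun i J => τ i x₀ (tpm (fun m => A₀ (J m)))
  let F : κ × (Fin k → R) → MvPolynomial (R × Fin n) ℂ := fun q =>
    (∑ u : Fin k → Fin n, C (τ q.1 x (tpm (fun m => ((w (u m) : WS E x) : E →ₗ[ℂ] ℂ)))) *
      ∏ m, MvPolynomial.X (q.2 m, u m)) - C (c q.1 q.2)
  have hF : ∀ (z : R × Fin n → ℂ) (q : κ × (Fin k → R)), eval z (F q) =
      τ q.1 x (tpm (fun m => ∑ j, z (q.2 m, j) • ((w j : WS E x) : E →ₗ[ℂ] ℂ))) - c q.1 q.2 := by
    intro z q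
    simp only [F, map_sub, map_sum, map_mul, eval_C, map_prod, eval_X]
    congr 1
    have h1 : tpm (fun m => ∑ j, z (q.2 m, j) • ((w j : WS E x) : E →ₗ[ℂ] ℂ)) =
        ∑ u : Fin k → Fin n, (∏ m, z (q.2 m, u m)) •
          tpm (fun m => ((w (u m) : WS E x) : E →ₗ[ℂ] ℂ)) := by
      ext e
      simp only [tpm_apply, sum_apply, LinearMap.sum_apply, smul_apply, LinearMap.smul_apply,
        smul_eq_mul]
      rw [Finset.prod_univ_sum]
      simp only [Fintype.piFinset_univ]
      refine Finset.sum_congr rfl fun u _ => ?_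
      rw [Finset.prod_mul_distrib]
    rw [h1, map_sum]
    refine Finset.sum_congr rfl fun u _ => ?_
    rw [map_smul, smul_eq_mul, mul_comm]
  obtain ⟨g, hg⟩ := wns F (by
    intro z
    by_contra hz
    push Not at hz
    refine hno ⟨fun ρ => ∑ j, z (ρ, j) • ((w j : WS E x) : E →ₗ[ℂ] ℂ), fun ρ =>
      Submodule.sum_mem _ fun j _ => Submodule.smul_mem _ _ (w j).2, fun i J => ?_⟩
    have h1 := hz (i, J)
    rw [hF, sub_eq_zero] at h1
    exact h1)
  choose D hD using fun q => PS_poly (R := R) s x v (g q)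
  let N := ∑ q, D q
  -- the family of functions
  let f : (Fin N → Option R) × κ × (Fin k → R) → X → (Fin N ⊕ (R × (Σ j, K j)) → E) → ℂ :=
    fun q y e => (∏ l, (q.1 l).elim 1 (fun ρ => xi s y (fun p => e (Sum.inr (ρ, p)))
      (e (Sum.inl l)))) * (τ q.2.1 y (tpm (fun m => xi s y (fun p => e (Sum.inr (q.2.2 m, p))))) +
        -c q.2.1 q.2.2)
  obtain ⟨-, h2, h3, h4, -, h6, -⟩ := hPFC E X (Fin N ⊕ (R × (Σ j, K j)))
  have hf : ∀ q, PF (f q) := by
    intro q
    refine h4 _ _ (h6 (Fin N) (fun l y e => (q.1 l).elim 1 (fun ρ =>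
      xi s y (fun p => e (Sum.inr (ρ, p))) (e (Sum.inl l)))) ?_) (h3 _ _ ?_ (h2 _))
    · intro l
      cases hq : q.1 l with
      | none => exact h2 1
      | some ρ => exact PF_xi hPFC hs (Sum.inl l) (fun p => Sum.inr (ρ, p))
    · exact PF_tau hPFC hs (hτ q.2.1) (fun m p => Sum.inr (q.2.2 m, p))
  -- `1` is in the span at `x`
  have hx : ∀ a : Fin N → E, (fun b : R × (Σ j, K j) → E =>
      (fun (_ : X) (_ : Fin N ⊕ (R × (Σ j, K j)) → E) => (1 : ℂ)) x (Sum.elim a b)) ∈
      Submodule.span ℂ {h : (R × (Σ j, K j) → E) → ℂ | ∃ q a', h = fun b =>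
        f q x (Sum.elim a' b)} := by
    intro _
    have e1 : (fun b : R × (Σ j, K j) → E => (1 : ℂ)) = ∑ q : κ × (Fin k → R), fun b =>
        eval (fun z : R × Fin n => xi s x (fun p => b (z.1, p)) (v z.2)) (g q) *
          (τ q.1 x (tpm (fun m => xi s x (fun p => b (q.2 m, p)))) + -c q.1 q.2) := by
      funext b
      have h1 := congrArg (MvPolynomial.eval (fun z : R × Fin n => xi s x (fun p => b (z.1, p)) (v z.2))) hg
      rw [map_one, map_sum] at h1
      rw [Finset.sum_apply, ← h1]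
      refine Finset.sum_congr rfl fun q _ => ?_
      rw [map_mul, hF, sub_eq_add_neg]
      congr 4
      funext m
      have h5 : (⟨xi s x (fun p => b (q.2 m, p)), xi_mem hs x _⟩ : WS E x) =
          ∑ j, xi s x (fun p => b (q.2 m, p)) (v j) • w j := by
        conv_lhs => rw [← w.sum_repr ⟨xi s x (fun p => b (q.2 m, p)), xi_mem hs x _⟩]
        refine Finset.sum_congr rfl fun j _ => ?_
        congr 1
        exact hv j ⟨xi s x (fun p => b (q.2 m, p)), xi_mem hs x _⟩
      have h6 := congrArg (Subtype.val) h5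
      rw [Submodule.coe_sum] at h6
      exact h6.symm
    rw [e1]
    refine Submodule.sum_mem _ fun q _ => ?_
    have h1 := hD q N (Finset.single_le_sum (fun _ _ => Nat.zero_le _) (Finset.mem_univ q))
    have key : ∀ h ∈ PS (R := R) s x N, (fun b => h b *
        (τ q.1 x (tpm (fun m => xi s x (fun p => b (q.2 m, p)))) + -c q.1 q.2)) ∈
        Submodule.span ℂ {h : (R × (Σ j, K j) → E) → ℂ | ∃ q a', h = fun b =>
          f q x (Sum.elim a' b)} := by
      intro h hh
      unfold PS at hh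
      induction hh using Submodule.span_induction with
      | mem h hh =>
        obtain ⟨ρ, a, rfl⟩ := hh
        exact Submodule.subset_span ⟨(ρ, q), a, rfl⟩
      | zero =>
        refine Eq.mp (congrArg (fun t => t ∈ Submodule.span ℂ {h : (R × (Σ j, K j) → E) → ℂ |
          ∃ q a', h = fun b => f q x (Sum.elim a' b)}) ?_) (Submodule.zero_mem _)
        funext b
        simp
      | add h h' _ _ ih ih' =>
        refine Eq.mp (congrArg (fun t => t ∈ Submodule.span ℂ {h : (R × (Σ j, K j) → E) → ℂ |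
          ∃ q a', h = fun b => f q x (Sum.elim a' b)}) ?_) (Submodule.add_mem _ ih ih')
        funext b
        simp [add_mul]
      | smul a h _ ih =>
        refine Eq.mp (congrArg (fun t => t ∈ Submodule.span ℂ {h : (R × (Σ j, K j) → E) → ℂ |
          ∃ q a', h = fun b => f q x (Sum.elim a' b)}) ?_) (Submodule.smul_mem _ a ih)
        funext b
        simp [mul_assoc]
    exact key _ h1
  have hx₀ := hTP E X hINJ (Fin N) (R × (Σ j, K j)) ((Fin N → Option R) × κ × (Fin k → R)) f
    (fun _ _ => 1) hf (h2 1) x x₀ hx (fun _ => 0)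
  -- the point `b⁰`
  choose b₀ hb₀ using fun ρ => xi_surj (hGF x₀) (hA₀ ρ)
  have key : ∀ h ∈ Submodule.span ℂ {h : (R × (Σ j, K j) → E) → ℂ | ∃ q a', h = fun b =>
      f q x₀ (Sum.elim a' b)}, h (fun p => b₀ p.1 p.2) = 0 := by
    intro h hh
    induction hh using Submodule.span_induction with
    | mem h hh =>
      obtain ⟨q, a, rfl⟩ := hh
      have h1 : τ q.2.1 x₀ (tpm (fun m => xi s x₀ (fun p => b₀ (q.2.2 m) p))) = c q.2.1 q.2.2 := by
        show _ = τ q.2.1 x₀ (tpm (fun m => A₀ (q.2.2 m)))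
        congr 2
        funext m
        exact hb₀ (q.2.2 m)
      show _ * (τ q.2.1 x₀ (tpm (fun m => xi s x₀ (fun p => b₀ (q.2.2 m) p))) +
        -c q.2.1 q.2.2) = 0
      rw [h1, add_neg_cancel, mul_zero]
    | zero => rfl
    | add h h' _ _ ih ih' => rw [Pi.add_apply, ih, ih', add_zero]
    | smul a h _ ih => rw [Pi.smul_apply, ih, smul_zero]
  exact one_ne_zero (key _ hx₀)

end MP_d4c35b_ag.TW
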