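import Pool.Agent.Lib.MP_d4c35b_ag.TW.Defs

/-!
THEOREM W of MP_d4c35b_ag, module KL: the contraction lemma.
-/

set_option autoImplicit false

open scoped Manifold ContDiff Topology
open MP_d4c35b_ag.TG

namespace MP_d4c35b_ag.TW

namespace pKLAux

open MvPolynomial

/-- The content of a word. -/
noncomputable def ct {σ τ : Type} [Fintype τ] (v : τ → σ) : σ →₀ ℕ :=
  ∑ m, Finsupp.single (v m) 1

theorem ct_apply {σ τ : Type} [Fintype τ] [DecidableEq σ] (v : τ → σ) (s : σ) :
    ct v s = Fintype.card {m // v m = s} := by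
  unfold ct
  rw [Finsupp.finsetSum_apply, Fintype.card_subtype, Finset.card_filter]
  refine Finset.sum_congr rfl (fun m _ => ?_)
  rw [Finsupp.single_apply]

theorem exists_perm {σ τ : Type} [Fintype τ] (v v' : τ → σ) (h : ct v = ct v') :
    ∃ π : Equiv.Perm τ, ∀ m, v' (π m) = v m := by
  classical
  have hc : ∀ s, Fintype.card {m // v m = s} = Fintype.card {m // v' m = s} := by
    intro s
    have h1 := ct_apply v s
    have h2 := ct_apply v' s
    rw [h, h2] at h1
    convert h1.symm
  refine ⟨(Equiv.sigmaFiberEquiv v).symm.trans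
    ((Equiv.sigmaCongrRight fun s => Fintype.equivOfCardEq (hc s)).trans
      (Equiv.sigmaFiberEquiv v')), fun m => ?_⟩
  exact ((Fintype.equivOfCardEq (hc (v m))) ⟨m, rfl⟩).2

theorem exists_ct {σ : Type} (N : ℕ) : ∀ μ : σ →₀ ℕ, μ.degree = N →
    ∃ v : Fin N → σ, ct v = μ := by
  classical
  induction N with
  | zero =>
    intro μ h
    refine ⟨Fin.elim0, ?_⟩
    rw [(Finsupp.degree_eq_zero_iff μ).1 h]
    simp [ct]
  | succ N ih =>
    intro μ h
    have h1 : μ ≠ 0 := by
      intro h0
      rw [h0, map_zero] at h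
      omega
    obtain ⟨s, hs⟩ := Finsupp.ne_iff.1 h1
    rw [Finsupp.zero_apply] at hs
    have h2 : μ - Finsupp.single s 1 + Finsupp.single s 1 = μ := by
      ext x
      rw [Finsupp.add_apply, Finsupp.tsub_apply]
      by_cases hx : s = x
      · subst hx
        rw [Finsupp.single_eq_same]
        omega
      · rw [Finsupp.single_apply, if_neg hx]
        omega
    have h3 : (μ - Finsupp.single s 1).degree = N := by
      have h4 := congrArg Finsupp.degree h2
      rw [map_add, Finsupp.degree_single, h] at h4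
      omega
    obtain ⟨v, hv⟩ := ih _ h3
    refine ⟨Fin.cons s v, ?_⟩
    unfold ct at hv ⊢
    rw [Fin.sum_univ_succ]
    simp only [Fin.cons_zero, Fin.cons_succ]
    rw [hv, add_comm, h2]

theorem prod_X {σ τ : Type} [Fintype τ] (v : τ → σ) :
    ∏ m, (X (v m) : MvPolynomial σ ℂ) = monomial (ct v) 1 :=
  (monomial_sum_one _ _).symm

theorem main {σ κ : Type} [Fintype σ] [DecidableEq σ] [Fintype κ] {N k : ℕ}
    (c : κ → (Fin k → σ) → ℂ) (β : (Fin N ⊕ Fin k → σ) → ℂ)
    (hβ : ∀ i (y : Fin N → σ) (π : Equiv.Perm (Fin N ⊕ Fin k)),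
      ∑ u : Fin k → σ, β (Sum.elim y u ∘ π) * c i u = 0)
    (s : σ) (g : κ → MvPolynomial σ ℂ) (hg : ∀ i, (g i).IsHomogeneous N)
    (hs : (monomial (Finsupp.single s (N + k)) 1 : MvPolynomial σ ℂ) =
      ∑ i, g i * ∑ u : Fin k → σ, C (c i u) * ∏ j, X (u j)) :
    β (fun _ => s) = 0 := by
  classical
  obtain ⟨S, hS⟩ : ∃ S : (Fin N ⊕ Fin k → σ) → ℂ,
      S = fun v => ∑ π : Equiv.Perm (Fin N ⊕ Fin k), β (v ∘ π) := ⟨_, rfl⟩
  have hSp : ∀ v (ρ : Equiv.Perm (Fin N ⊕ Fin k)), S (v ∘ ρ) = S v := by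
    intro v ρ
    rw [hS]
    exact Fintype.sum_equiv (Equiv.mulLeft ρ) _ _ (fun π => rfl)
  have hSc : ∀ v v', ct v = ct v' → S v = S v' := by
    intro v v' h
    obtain ⟨π, hπ⟩ := exists_perm v v' h
    have h1 : v = v' ∘ π := funext (fun m => (hπ m).symm)
    rw [h1, hSp]
  obtain ⟨ℓ, hℓ⟩ : ∃ ℓ : (σ →₀ ℕ) → ℂ, ∀ v : Fin N ⊕ Fin k → σ, ℓ (ct v) = S v := by
    refine ⟨fun μ => if h : ∃ v : Fin N ⊕ Fin k → σ, ct v = μ then S h.choose else 0,
      fun v => ?_⟩
    have h : ∃ v' : Fin N ⊕ Fin k → σ, ct v' = ct v := ⟨v, rfl⟩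
    simp only
    rw [dif_pos h]
    exact hSc _ _ h.choose_spec
  obtain ⟨L, hL⟩ : ∃ L : MvPolynomial σ ℂ →ₗ[ℂ] ℂ, ∀ μ, L (monomial μ 1) = ℓ μ := by
    refine ⟨(basisMonomials σ ℂ).constr ℂ ℓ, fun μ => ?_⟩
    have h := (basisMonomials σ ℂ).constr_basis ℂ ℓ μ
    rwa [coe_basisMonomials] at h
  have hLm : ∀ μ a, L (monomial μ a) = a * ℓ μ := by
    intro μ a
    have h : (monomial μ a : MvPolynomial σ ℂ) = a • monomial μ 1 := by
      rw [smul_monomial, smul_eq_mul, mul_one]
    rw [h, map_smul, hL, smul_eq_mul]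
  have hz : ∀ i, L (g i * ∑ u : Fin k → σ, C (c i u) * ∏ j, X (u j)) = 0 := by
    intro i
    rw [← support_sum_monomial_coeff (g i), Finset.sum_mul, map_sum]
    refine Finset.sum_eq_zero (fun ν hν => ?_)
    have hdeg : ν.degree = N := by
      have h1 : Finsupp.weight (fun _ => 1) ν = N := hg i (mem_support_iff.1 hν)
      rwa [← Finsupp.degree_eq_weight_one] at h1
    obtain ⟨y, hy⟩ := exists_ct N ν hdeg
    rw [Finset.mul_sum, map_sum]
    have h2 : ∀ u : Fin k → σ, L (monomial ν (coeff ν (g i)) * (C (c i u) * ∏ j, X (u j))) =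
        coeff ν (g i) * (S (Sum.elim y u) * c i u) := by
      intro u
      have h3 : ct (Sum.elim y u : Fin N ⊕ Fin k → σ) = ν + ct u := by
        rw [← hy]
        unfold ct
        rw [Fintype.sum_sum_type]
        rfl
      rw [prod_X, C_mul_monomial, monomial_mul, hLm, ← h3, hℓ]
      ring
    rw [Finset.sum_congr rfl (fun u _ => h2 u), ← Finset.mul_sum]
    have h4 : ∑ u : Fin k → σ, S (Sum.elim y u) * c i u = 0 := by
      rw [hS]
      simp only [Finset.sum_mul]
      rw [Finset.sum_comm]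
      exact Finset.sum_eq_zero (fun π _ => hβ i y π)
    rw [h4, mul_zero]
  have h0 : L (monomial (Finsupp.single s (N + k)) 1) = 0 := by
    rw [hs, map_sum]
    exact Finset.sum_eq_zero (fun i _ => hz i)
  have h1 : ct (fun _ : Fin N ⊕ Fin k => s) = Finsupp.single s (N + k) := by
    unfold ct
    rw [Finset.sum_const, Finset.card_univ, Fintype.card_sum, Fintype.card_fin, Fintype.card_fin]
    rw [Finsupp.smul_single, smul_eq_mul, mul_one]
  rw [hL, ← h1, hℓ, hS] at h0
  simp only [Function.comp_def] at h0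
  rw [Finset.sum_const, nsmul_eq_mul, mul_eq_zero] at h0
  rcases h0 with h0 | h0
  · exfalso
    rw [Nat.cast_eq_zero, Finset.card_univ] at h0
    exact Fintype.card_ne_zero h0
  · exact h0

end pKLAux

open pKLAux MvPolynomial in
theorem pKL (hNSH : S_NSH) : S_KL := by
  classical
  intro E _ _ _ k κ _ t hk ht
  obtain ⟨n, hn⟩ : ∃ n, n = Module.finrank ℂ E := ⟨_, rfl⟩
  obtain ⟨b⟩ : Nonempty (Module.Basis (Fin n) ℂ E) := ⟨hn ▸ Module.finBasis ℂ E⟩
  obtain ⟨c, hc⟩ : ∃ c : κ → (Fin k → Fin n) → ℂ,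
      c = fun i u => t i (tpm (fun j => b.coord (u j))) := ⟨_, rfl⟩
  have hexp : ∀ i (m : MM E (Fin k)), t i m = ∑ u : Fin k → Fin n, m (fun j => b (u j)) * c i u := by
    intro i m
    have h1 : m = ∑ u : Fin k → Fin n, m (fun j => b (u j)) • tpm (fun j => b.coord (u j)) := by
      refine Module.Basis.ext_multilinear (fun _ => b) (fun w => ?_)
      rw [sum_apply, Finset.sum_eq_single w]
      · rw [smul_apply, tpm_apply]
        simp
      · intro u _ hu
        rw [smul_apply, tpm_apply]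
        obtain ⟨j, hj⟩ := Function.ne_iff.1 hu
        have h2 : ∏ i, (b.coord (u i)) (b (w i)) = 0 := by
          refine Finset.prod_eq_zero (Finset.mem_univ j) ?_
          rw [Module.Basis.coord_apply, Module.Basis.repr_self, Finsupp.single_apply,
            if_neg (Ne.symm hj)]
        rw [h2, smul_zero]
      · intro h
        exact absurd (Finset.mem_univ w) h
    conv_lhs => rw [h1]
    rw [map_sum]
    refine Finset.sum_congr rfl (fun u _ => ?_)
    rw [map_smul, smul_eq_mul, hc]
  obtain ⟨M, hkM, hM⟩ := hNSH (Fin n) κ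
    (fun i => ∑ u : Fin k → Fin n, C (c i u) * ∏ j, X (u j)) k hk (fun i => by
      refine IsHomogeneous.sum _ _ _ (fun u _ => ?_)
      have h1 : (∏ j, X (u j) : MvPolynomial (Fin n) ℂ).IsHomogeneous (∑ _j : Fin k, 1) :=
        IsHomogeneous.prod _ _ _ (fun j _ => isHomogeneous_X _ _)
      rw [Finset.sum_const, Finset.card_univ, Fintype.card_fin, smul_eq_mul, mul_one] at h1
      have h2 := (isHomogeneous_C (Fin n) (c i u)).mul h1
      rwa [zero_add] at h2) (fun z hz => by
      have h1 : (∑ j, z j • b.coord j : E →ₗ[ℂ] ℂ) = 0 := by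
        refine ht _ (fun i => ?_)
        rw [hexp]
        rw [← hz i, map_sum]
        refine Finset.sum_congr rfl (fun u _ => ?_)
        rw [map_mul, eval_C, map_prod, mul_comm]
        congr 1
        unfold pwM
        rw [tpm_apply]
        refine Finset.prod_congr rfl (fun j _ => ?_)
        rw [eval_X, LinearMap.sum_apply]
        simp [Finsupp.single_apply]
      funext j
      have h2 := congrArg (fun f : E →ₗ[ℂ] ℂ => f (b j)) h1
      simp only [LinearMap.sum_apply, LinearMap.zero_apply] at h2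
      simpa [Finsupp.single_apply] using h2)
  obtain ⟨N, hN⟩ : ∃ N, M = N + k := ⟨M - k, by omega⟩
  refine ⟨n * M + 1, ?_⟩
  intro ι _ _ hJ B hB
  by_contra hcon
  push Not at hcon
  -- a nonzero value
  obtain ⟨w, hw⟩ : ∃ w : ι → Fin n, B (fun x => b (w x)) ≠ 0 := by
    by_contra h
    push Not at h
    apply hB
    refine Module.Basis.ext_multilinear (fun _ => b) (fun w => ?_)
    rw [h w]
    rfl
  obtain ⟨s, hs⟩ : ∃ s : Fin n, M < (Finset.univ.filter (fun x => w x = s)).card := by
    obtain ⟨s, -, hs⟩ := Finset.exists_lt_card_fiber_of_mul_lt_card_of_maps_to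
      (s := (Finset.univ : Finset ι)) (t := (Finset.univ : Finset (Fin n))) (f := w) (n := M)
      (fun x _ => Finset.mem_univ _) (by
        rw [Finset.card_univ, Finset.card_univ, Fintype.card_fin]
        omega)
    exact ⟨s, hs⟩
  obtain ⟨a, ha, has⟩ : ∃ a : Fin N ⊕ Fin k → ι, Function.Injective a ∧ ∀ m, w (a m) = s := by
    have h1 : Fintype.card (Fin N ⊕ Fin k) ≤ Fintype.card {x // w x = s} := by
      rw [Fintype.card_sum, Fintype.card_fin, Fintype.card_fin, Fintype.card_subtype]
      omega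
    obtain ⟨e⟩ := Function.Embedding.nonempty_of_card_le h1
    exact ⟨fun m => (e m).1, fun m m' h => e.injective (Subtype.ext h), fun m => (e m).2⟩
  obtain ⟨g, hg, hgs⟩ := hM (Finsupp.single s M) (Finsupp.degree_single s M)
  rw [hN] at hg hgs
  have hNk : N + k - k = N := by omega
  rw [hNk] at hg
  obtain ⟨β, hβ⟩ : ∃ β : (Fin N ⊕ Fin k → Fin n) → ℂ,
      β = fun v => B (fun x => b (Function.extend a v w x)) := ⟨_, rfl⟩
  have key := main c β (fun i y π => ?_) s g hg hgs
  · rw [hβ] at key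
    apply hw
    rw [← key]
    congr 1
    funext x
    congr 1
    by_cases hx : ∃ m, a m = x
    · obtain ⟨m, rfl⟩ := hx
      rw [ha.extend_apply, has]
    · rw [Function.extend_apply' _ _ _ hx]
  · -- a contraction
    obtain ⟨r, hr⟩ : ∃ r : Fin k → ι, ∀ j, r j = a (π.symm (Sum.inr j)) :=
      ⟨fun j => a (π.symm (Sum.inr j)), fun _ => rfl⟩
    have hrinj : Function.Injective r := by
      intro j j' h
      rw [hr, hr] at h
      exact Sum.inr_injective (π.symm.injective (ha h))
    obtain ⟨e, he1, he2⟩ : ∃ e : ι ≃ ((Set.range r)ᶜ : Set ι) ⊕ Fin k,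
        (∀ x', e.symm (Sum.inl x') = x'.1) ∧ ∀ j, e.symm (Sum.inr j) = r j := by
      refine ⟨((Equiv.sumComm _ _).trans ((Equiv.sumCongr (Equiv.ofInjective r hrinj)
        (Equiv.refl _)).trans (Equiv.Set.sumCompl (Set.range r)))).symm, ?_, ?_⟩
      · intro x'
        simp
      · intro j
        simp
    have hz := hcon i ((Set.range r)ᶜ : Set ι) inferInstance inferInstance e
    have hw' : ∀ (x' : ((Set.range r)ᶜ : Set ι)) (u u' : Fin k → Fin n),
        Function.extend a (Sum.elim y u ∘ π) w x'.1 = Function.extend a (Sum.elim y u' ∘ π) w x'.1 := by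
      intro x' u u'
      by_cases hx : ∃ m, a m = x'.1
      · obtain ⟨m, hm⟩ := hx
        rw [← hm, ha.extend_apply, ha.extend_apply, Function.comp_apply, Function.comp_apply]
        rcases h : π m with p | j
        · rfl
        · exfalso
          refine x'.2 ⟨j, ?_⟩
          rw [hr, ← h, Equiv.symm_apply_apply, hm]
      · rw [Function.extend_apply' _ _ _ hx, Function.extend_apply' _ _ _ hx]
    have h1 := congrArg (fun m => m (fun x' : ((Set.range r)ᶜ : Set ι) =>
      b (Function.extend a (Sum.elim y (fun _ => s) ∘ π) w x'.1))) hz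
    simp only [LinearMap.compMultilinearMap_apply, zero_apply] at h1
    rw [hexp] at h1
    rw [← h1]
    refine Finset.sum_congr rfl (fun u _ => ?_)
    congr 1
    rw [MultilinearMap.currySum_apply', MultilinearMap.domDomCongr_apply, hβ]
    simp only
    congr 1
    funext x
    obtain ⟨z, rfl⟩ := e.symm.surjective x
    rw [Equiv.apply_symm_apply]
    rcases z with x' | j
    · rw [he1, Sum.elim_inl, hw' x' u (fun _ => s)]
    · rw [he2, Sum.elim_inr, hr, ha.extend_apply, Function.comp_apply, Equiv.apply_symm_apply,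
        Sum.elim_inr]

end MP_d4c35b_ag.TW
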