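import Pool.Agent.Lib.MP_d4c35b_ag.TW.Defs

/-!
THEOREM W of MP_d4c35b_ag, module LOC: differentiability of a continuous solution of a system
with injective partial derivative.
-/

set_option autoImplicit false

open scoped Manifold ContDiff Topology
open MP_d4c35b_ag.TG

namespace MP_d4c35b_ag.TW

open Asymptotics Filter in
theorem pLOC : S_LOC := by
  intro E V F _ _ _ _ _ _ _ _ _ Φ μ x₀ L hΦ hinj hμ h0
  have hker : LinearMap.ker ((L.comp (ContinuousLinearMap.inr ℂ E V) : V →L[ℂ] F) : V →ₗ[ℂ] F)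
      = ⊥ := by
    rw [LinearMap.ker_eq_bot']
    intro v hv
    exact hinj v hv
  obtain ⟨R₀, hR₀⟩ := LinearMap.exists_leftInverse_of_injective _ hker
  obtain ⟨R, hR⟩ : ∃ R : F →L[ℂ] V, ∀ v : V, R (L (0, v)) = v :=
    ⟨LinearMap.toContinuousLinearMap R₀, fun v => by
      have := LinearMap.congr_fun hR₀ v
      simpa using this⟩
  have hlit := hΦ.isLittleO
  have ht : Tendsto (fun x => (x, μ x)) (𝓝 x₀) (𝓝 (x₀, μ x₀)) := by
    exact (continuousAt_id.prodMk hμ).tendsto
  have h1 := hlit.comp_tendsto ht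
  have hz : Φ (x₀, μ x₀) = 0 := h0.self_of_nhds
  have h2 : (fun x => L (x - x₀, μ x - μ x₀)) =o[𝓝 x₀] fun x => (x - x₀, μ x - μ x₀) := by
    refine (h1.neg_left).congr' ?_ ?_
    · filter_upwards [h0] with x hx
      simp [Function.comp, hx, hz]
    · exact Eventually.of_forall fun x => by simp [Function.comp]
  have hsplit : ∀ x, R (L (x - x₀, μ x - μ x₀)) = μ x - μ x₀ + R (L (x - x₀, 0)) := by
    intro x
    have : ((x - x₀, μ x - μ x₀) : E × V) = (0, μ x - μ x₀) + (x - x₀, 0) := by simp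
    rw [this, map_add, map_add, hR]
  have h3 : (fun x => μ x - μ x₀ + R (L (x - x₀, 0))) =o[𝓝 x₀]
      fun x => (x - x₀, μ x - μ x₀) := by
    have := (R.isBigO_comp (fun x => L (x - x₀, μ x - μ x₀)) (𝓝 x₀)).trans_isLittleO h2
    exact this.congr_left hsplit
  have h4 : (fun x => ((0 : E), μ x - μ x₀ + R (L (x - x₀, 0)))) =o[𝓝 x₀]
      fun x => (x - x₀, μ x - μ x₀) :=
    (isLittleO_zero _ _).prod_left h3
  have h5 : (fun x => (x - x₀, μ x - μ x₀)) =O[𝓝 x₀] fun x => x - x₀ := by
    refine h4.right_isBigO_sub.trans ?_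
    have h6 : (fun x => (x - x₀, -(R (L (x - x₀, 0))))) =O[𝓝 x₀] fun x => x - x₀ := by
      refine (isBigO_refl _ _).prod_left ?_
      have := ((R.comp (L.comp (ContinuousLinearMap.inl ℂ E V))).isBigO_comp
        (fun x => x - x₀) (𝓝 x₀)).neg_left
      exact this.congr_left fun x => by simp
    exact h6.congr_left fun x => by simp
  have h7 := h3.trans_isBigO h5
  have h8 : HasFDerivAt μ (-(R.comp (L.comp (ContinuousLinearMap.inl ℂ E V)))) x₀ := by
    refine HasFDerivAt.of_isLittleO ?_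
    exact h7.congr_left fun x => by simp
  exact h8.differentiableAt

end MP_d4c35b_ag.TW
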