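import Pool.Agent.Lib.MP_d4c35b_ag.TW.Defs2

/-!
THEOREM W of MP_d4c35b_ag: the module LSEC, holomorphic local solutions of `m • θ(u) = c`.
-/

set_option autoImplicit false

open scoped Manifold ContDiff Topology
open Function Set

namespace MP_d4c35b_ag.TW

open MP_d4c35b_ag.TG

namespace pLSECAux

variable {r k : ℕ} {κ : Type}

/-- the value of the tensors on the diagonal -/
noncomputable def ev (z : Fin r → ℂ) (t : κ → (Fin k → Fin r) → ℂ) (i : κ) : ℂ :=
  ∑ J : Fin k → Fin r, (∏ a, z (J a)) * t i J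

theorem act_mul (γ γ' : Matrix (Fin r) (Fin r) ℂ) (t : κ → (Fin k → Fin r) → ℂ) :
    act (γ * γ') t = act γ (act γ' t) := by
  funext i J
  unfold act
  have h1 : ∀ L : Fin k → Fin r, (∏ a, (γ * γ') (J a) (L a)) =
      ∑ M : Fin k → Fin r, ∏ a, γ (J a) (M a) * γ' (M a) (L a) := by
    intro L
    simp only [Matrix.mul_apply]
    rw [Finset.prod_univ_sum]
    simp
  simp only [h1, Finset.sum_mul, Finset.mul_sum]
  rw [Finset.sum_comm]
  refine Finset.sum_congr rfl fun M _ => Finset.sum_congr rfl fun L _ => ?_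
  rw [Finset.prod_mul_distrib]
  ring

theorem act_one (t : κ → (Fin k → Fin r) → ℂ) :
    act (1 : Matrix (Fin r) (Fin r) ℂ) t = t := by
  funext i J
  unfold act
  rw [Finset.sum_eq_single J]
  · simp
  · intro L _ hL
    obtain ⟨a, ha⟩ := Function.ne_iff.1 hL
    have h1 : (∏ b, (1 : Matrix (Fin r) (Fin r) ℂ) (J b) (L b)) = 0 :=
      Finset.prod_eq_zero (Finset.mem_univ a) (Matrix.one_apply_ne (Ne.symm ha))
    rw [h1, zero_mul]
  · intro h
    exact absurd (Finset.mem_univ J) h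

theorem ev_act (z : Fin r → ℂ) (m : Matrix (Fin r) (Fin r) ℂ) (t : κ → (Fin k → Fin r) → ℂ)
    (i : κ) : ev z (act m t) i = ev (Matrix.vecMul z m) t i := by
  unfold ev act
  have h1 : ∀ L : Fin k → Fin r, (∏ a, (Matrix.vecMul z m) (L a)) =
      ∑ J : Fin k → Fin r, ∏ a, z (J a) * m (J a) (L a) := by
    intro L
    simp only [Matrix.vecMul, dotProduct]
    rw [Finset.prod_univ_sum]
    simp
  simp only [h1, Finset.sum_mul, Finset.mul_sum]
  rw [Finset.sum_comm]
  refine Finset.sum_congr rfl fun M _ => Finset.sum_congr rfl fun L _ => ?_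
  rw [Finset.prod_mul_distrib]
  ring

theorem ev_zero (hk : 1 ≤ k) (t : κ → (Fin k → Fin r) → ℂ) (i : κ) : ev 0 t i = 0 := by
  unfold ev
  refine Finset.sum_eq_zero fun J _ => ?_
  rw [Finset.prod_eq_zero (Finset.mem_univ (⟨0, hk⟩ : Fin k)) rfl, zero_mul]

theorem ev_smul (a : ℂ) (z : Fin r → ℂ) (t : κ → (Fin k → Fin r) → ℂ) (i : κ) :
    ev (a • z) t i = a ^ k * ev z t i := by
  unfold ev
  rw [Finset.mul_sum]
  refine Finset.sum_congr rfl fun J _ => ?_
  simp only [Pi.smul_apply, smul_eq_mul]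
  rw [Finset.prod_mul_distrib]
  simp only [Finset.prod_const, Finset.card_univ, Fintype.card_fin]
  ring

theorem isUnit_of_act (hk : 1 ≤ k) {c t : κ → (Fin k → Fin r) → ℂ} (hc : NC c)
    {m : Matrix (Fin r) (Fin r) ℂ} (hm : act m t = c) : IsUnit m := by
  rw [Matrix.isUnit_iff_isUnit_det, isUnit_iff_ne_zero]
  intro h0
  obtain ⟨z, hz, hzm⟩ := Matrix.exists_vecMul_eq_zero_iff.2 h0
  refine hz (hc z fun i => ?_)
  have h1 := ev_act z m t i
  rw [hm, hzm, ev_zero hk] at h1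
  exact h1

/-- the stabiliser of the tensors -/
def stab (c : κ → (Fin k → Fin r) → ℂ) : Subgroup (Matrix (Fin r) (Fin r) ℂ)ˣ where
  carrier := {γ | act (γ : Matrix (Fin r) (Fin r) ℂ) c = c}
  mul_mem' := by
    intro a b ha hb
    show act ((a * b : (Matrix (Fin r) (Fin r) ℂ)ˣ) : Matrix (Fin r) (Fin r) ℂ) c = c
    rw [Units.val_mul, act_mul]
    have ha' : act (a : Matrix (Fin r) (Fin r) ℂ) c = c := ha
    have hb' : act (b : Matrix (Fin r) (Fin r) ℂ) c = c := hb
    rw [hb', ha']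
  one_mem' := by
    show act ((1 : (Matrix (Fin r) (Fin r) ℂ)ˣ) : Matrix (Fin r) (Fin r) ℂ) c = c
    rw [Units.val_one, act_one]
  inv_mem' := by
    intro a ha
    have ha' : act (a : Matrix (Fin r) (Fin r) ℂ) c = c := ha
    show act ((a⁻¹ : (Matrix (Fin r) (Fin r) ℂ)ˣ) : Matrix (Fin r) (Fin r) ℂ) c = c
    conv_lhs => rw [← ha', ← act_mul]
    rw [← Units.val_mul, inv_mul_cancel, Units.val_one, act_one]

theorem ev_cont {E : Type} [NormedAddCommGroup E] [NormedSpace ℂ E]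
    {θ : E → κ → (Fin k → Fin r) → ℂ} {u : E}
    (hθ : ∀ i L, ContinuousAt (fun v => θ v i L) u) (z : Fin r → ℂ) (i : κ) :
    ContinuousAt (fun p : E × (Fin r → ℂ) => ev p.2 (θ p.1) i) (u, z) := by
  unfold ev
  refine tendsto_finsetSum _ fun J _ => ?_
  refine Filter.Tendsto.mul ?_ ?_
  · exact tendsto_finsetProd _ fun m _ =>
      (((continuous_apply (J m)).comp continuous_snd).continuousAt)
  · exact ContinuousAt.comp (f := fun p : E × (Fin r → ℂ) => p.1) (g := fun v => θ v i J)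
      (hθ i J) continuousAt_fst

theorem bound {E : Type} [NormedAddCommGroup E] [NormedSpace ℂ E] [Fintype κ] (hk : 1 ≤ k)
    (c : κ → (Fin k → Fin r) → ℂ) (θ : E → κ → (Fin k → Fin r) → ℂ) (u : E)
    (hθ : ∀ i L, ContinuousAt (fun v => θ v i L) u) (hN : NC (θ u)) :
    ∃ C : ℝ, ∀ᶠ u' in 𝓝 u, ∀ m : Fin r → Fin r → ℂ, act (Matrix.of m) (θ u') = c →
      ‖m‖ ≤ C := by
  set f : E → (Fin r → ℂ) → ℝ := fun v z => ∑ i, ‖ev z (θ v) i‖ with hf
  have hfc : ∀ z, ContinuousAt (fun p : E × (Fin r → ℂ) => f p.1 p.2) (u, z) := by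
    intro z
    simp only [hf]
    exact tendsto_finsetSum _ fun i _ => (ev_cont hθ z i).norm
  have hf0 : ∀ v z, 0 ≤ f v z := fun v z => Finset.sum_nonneg fun i _ => norm_nonneg _
  have hpos : ∀ z ∈ Metric.sphere (0 : Fin r → ℂ) 1, 0 < f u z := by
    intro z hz
    refine lt_of_le_of_ne (hf0 u z) fun h => ?_
    have h1 : ∀ i ∈ (Finset.univ : Finset κ), ‖ev z (θ u) i‖ = 0 :=
      (Finset.sum_eq_zero_iff_of_nonneg fun i _ => norm_nonneg _).1 h.symm
    have h2 : z = 0 := hN z fun i => norm_eq_zero.1 (h1 i (Finset.mem_univ i))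
    rw [h2] at hz
    simp at hz
  have hcz : Continuous (f u) := by
    rw [continuous_iff_continuousAt]
    intro z
    exact ContinuousAt.comp (f := fun z => (u, z)) (hfc z)
      (continuousAt_const.prodMk continuousAt_id)
  obtain ⟨δ, hδ, hδf⟩ : ∃ δ : ℝ, 0 < δ ∧ ∀ z ∈ Metric.sphere (0 : Fin r → ℂ) 1, δ ≤ f u z := by
    rcases (Metric.sphere (0 : Fin r → ℂ) 1).eq_empty_or_nonempty with he | hne
    · exact ⟨1, one_pos, fun z hz => by rw [he] at hz; exact absurd hz (Set.notMem_empty z)⟩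
    · obtain ⟨z₀, hz₀, hmin⟩ := (isCompact_sphere (0 : Fin r → ℂ) 1).exists_isMinOn hne
        hcz.continuousOn
      exact ⟨f u z₀, hpos z₀ hz₀, fun z hz => hmin hz⟩
  have key : ∀ᶠ v in 𝓝 u, ∀ z ∈ Metric.sphere (0 : Fin r → ℂ) 1, δ / 2 < f v z := by
    refine IsCompact.eventually_forall_of_forall_eventually (isCompact_sphere _ _) ?_
    intro z hz
    exact (hfc z).eventually_const_lt (by have := hδf z hz; show δ / 2 < f u z; linarith)
  set C₀ : ℝ := ∑ i, ‖c i‖ with hC₀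
  have hC0 : 0 ≤ C₀ := Finset.sum_nonneg fun i _ => norm_nonneg _
  refine ⟨max 1 (C₀ / (δ / 2)), ?_⟩
  filter_upwards [key] with v hv m hm
  rw [pi_norm_le_iff_of_nonneg (le_trans zero_le_one (le_max_left _ _))]
  intro a
  by_cases hz1 : ‖m a‖ ≤ 1
  · exact hz1.trans (le_max_left _ _)
  · refine le_trans ?_ (le_max_right _ _)
    have hz1' : 1 < ‖m a‖ := not_le.1 hz1
    have hz0 : (0 : ℝ) < ‖m a‖ := lt_trans one_pos hz1'
    have hzc : ((‖m a‖ : ℝ) : ℂ) ≠ 0 := by exact_mod_cast hz0.ne'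
    set w : Fin r → ℂ := ((‖m a‖ : ℝ) : ℂ)⁻¹ • m a with hw
    have hws : w ∈ Metric.sphere (0 : Fin r → ℂ) 1 := by
      rw [mem_sphere_zero_iff_norm, hw, norm_smul, norm_inv, Complex.norm_real, norm_norm]
      exact inv_mul_cancel₀ hz0.ne'
    have h1 := hv w hws
    have h2 : m a = ((‖m a‖ : ℝ) : ℂ) • w := by
      rw [hw, smul_smul, mul_inv_cancel₀ hzc, one_smul]
    have h3 : f v (m a) = ‖m a‖ ^ k * f v w := by
      simp only [hf]
      rw [Finset.mul_sum]
      refine Finset.sum_congr rfl fun i _ => ?_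
      conv_lhs => rw [h2, ev_smul, norm_mul, norm_pow, Complex.norm_real, norm_norm]
    have h4 : f v (m a) ≤ C₀ := by
      simp only [hf, hC₀]
      refine Finset.sum_le_sum fun i _ => ?_
      have h5 : ev (m a) (θ v) i = c i (fun _ => a) := by
        have h6 := congrFun (congrFun hm i) (fun _ => a)
        exact h6
      rw [h5]
      exact norm_le_pi_norm (c i) _
    have h7 : ‖m a‖ ≤ ‖m a‖ ^ k := le_self_pow₀ hz1'.le (by omega)
    rw [le_div_iff₀ (by positivity)]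
    have h8 : ‖m a‖ * (δ / 2) ≤ ‖m a‖ ^ k * f v w :=
      mul_le_mul h7 h1.le (by positivity) (by positivity)
    linarith [h3, h4, h8]

end pLSECAux

open pLSECAux in
theorem pLSEC (hGRP : S_GRP) (hLOC : S_LOC) (hSEC : S_SEC) (hDER : S_DER) : S_LSEC := by
  intro E _ _ _ r k κ _ c θ O hk hO hc hθ hN hex u₁ hu₁
  have hfin : Set.Finite {γ : Matrix (Fin r) (Fin r) ℂ |
      ∀ i j, ∑ l : Fin k → Fin r, (∏ m, γ (j m) (l m)) * c i l = c i j} :=
    (hGRP r k κ c hk hc).1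
  have hFin : Finite (stab c) := by
    have : Finite {γ : Matrix (Fin r) (Fin r) ℂ |
      ∀ i j, ∑ l : Fin k → Fin r, (∏ m, γ (j m) (l m)) * c i l = c i j} := hfin
    refine Finite.of_injective (β := {γ : Matrix (Fin r) (Fin r) ℂ |
      ∀ i j, ∑ l : Fin k → Fin r, (∏ m, γ (j m) (l m)) * c i l = c i j})
      (fun g : stab c => ⟨((g : (Matrix (Fin r) (Fin r) ℂ)ˣ) : Matrix (Fin r) (Fin r) ℂ),
        fun i j => congrFun (congrFun g.2 i) j⟩) ?_
    intro g g' h
    have h1 := congrArg Subtype.val h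
    exact Subtype.ext (Units.ext h1)
  set ac : stab c → (Fin r → Fin r → ℂ) → (Fin r → Fin r → ℂ) := fun g m =>
    Matrix.of.symm (((g : (Matrix (Fin r) (Fin r) ℂ)ˣ) : Matrix (Fin r) (Fin r) ℂ) *
      Matrix.of m) with hac
  have hacof : ∀ g m, Matrix.of (ac g m) =
      ((g : (Matrix (Fin r) (Fin r) ℂ)ˣ) : Matrix (Fin r) (Fin r) ℂ) * Matrix.of m :=
    fun g m => rfl
  set Φ : E × (Fin r → Fin r → ℂ) → (κ → (Fin k → Fin r) → ℂ) := fun p =>
    act (Matrix.of p.2) (θ p.1) - c with hΦ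
  have hΦ0 : ∀ u m, Φ (u, m) = 0 ↔ act (Matrix.of m) (θ u) = c := fun u m => sub_eq_zero
  have hθc : ∀ u ∈ O, ∀ i L, ContinuousAt (fun v => θ v i L) u :=
    fun u hu i L => (hθ u hu i L).continuousAt
  obtain ⟨m₁, hm₁⟩ := hex u₁ hu₁
  obtain ⟨O', μ, hO', hu', hsub, hμ1, hμ⟩ := hSEC E (Fin r → Fin r → ℂ)
    (κ → (Fin k → Fin r) → ℂ) (stab c) ac O Φ
    (by
      intro m
      apply Matrix.of.injective
      rw [hacof]
      show ((1 : (Matrix (Fin r) (Fin r) ℂ)ˣ) : Matrix (Fin r) (Fin r) ℂ) * Matrix.of m = _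
      rw [Units.val_one, Matrix.one_mul])
    (by
      intro g h m
      apply Matrix.of.injective
      rw [hacof, hacof, hacof, ← Matrix.mul_assoc, Subgroup.coe_mul, Units.val_mul])
    (by
      intro g
      have h1 : Continuous (fun m : Fin r → Fin r → ℂ =>
        ((g : (Matrix (Fin r) (Fin r) ℂ)ˣ) : Matrix (Fin r) (Fin r) ℂ) * Matrix.of m) :=
        continuous_const.matrix_mul continuous_id
      exact h1)
    hO
    (by
      intro u hu m
      refine tendsto_pi_nhds.2 fun i => tendsto_pi_nhds.2 fun J => ?_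
      show ContinuousAt (fun p : E × (Fin r → Fin r → ℂ) =>
        (∑ L : Fin k → Fin r, (∏ a, p.2 (J a) (L a)) * θ p.1 i L) - c i J) (u, m)
      refine ContinuousAt.sub ?_ continuousAt_const
      refine tendsto_finsetSum _ fun L _ => ?_
      refine Filter.Tendsto.mul ?_ ?_
      · refine tendsto_finsetProd _ fun a _ => ?_
        have h1 : Continuous (fun p : E × (Fin r → Fin r → ℂ) => p.2 (J a) (L a)) := by
          fun_prop
        exact h1.continuousAt
      · exact ContinuousAt.comp (f := fun p : E × (Fin r → Fin r → ℂ) => p.1)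
          (g := fun v => θ v i L) (hθc u hu i L) continuousAt_fst)
    (by
      intro u hu
      obtain ⟨m, hm⟩ := hex u hu
      exact ⟨Matrix.of.symm m, (hΦ0 _ _).2 hm⟩)
    (by
      intro u hu m g h
      rw [hΦ0] at h ⊢
      rw [hacof, act_mul, h]
      exact g.2)
    (by
      intro u hu m m' h h'
      rw [hΦ0] at h h'
      obtain ⟨x, hx⟩ := isUnit_of_act hk hc h
      obtain ⟨x', hx'⟩ := isUnit_of_act hk hc h'
      refine ⟨⟨x' * x⁻¹, ?_⟩, ?_⟩
      · show act ((x' * x⁻¹ : (Matrix (Fin r) (Fin r) ℂ)ˣ) : Matrix (Fin r) (Fin r) ℂ) c = c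
        conv_lhs => rw [← h, ← hx, ← act_mul, ← Units.val_mul, inv_mul_cancel_right, hx']
        exact h'
      · apply Matrix.of.injective
        rw [hacof]
        show Matrix.of m' = ((x' * x⁻¹ : (Matrix (Fin r) (Fin r) ℂ)ˣ) :
          Matrix (Fin r) (Fin r) ℂ) * Matrix.of m
        rw [← hx, ← hx', ← Units.val_mul, inv_mul_cancel_right])
    (by
      intro u hu m g h hg
      rw [hΦ0] at h
      obtain ⟨x, hx⟩ := isUnit_of_act hk hc h
      have h1 := hacof g m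
      rw [hg, ← hx, ← Units.val_mul] at h1
      have h2 : x = (g : (Matrix (Fin r) (Fin r) ℂ)ˣ) * x := Units.ext h1
      have h3 : (g : (Matrix (Fin r) (Fin r) ℂ)ˣ) = 1 := by
        have h4 : (g : (Matrix (Fin r) (Fin r) ℂ)ˣ) * x = 1 * x := by rw [← h2, one_mul]
        exact mul_right_cancel h4
      exact Subtype.ext h3)
    (by
      intro u hu
      obtain ⟨C, hC⟩ := bound hk c θ u (hθc u hu) (hN u hu)
      refine ⟨C, ?_⟩
      filter_upwards [hC] with v hv m hm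
      exact hv m ((hΦ0 _ _).1 hm))
    u₁ hu₁ (Matrix.of.symm m₁) ((hΦ0 _ _).2 hm₁)
  refine ⟨O', μ, hO', hu', hsub, fun u hu => ?_⟩
  have hsol : act (Matrix.of (μ u)) (θ u) = c := (hΦ0 _ _).1 (hμ u hu).2
  refine ⟨?_, hsol⟩
  obtain ⟨x, hx⟩ := isUnit_of_act hk hc hsol
  obtain ⟨L, hL, hL0⟩ := hDER E r k κ c θ u (μ u)
    ((x⁻¹ : (Matrix (Fin r) (Fin r) ℂ)ˣ) : Matrix (Fin r) (Fin r) ℂ) (hθ u (hsub hu)) hsol
    (by rw [← hx, ← Units.val_mul, inv_mul_cancel, Units.val_one]) (hGRP r k κ c hk hc).2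
  refine hLOC E (Fin r → Fin r → ℂ) (κ → (Fin k → Fin r) → ℂ) Φ μ u L hL hL0 (hμ u hu).1 ?_
  filter_upwards [hO'.mem_nhds hu] with v hv
  exact (hμ v hv).2

end MP_d4c35b_ag.TW
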