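import Pool.Agent.Lib.MP_d4c35b_ag.TW.NZ

set_option autoImplicit false
set_option linter.unusedSectionVars false

open scoped Manifold ContDiff Topology
open Function Set

namespace MP_d4c35b_ag.TW

open MP_d4c35b_ag.TG

variable {E : Type} [NormedAddCommGroup E] [NormedSpace ℂ E] [FiniteDimensional ℂ E]
variable {X : Type} [TopologicalSpace X] [ChartedSpace E X] [IsManifold 𝓘(ℂ, E) ω X]

/-- the local 1-forms obtained from a tensor field by filling all slots but one -/
theorem H1at_cv {κ : Type} [Fintype κ] {s : X → MM E (Option κ)} (hs : HC s) (x₁ : X) (b : κ → E)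
    {x : X} (hx : x ∈ (chartAt E x₁).source) :
    H1at (fun z => cv (s z) (fun i => toT x₁ z (b i))) x := by
  intro v
  have h1 := da_HC (f := fun z : X => z) (HC_iff.mp hs x) mdifferentiableAt_id
    (c := fun z (o : Option κ) => o.elim v (fun i => tangentCoordChange 𝓘(ℂ, E) x₁ x z (b i)))
    (by
      intro o
      cases o with
      | none => exact mdifferentiableAt_const
      | some i => exact da_tcc hx (mem_chart_source E x) (b i))
  refine h1.congr_of_eventuallyEq ?_
  filter_upwards [nhds_src x₁ x hx] with z hz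
  rw [cv_apply]
  congr 1
  funext o
  cases o with
  | none => rfl
  | some i => exact toT_change hz.1 hz.2 _

theorem da_tpm {k : ℕ} {w : Fin k → X → E →ₗ[ℂ] ℂ} {τ : X → MM E (Fin k) →ₗ[ℂ] ℂ} (hτ : HK τ)
    {x : X} (hw : ∀ a, H1at (w a) x) : DA (E := E) (fun z => τ z (tpm (fun a => w a z))) x := by
  have h1 := da_HK (f := fun z : X => z) (HK_iff.mp hτ x) mdifferentiableAt_id
      (m := fun z => (tpm (fun a => w a z)).compLinearMap
        (fun _ => (toT x z : E →L[ℂ] E).toLinearMap))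
      (fun v => by
        have h2 : DA (E := E) (fun z => ∏ a, w a z (toT x z (v a))) x :=
          da_prod fun a => hw a (v a)
        refine h2.congr_of_eventuallyEq (Filter.Eventually.of_forall fun z => ?_)
        simp only [MultilinearMap.compLinearMap_apply, tpm_apply]
        rfl)
  refine h1.congr_of_eventuallyEq ?_
  filter_upwards [(chartAt E x).open_source.mem_nhds (mem_chart_source E x)] with z hz
  congr 1
  ext v
  simp only [MultilinearMap.compLinearMap_apply, tpm_apply]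
  refine Finset.prod_congr rfl fun a _ => ?_
  exact congrArg (w a z) (toT_ofT hz _).symm

theorem diff_symm {x₁ x : X} {F : X → ℂ} (hx : x ∈ (chartAt E x₁).source)
    (h : DA (E := E) F x) :
    DifferentiableAt ℂ (fun u => F ((chartAt E x₁).symm u)) (chartAt E x₁ x) := by
  have h3 : MDifferentiableAt 𝓘(ℂ, E) 𝓘(ℂ, E) (chartAt E x₁).symm (chartAt E x₁ x) :=
    (mdifferentiableOn_atlas_symm (chart_mem_atlas E x₁) (chartAt E x₁ x)
      ((chartAt E x₁).map_source hx)).mdifferentiableAt
      ((chartAt E x₁).open_target.mem_nhds ((chartAt E x₁).map_source hx))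
  have h1' : DA (E := E) F ((chartAt E x₁).symm (chartAt E x₁ x)) := by
    rw [(chartAt E x₁).left_inv hx]; exact h
  exact mdifferentiableAt_iff_differentiableAt.mp (h1'.comp (chartAt E x₁ x) h3)

theorem pLSX (hNZ : S_NZ) (hJN : S_JN) (hLSEC : S_LSEC) (hGF : S_GF) : S_LSX := by
  classical
  intro E _ _ _ X _ _ _ hI k κ _ τ x₀ hk hτ h0
  obtain ⟨r, K, _, _, s, hs, hg⟩ := hGF E X hI
  have hrank : ∀ x : X, Module.finrank ℂ (WS E x) = r := by
    intro x
    obtain ⟨b, hli, hsp⟩ := hg x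
    rw [← hsp, finrank_span_eq_card hli, Fintype.card_fin]
  obtain ⟨b₀, hli, hsp⟩ := hg x₀
  set w₀ : Fin r → E →ₗ[ℂ] ℂ := fun j => cv (s j x₀) (b₀ j) with hw₀
  set c : κ → (Fin k → Fin r) → ℂ := fun i J => τ i x₀ (tpm (fun a => w₀ (J a))) with hc
  have hsum : ∀ (x : X) (w : Fin r → E →ₗ[ℂ] ℂ) (z : Fin r → ℂ) (i : κ),
      ∑ J : Fin k → Fin r, (∏ a, z (J a)) * τ i x (tpm (fun a => w (J a))) =
        τ i x (pwM k (∑ j, z j • w j)) := by
    intro x w z i
    have h1 : pwM k (∑ j, z j • w j) =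
        ∑ u : Fin k → Fin r, (∏ m, z (u m)) • tpm (fun m => w (u m)) :=
      tpm_sum w (fun _ => z)
    rw [h1, map_sum]
    refine Finset.sum_congr rfl fun J _ => ?_
    rw [map_smul, smul_eq_mul]
  have hact : ∀ (x : X) (w : Fin r → E →ₗ[ℂ] ℂ) (m : Matrix (Fin r) (Fin r) ℂ) (i : κ)
      (J : Fin k → Fin r), τ i x (tpm (fun a => ∑ l, m (J a) l • w l)) =
        act m (fun i L => τ i x (tpm (fun a => w (L a)))) i J := by
    intro x w m i J
    rw [tpm_sum w (fun a => m (J a)), map_sum]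
    refine Finset.sum_congr rfl fun L _ => ?_
    rw [map_smul, smul_eq_mul]
  refine ⟨r, c, ?_, hrank, ?_⟩
  · intro z hz
    have h1 : ∑ j, z j • w₀ j = 0 := h0 _ (fun i => by rw [← hsum]; exact hz i)
    funext j
    exact Fintype.linearIndependent_iff.mp hli z h1 j
  intro x₁
  obtain ⟨b₁, hli₁, hsp₁⟩ := hg x₁
  set w : Fin r → X → E →ₗ[ℂ] ℂ := fun l x => cv (s l x) (fun i => toT x₁ x (b₁ l i)) with hw
  have hwH : ∀ l, ∀ x ∈ (chartAt E x₁).source, H1at (w l) x := fun l x hx =>
    H1at_cv (hs l) x₁ (b₁ l) hx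
  have hwW : ∀ l x, w l x ∈ WS E x := fun l x =>
    Submodule.subset_span ⟨K l, inferInstance, s l, _, hs l, rfl⟩
  have hw1 : ∀ l, w l x₁ = cv (s l x₁) (b₁ l) := by
    intro l
    simp only [hw, toT_self]
  obtain ⟨v, hv⟩ := dual_vec hli₁
  -- linear independence near `x₁`
  have hdet : ∀ᶠ x in 𝓝 x₁, (Matrix.of fun l j => w l x (toT x₁ x (v j))).det ≠ 0 := by
    have h1 : ContinuousAt (fun x => (Matrix.of fun l j => w l x (toT x₁ x (v j))).det) x₁ := by
      have h2 : ContinuousAt (fun x => (Matrix.of fun l j => w l x (toT x₁ x (v j)) :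
          Matrix (Fin r) (Fin r) ℂ)) x₁ := by
        refine continuousAt_pi.mpr fun l => continuousAt_pi.mpr fun j => ?_
        exact (hwH l x₁ (mem_chart_source E x₁) (v j)).continuousAt
      exact (Continuous.matrix_det continuous_id).continuousAt.comp h2
    refine h1.eventually_ne ?_
    have h3 : (Matrix.of fun l j => w l x₁ (toT x₁ x₁ (v j)) : Matrix (Fin r) (Fin r) ℂ) = 1 := by
      ext l j
      rw [Matrix.of_apply, toT_self, hw1, hv, Matrix.one_apply]
    rw [h3, Matrix.det_one]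
    exact one_ne_zero
  obtain ⟨U₁, hU₁, hU₁o, hxU₁⟩ := mem_nhds_iff.mp hdet
  set U₀ := U₁ ∩ (chartAt E x₁).source with hU₀
  have hU₀o : IsOpen U₀ := hU₁o.inter (chartAt E x₁).open_source
  have hliU : ∀ x ∈ U₀, LinearIndependent ℂ (fun l => w l x) := by
    intro x hx
    rw [Fintype.linearIndependent_iff]
    intro z hz
    have hd : (Matrix.of fun l j => w l x (toT x₁ x (v j)) : Matrix (Fin r) (Fin r) ℂ).det ≠ 0 :=
      hU₁ hx.1
    have h4 : Matrix.vecMul z (Matrix.of fun l j => w l x (toT x₁ x (v j))) = 0 := by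
      funext j
      have h5 := congrArg (fun L : E →ₗ[ℂ] ℂ => L (toT x₁ x (v j))) hz
      simpa [Matrix.vecMul, dotProduct, LinearMap.sum_apply] using h5
    have h6 := Matrix.eq_zero_of_vecMul_eq_zero hd h4
    exact fun i => congrFun h6 i
  have hspU : ∀ x ∈ U₀, Submodule.span ℂ (range fun l => w l x) = WS E x := by
    intro x hx
    have h1 : Submodule.span ℂ (range fun l => w l x) ≤ WS E x := by
      rw [Submodule.span_le]
      rintro _ ⟨l, rfl⟩
      exact hwW l x
    refine Submodule.eq_of_le_of_finrank_le h1 ?_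
    rw [hrank x, finrank_span_eq_card (hliU x hx), Fintype.card_fin]
  -- the equations in the chart
  set φ := chartAt E x₁ with hφ
  set O : Set E := φ.target ∩ φ.symm ⁻¹' U₀ with hO
  have hOo : IsOpen O := φ.isOpen_inter_preimage_symm hU₀o
  set θ : E → κ → (Fin k → Fin r) → ℂ := fun u i L =>
    τ i (φ.symm u) (tpm (fun a => w (L a) (φ.symm u))) with hθ
  have hθd : ∀ u ∈ O, ∀ i L, DifferentiableAt ℂ (fun v => θ v i L) u := by
    intro u hu i L
    have hx : φ.symm u ∈ φ.source := φ.map_target hu.1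
    have h1 := diff_symm (x₁ := x₁) hx
      (da_tpm (hτ i) (w := fun a => w (L a)) (fun a => hwH (L a) _ hx))
    rw [← hφ, φ.right_inv hu.1] at h1
    exact h1
  have hθN : ∀ u ∈ O, NC (θ u) := by
    intro u hu z hz
    have h1 : ∑ j, z j • w j (φ.symm u) = 0 := by
      refine hNZ E X hI k κ τ x₀ hk hτ h0 (φ.symm u) _ ?_ ?_
      · exact Submodule.sum_mem _ fun j _ => Submodule.smul_mem _ _ (hwW j _)
      · intro i
        rw [← hsum (φ.symm u) (fun j => w j (φ.symm u))]
        exact hz i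
    funext j
    exact Fintype.linearIndependent_iff.mp (hliU _ hu.2) z h1 j
  have hθm : ∀ u ∈ O, ∃ m : Matrix (Fin r) (Fin r) ℂ, act m (θ u) = c := by
    intro u hu
    obtain ⟨A, hA, hAe⟩ := hJN E X hI k κ τ hτ (Fin r) x₀ w₀ (fun ρ => by
      rw [← hsp]; exact Submodule.subset_span ⟨ρ, rfl⟩) (φ.symm u)
    have h1 : ∀ ρ, ∃ m : Fin r → ℂ, ∑ l, m l • w l (φ.symm u) = A ρ := by
      intro ρ
      have h2 := hA ρ
      rw [← hspU _ hu.2] at h2
      exact (Submodule.mem_span_range_iff_exists_fun ℂ).mp h2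
    choose m hm using h1
    refine ⟨Matrix.of m, ?_⟩
    funext i J
    have h3 := hAe i J
    have h4 : (fun a => A (J a)) = fun a => ∑ l, (Matrix.of m) (J a) l • w l (φ.symm u) := by
      funext a
      rw [← hm (J a)]
      rfl
    rw [h4, hact (φ.symm u) (fun l => w l (φ.symm u)) (Matrix.of m) i J] at h3
    exact h3
  have hx₁O : φ x₁ ∈ O := by
    refine ⟨φ.map_source (mem_chart_source E x₁), ?_⟩
    rw [mem_preimage, φ.left_inv (mem_chart_source E x₁)]
    exact ⟨hxU₁, mem_chart_source E x₁⟩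
  have hNCc : NC c := by
    intro z hz
    have h1 : ∑ j, z j • w₀ j = 0 := h0 _ (fun i => by rw [← hsum]; exact hz i)
    funext j
    exact Fintype.linearIndependent_iff.mp hli z h1 j
  obtain ⟨O', μ, hO'o, hxO', hO'O, hμ⟩ := hLSEC E r k κ c θ O hk hOo hNCc hθd hθN hθm (φ x₁) hx₁O
  refine ⟨φ.source ∩ φ ⁻¹' O', fun a x => ∑ l, μ (φ x) a l • w l x,
    φ.isOpen_inter_preimage hO'o, ⟨mem_chart_source E x₁, hxO'⟩, ?_⟩
  intro x hx
  have hsx : φ.symm (φ x) = x := φ.left_inv hx.1
  obtain ⟨hμd, hμe⟩ := hμ (φ x) hx.2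
  refine ⟨fun a => ⟨?_, ?_⟩, ?_⟩
  · intro u
    have h1 : DA (E := E) (fun z => ∑ l, μ (φ z) a l * w l z (toT x z u)) x := by
      refine da_sum fun l => da_mul ?_ (hwH l x hx.1 u)
      have h2 : DifferentiableAt ℂ (fun p => μ p a l) (φ x) :=
        (differentiableAt_pi.mp ((differentiableAt_pi.mp hμd) a)) l
      exact h2.mdifferentiableAt.comp x (mdifferentiableAt_atlas (chart_mem_atlas E x₁) hx.1)
    refine h1.congr_of_eventuallyEq (Filter.Eventually.of_forall fun z => ?_)
    simp [LinearMap.sum_apply]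
  · exact Submodule.sum_mem _ fun j _ => Submodule.smul_mem _ _ (hwW j _)
  · intro i J
    have h1 := hact x (fun l => w l x) (Matrix.of (μ (φ x))) i J
    have h2 := congrFun (congrFun hμe i) J
    rw [← h2]
    simp only [hθ, hsx]
    exact h1

end MP_d4c35b_ag.TW
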