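import Pool.Agent.Lib.MP_d4c35b_ag.TW.Defs

/-!
Homogeneous Nullstellensatz in `MvPolynomial σ ℂ`.
-/

set_option autoImplicit false

open scoped Manifold ContDiff Topology
open Function Set

namespace MP_d4c35b_ag.TW

open MP_d4c35b_ag.TG

namespace pNSHAux

open MvPolynomial

/-- homogeneous components of a product with a homogeneous polynomial -/
theorem hc_mul {σ : Type} (g f : MvPolynomial σ ℂ) {k M : ℕ} (hf : f.IsHomogeneous k)
    (hM : k ≤ M) :
    homogeneousComponent M (g * f) = homogeneousComponent (M - k) g * f := by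
  have h1 : homogeneousComponent M (g * f) =
      ∑ i ∈ Finset.range (g.totalDegree + 1),
        (if M = i + k then homogeneousComponent i g * f else 0) := by
    conv_lhs => rw [← sum_homogeneousComponent g]
    rw [Finset.sum_mul, map_sum]
    refine Finset.sum_congr rfl fun i _ => ?_
    exact homogeneousComponent_of_mem
      (((homogeneousComponent_isHomogeneous i g).mul hf) :
        (homogeneousComponent i g * f).IsHomogeneous (i + k))
  rw [h1]
  have h2 : ∀ i, (M = i + k) ↔ (M - k = i) := fun i => by omega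
  simp only [h2]
  rw [Finset.sum_ite_eq]
  split_ifs with h3
  · rfl
  · rw [Finset.mem_range, not_lt] at h3
    rw [homogeneousComponent_eq_zero (M - k) g (by omega), zero_mul]

end pNSHAux

open MvPolynomial pNSHAux

theorem pNSH : S_NSH := by
  intro σ κ _ _ f k hk hf hz
  classical
  set I : Ideal (MvPolynomial σ ℂ) := Ideal.span (Set.range f) with hI
  have h1 : ∀ j : σ, ∃ m : ℕ, (X j : MvPolynomial σ ℂ) ^ m ∈ I := by
    intro j
    have h2 : (X j : MvPolynomial σ ℂ) ∈ I.radical := by
      rw [← vanishingIdeal_zeroLocus_eq_radical (K := ℂ), mem_vanishingIdeal_iff]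
      intro x hx
      have hx0 : x = 0 := by
        refine hz x fun i => ?_
        have := hx (f i) (Ideal.subset_span ⟨i, rfl⟩)
        rwa [MvPolynomial.aeval_eq_eval] at this
      rw [aeval_X, hx0]
      rfl
    exact h2
  choose m hm using h1
  set N : ℕ := ∑ j, m j with hN
  have hXN : ∀ j : σ, (X j : MvPolynomial σ ℂ) ^ N ∈ I := by
    intro j
    have h3 : m j ≤ N := Finset.single_le_sum (f := m) (fun _ _ => Nat.zero_le _)
      (Finset.mem_univ j)
    rw [← Nat.sub_add_cancel h3, pow_add]
    exact I.mul_mem_left _ (hm j)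
  refine ⟨Fintype.card σ * N + k, Nat.le_add_left _ _, ?_⟩
  intro μ hμ
  have h4 : ∃ j : σ, N ≤ μ j := by
    by_contra hcon
    push Not at hcon
    have h5 : μ.degree = ∑ j, μ j := Finsupp.degree_eq_sum μ
    have h6 : ∑ j, μ j ≤ ∑ _j : σ, N := Finset.sum_le_sum fun j _ => (hcon j).le
    rw [Finset.sum_const, Finset.card_univ, smul_eq_mul] at h6
    omega
  obtain ⟨j, hj⟩ := h4
  have h7 : (monomial μ (1 : ℂ) : MvPolynomial σ ℂ) ∈ I := by
    have h8 : μ = (μ - Finsupp.single j N) + Finsupp.single j N := by
      rw [tsub_add_cancel_of_le]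
      intro l
      by_cases hl : l = j
      · rw [hl, Finsupp.single_eq_same]; exact hj
      · rw [Finsupp.single_eq_of_ne hl]; exact Nat.zero_le _
    have h9 : (monomial μ (1 : ℂ) : MvPolynomial σ ℂ) =
        monomial (μ - Finsupp.single j N) 1 * X j ^ N := by
      rw [X_pow_eq_monomial, monomial_mul, one_mul, ← h8]
    rw [h9]
    exact I.mul_mem_left _ (hXN j)
  rw [hI, Ideal.mem_span_range_iff_exists_fun] at h7
  obtain ⟨c, hc⟩ := h7
  refine ⟨fun i => homogeneousComponent (Fintype.card σ * N + k - k) (c i),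
    fun i => homogeneousComponent_isHomogeneous _ _, ?_⟩
  have h10 : homogeneousComponent (Fintype.card σ * N + k) (monomial μ (1 : ℂ)) =
      (monomial μ (1 : ℂ) : MvPolynomial σ ℂ) :=
    homogeneousComponent_eq_self (isHomogeneous_monomial 1 hμ)
  rw [← h10, ← hc, map_sum]
  exact Finset.sum_congr rfl fun i _ => hc_mul (c i) (f i) (hf i) (Nat.le_add_left _ _)

end MP_d4c35b_ag.TW
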