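import Pool.Agent.Lib.MP_d4c35b_ag.TW.Gen
import Pool.Agent.Lib.MP_d4c35b_ag.TW.Defs2

set_option autoImplicit false
set_option linter.unusedSectionVars false

open scoped Manifold ContDiff Topology
open Function Set

namespace MP_d4c35b_ag.TW

open MP_d4c35b_ag.TG

section lin

variable {E : Type} [NormedAddCommGroup E] [NormedSpace ℂ E] [FiniteDimensional ℂ E]

theorem tpm_sum {k r : ℕ} (w : Fin r → E →ₗ[ℂ] ℂ) (z : Fin k → Fin r → ℂ) :
    tpm (fun m => ∑ j, z m j • w j) =
      ∑ u : Fin k → Fin r, (∏ m, z m (u m)) • tpm (fun m => w (u m)) := by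
  classical
  ext v
  simp only [tpm_apply, sum_apply, LinearMap.sum_apply, LinearMap.smul_apply, smul_eq_mul,
    MultilinearMap.smul_apply]
  rw [Finset.prod_univ_sum]
  simp only [Fintype.piFinset_univ]
  refine Finset.sum_congr rfl fun u _ => ?_
  rw [Finset.prod_mul_distrib]

theorem dual_vec {r : ℕ} {w : Fin r → E →ₗ[ℂ] ℂ} (h : LinearIndependent ℂ w) :
    ∃ v : Fin r → E, ∀ i j, w i (v j) = if i = j then 1 else 0 := by
  classical
  have hsurj : Surjective (LinearMap.pi w) := by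
    rw [← LinearMap.range_eq_top]
    by_contra hne
    obtain ⟨f, hf0, hf⟩ := Submodule.exists_le_ker_of_lt_top _ (lt_top_iff_ne_top.mpr hne)
    have h1 : ∑ i, f (Pi.single i 1) • w i = 0 := by
      ext u
      have h2 : f (LinearMap.pi w u) = 0 := hf ⟨u, rfl⟩
      have h3 : LinearMap.pi w u = ∑ i, (w i u) • (Pi.single i (1 : ℂ) : Fin r → ℂ) := by
        funext j
        simp [Finset.sum_apply, Pi.single_apply]
      rw [h3, map_sum] at h2
      simp only [map_smul, smul_eq_mul] at h2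
      simp only [LinearMap.sum_apply, LinearMap.smul_apply, smul_eq_mul, LinearMap.zero_apply]
      rw [← h2]
      exact Finset.sum_congr rfl fun i _ => mul_comm _ _
    have h4 := Fintype.linearIndependent_iff.mp h _ h1
    apply hf0
    refine LinearMap.pi_ext' fun i => ?_
    ext
    simpa using h4 i
  choose v hv using fun j : Fin r => hsurj (Pi.single j 1)
  refine ⟨v, fun i j => ?_⟩
  have h5 := congrFun (hv j) i
  rw [LinearMap.pi_apply] at h5
  rw [h5, Pi.single_apply]

theorem dual_exp {r : ℕ} {w : Fin r → E →ₗ[ℂ] ℂ} {v : Fin r → E}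
    (hv : ∀ i j, w i (v j) = if i = j then 1 else 0) {ζ : E →ₗ[ℂ] ℂ}
    (h : ζ ∈ Submodule.span ℂ (range w)) : ζ = ∑ j, ζ (v j) • w j := by
  classical
  obtain ⟨c, rfl⟩ := (Submodule.mem_span_range_iff_exists_fun ℂ).mp h
  refine Finset.sum_congr rfl fun j _ => ?_
  congr 1
  simp [LinearMap.sum_apply, hv]

end lin

theorem mono_fun {σ : Type} [Fintype σ] [DecidableEq σ] (D : ℕ) (ν : σ →₀ ℕ)
    (h : ν.degree = D) :
    ∃ u : Fin D → σ, ∀ z : σ → ℂ, ∏ j, z j ^ ν j = ∏ l, z (u l) := by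
  induction D generalizing ν with
  | zero =>
    have h0 : ν = 0 := (Finsupp.degree_eq_zero_iff ν).mp h
    subst h0
    exact ⟨fun l => l.elim0, fun z => by simp⟩
  | succ D ih =>
    obtain ⟨j, hj⟩ : ∃ j, ν j ≠ 0 := by
      by_contra hcon
      push Not at hcon
      have h0 : ν = 0 := Finsupp.ext hcon
      rw [h0] at h
      simp at h
    obtain ⟨ν', rfl⟩ : ∃ ν', ν = ν' + Finsupp.single j 1 := by
      refine ⟨ν - Finsupp.single j 1, ?_⟩
      rw [tsub_add_cancel_of_le]
      rw [Finsupp.single_le_iff]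
      omega
    obtain ⟨u, hu⟩ := ih ν' (by
      rw [map_add, Finsupp.degree_single] at h
      omega)
    refine ⟨Fin.cons j u, fun z => ?_⟩
    rw [Fin.prod_univ_succ]
    simp only [Fin.cons_zero, Fin.cons_succ]
    rw [← hu]
    simp only [Finsupp.add_apply, pow_add, Finset.prod_mul_distrib]
    rw [mul_comm]
    congr 1
    rw [Finset.prod_eq_single j]
    · simp
    · intro i _ hi
      rw [Finsupp.single_eq_of_ne hi, pow_zero]
    · intro h; exact absurd (Finset.mem_univ j) h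

theorem pNZ (hPFC : S_PFC) (hTP : S_TP) (hGF : S_GF) (hNSH : S_NSH) : S_NZ := by
  classical
  intro E _ _ _ X _ _ _ hI k κ _ τ x₀ hk hτ h0 x ζ hζ hz
  obtain ⟨r, K, _, _, s, hs, hg⟩ := hGF E X hI
  obtain ⟨b₀, hli, hsp⟩ := hg x₀
  set w : Fin r → E →ₗ[ℂ] ℂ := fun j => cv (s j x₀) (b₀ j) with hw
  obtain ⟨v, hv⟩ := dual_vec hli
  -- the polynomials
  set f : κ → MvPolynomial (Fin r) ℂ := fun i => ∑ u : Fin k → Fin r,
    MvPolynomial.C (τ i x₀ (tpm (fun m => w (u m)))) * ∏ m, MvPolynomial.X (u m) with hf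
  have hfhom : ∀ i, (f i).IsHomogeneous k := by
    intro i
    refine MvPolynomial.IsHomogeneous.sum _ _ _ fun u _ => ?_
    have h1 := (MvPolynomial.isHomogeneous_C (Fin r) (τ i x₀ (tpm (fun m => w (u m))))).mul
      (MvPolynomial.IsHomogeneous.prod Finset.univ (fun m => MvPolynomial.X (R := ℂ) (u m))
        (fun _ => 1) (fun m _ => MvPolynomial.isHomogeneous_X ℂ (u m)))
    simpa using h1
  have hfev : ∀ (i : κ) (z : Fin r → ℂ),
      MvPolynomial.eval z (f i) = τ i x₀ (pwM k (∑ j, z j • w j)) := by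
    intro i z
    have h1 : pwM k (∑ j, z j • w j) =
        ∑ u : Fin k → Fin r, (∏ m, z (u m)) • tpm (fun m => w (u m)) :=
      tpm_sum w (fun _ => z)
    rw [h1, map_sum]
    simp only [hf, map_sum, map_mul, MvPolynomial.eval_C, map_prod, MvPolynomial.eval_X, map_smul,
      smul_eq_mul]
    exact Finset.sum_congr rfl fun u _ => mul_comm _ _
  have hf0 : ∀ z : Fin r → ℂ, (∀ i, MvPolynomial.eval z (f i) = 0) → z = 0 := by
    intro z hz
    have h1 : ∑ j, z j • w j = 0 := h0 _ (fun i => by rw [← hfev, hz])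
    funext j
    exact Fintype.linearIndependent_iff.mp hli z h1 j
  obtain ⟨M, hkM, hM⟩ := hNSH (Fin r) κ f k hk hfhom hf0
  -- the polynomial fields
  set G : κ → X → ((Fin M ⊕ (Σ j, K j)) → E) → ℂ := fun q x y =>
    (∏ l : Fin (M - k), xi s x (fun p => y (Sum.inr p)) (y (Sum.inl (Fin.castLE (by omega) l)))) *
      τ q x (tpm (fun _ : Fin k => xi s x (fun p => y (Sum.inr p)))) with hG
  set g : X → ((Fin M ⊕ (Σ j, K j)) → E) → ℂ := fun x y =>
    ∏ l : Fin M, xi s x (fun p => y (Sum.inr p)) (y (Sum.inl l)) with hg'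
  obtain ⟨-, -, -, hmul, -, hprod, -⟩ := hPFC E X (Fin M ⊕ (Σ j, K j))
  have hGP : ∀ q, PF (G q) := fun q =>
    hmul _ _ (hprod _ _ fun l => PF_xi hPFC hs _ _) (PF_tau hPFC hs (hτ q) (fun _ p => Sum.inr p))
  have hgP : PF g := hprod _ _ fun l => PF_xi hPFC hs _ _
  set S := Submodule.span ℂ {h : ((Σ j, K j) → E) → ℂ | ∃ q a',
    h = fun b => G q x₀ (Sum.elim a' b)} with hS
  have hxi : ∀ b : (Σ j, K j) → E, xi s x₀ b = ∑ j, xi s x₀ b (v j) • w j := fun b =>
    dual_exp hv (by rw [hw, hsp]; exact xi_mem hs x₀ b)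
  -- monomials
  have hmono : ∀ u : Fin M → Fin r,
      (fun b : (Σ j, K j) → E => ∏ l, xi s x₀ b (v (u l))) ∈ S := by
    intro u
    set μ : Fin r →₀ ℕ := ∑ l, Finsupp.single (u l) 1 with hμ
    have hμd : μ.degree = M := by
      rw [hμ, map_sum]
      simp
    obtain ⟨c, hc, he⟩ := hM μ hμd
    have hev : ∀ z : Fin r → ℂ, ∏ l, z (u l) =
        ∑ i, MvPolynomial.eval z (c i) * τ i x₀ (pwM k (∑ j, z j • w j)) := by
      intro z
      have h1 := congrArg (MvPolynomial.eval z) he
      rw [map_sum] at h1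
      simp only [map_mul, hfev] at h1
      rw [← h1, MvPolynomial.eval_monomial, one_mul, hμ]
      rw [Finsupp.prod_fintype _ _ (fun i => pow_zero _)]
      simp only [Finsupp.coe_finset_sum, Finset.sum_apply]
      have h2 : ∀ j, z j ^ (∑ l, (Finsupp.single (u l) 1 : Fin r →₀ ℕ) j) =
          ∏ l, z j ^ ((Finsupp.single (u l) 1 : Fin r →₀ ℕ) j) := fun j =>
        (Finset.prod_pow_eq_pow_sum _ _ _).symm
      simp only [h2]
      rw [Finset.prod_comm]
      refine Finset.prod_congr rfl fun l _ => ?_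
      rw [Finset.prod_eq_single (u l)]
      · simp
      · intro j _ hj
        rw [Finsupp.single_eq_of_ne hj, pow_zero]
      · intro h; exact absurd (Finset.mem_univ _) h
    have h3 : (fun b : (Σ j, K j) → E => ∏ l, xi s x₀ b (v (u l))) =
        ∑ i, ∑ ν ∈ (c i).support, (c i).coeff ν • (fun b : (Σ j, K j) → E =>
          (∏ j, (xi s x₀ b (v j)) ^ ν j) * τ i x₀ (pwM k (xi s x₀ b))) := by
      funext b
      rw [hev (fun j => xi s x₀ b (v j))]
      simp only [Finset.sum_apply, Pi.smul_apply, smul_eq_mul]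
      refine Finset.sum_congr rfl fun i _ => ?_
      rw [← hxi b, MvPolynomial.eval_eq', Finset.sum_mul]
      exact Finset.sum_congr rfl fun ν _ => mul_assoc _ _ _
    rw [h3]
    refine Submodule.sum_mem _ fun i _ => Submodule.sum_mem _ fun ν hν =>
      Submodule.smul_mem _ _ ?_
    have hνd : ν.degree = M - k := by
      have h4 := (hc i) (MvPolynomial.mem_support_iff.mp hν)
      rw [← h4, Finsupp.degree_eq_weight_one]
      rfl
    obtain ⟨u', hu'⟩ := mono_fun (M - k) ν hνd
    refine Submodule.subset_span ⟨i, fun l => if h : (l : ℕ) < M - k then v (u' ⟨l, h⟩) else 0, ?_⟩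
    funext b
    rw [hu' (fun j => xi s x₀ b (v j)), hG]
    simp only [Sum.elim_inr, Sum.elim_inl]
    congr 1
    refine Finset.prod_congr rfl fun l _ => ?_
    rw [dif_pos (by simp)]
    rfl
  -- the products
  have hx₀ : ∀ a : Fin M → E, (fun b : (Σ j, K j) → E => g x₀ (Sum.elim a b)) ∈ S := by
    intro a
    have h1 : (fun b : (Σ j, K j) → E => g x₀ (Sum.elim a b)) =
        ∑ u : Fin M → Fin r, (∏ l, w (u l) (a l)) •
          (fun b : (Σ j, K j) → E => ∏ l, xi s x₀ b (v (u l))) := by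
      funext b
      simp only [hg', Sum.elim_inr, Sum.elim_inl, Finset.sum_apply, Pi.smul_apply, smul_eq_mul]
      have h2 : ∀ l, xi s x₀ b (a l) = ∑ j, xi s x₀ b (v j) * w j (a l) := by
        intro l
        have h3 := congrArg (fun L : E →ₗ[ℂ] ℂ => L (a l)) (hxi b)
        simpa [LinearMap.sum_apply] using h3
      simp only [h2]
      rw [Finset.prod_univ_sum]
      simp only [Fintype.piFinset_univ]
      refine Finset.sum_congr rfl fun u _ => ?_
      rw [Finset.prod_mul_distrib, mul_comm]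
    rw [h1]
    exact Submodule.sum_mem _ fun u _ => Submodule.smul_mem _ _ (hmono u)
  have hx := hTP E X hI (Fin M) (Σ j, K j) κ G g hGP hgP x₀ x hx₀
  obtain ⟨b₁, hb₁⟩ := xi_surj (hg x) hζ
  have hker : ∀ h ∈ Submodule.span ℂ {h : ((Σ j, K j) → E) → ℂ | ∃ q a',
      h = fun b => G q x (Sum.elim a' b)}, h b₁ = 0 := by
    intro h hh
    refine Submodule.span_induction (p := fun h _ => h b₁ = 0) ?_ rfl ?_ ?_ hh
    · rintro _ ⟨q, a', rfl⟩
      simp only [hG, Sum.elim_inr]
      have h1 : τ q x (tpm (fun _ : Fin k => xi s x (fun p => b₁ p))) = 0 := by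
        have h2 := hz q
        rw [← hb₁] at h2
        exact h2
      rw [h1, mul_zero]
    · intro p q _ _ hp hq
      rw [Pi.add_apply, hp, hq, add_zero]
    · intro c p _ hp
      rw [Pi.smul_apply, hp, smul_zero]
  ext u
  have h5 := hker _ (hx (fun _ => u))
  simp only [hg', Sum.elim_inr, Sum.elim_inl] at h5
  have h6 : ζ u ^ M = 0 := by
    rw [← hb₁]
    simpa using h5
  exact pow_eq_zero_iff (by omega) |>.mp h6

end MP_d4c35b_ag.TW
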