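import Pool.Agent.Lib.MP_d4c35b_ag.TW.Defs

/-!
The vanishing order of a nonzero holomorphic tensor field at a point is bounded.
-/

set_option autoImplicit false
set_option linter.unusedSectionVars false

open scoped Manifold ContDiff Topology
open Function Set

namespace MP_d4c35b_ag.TW

open MP_d4c35b_ag.TG

namespace pORDAux

/-- an analytic function in one variable which is flat at `0` is zero near `0` -/
theorem flat_one {g : ℂ → ℂ} (hg : AnalyticAt ℂ g 0)
    (hO : ∀ N : ℕ, g =O[𝓝 0] fun t => ‖t‖ ^ N) : ∀ᶠ t in 𝓝 (0 : ℂ), g t = 0 := by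
  by_contra hne
  obtain ⟨n, h, hh, hh0, heq⟩ := hg.exists_eventuallyEq_pow_smul_nonzero_iff.2 hne
  obtain ⟨C, hC⟩ := (hO (n + 1)).bound
  have h1 : ∀ᶠ t in 𝓝[≠] (0 : ℂ), ‖h t‖ ≤ C * ‖t‖ := by
    filter_upwards [nhdsWithin_le_nhds heq, nhdsWithin_le_nhds hC, self_mem_nhdsWithin]
      with t ht1 ht2 ht3
    have ht : 0 < ‖t‖ := norm_pos_iff.2 ht3
    rw [ht1, sub_zero, norm_smul, norm_pow, norm_pow, norm_norm, pow_succ] at ht2
    have h2 : ‖t‖ ^ n * ‖h t‖ ≤ ‖t‖ ^ n * (C * ‖t‖) := by
      calc ‖t‖ ^ n * ‖h t‖ ≤ C * (‖t‖ ^ n * ‖t‖) := ht2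
        _ = ‖t‖ ^ n * (C * ‖t‖) := by ring
    exact le_of_mul_le_mul_left h2 (pow_pos ht n)
  have h2 : Filter.Tendsto (fun t => ‖h t‖) (𝓝[≠] (0 : ℂ)) (𝓝 ‖h 0‖) :=
    (hh.continuousAt.norm.tendsto).mono_left nhdsWithin_le_nhds
  have h3 : Filter.Tendsto (fun t : ℂ => C * ‖t‖) (𝓝[≠] (0 : ℂ)) (𝓝 (C * ‖(0 : ℂ)‖)) :=
    ((continuous_const.mul continuous_norm).tendsto 0).mono_left nhdsWithin_le_nhds
  have h4 := le_of_tendsto_of_tendsto h2 h3 h1
  rw [norm_zero, mul_zero] at h4
  exact hh0 (norm_le_zero_iff.1 h4)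

variable {E : Type} [NormedAddCommGroup E] [NormedSpace ℂ E]

/-- a holomorphic function on a ball which is flat at the centre is zero -/
theorem ball_flat {g : E → ℂ} {c : E} {r : ℝ} (hg : DifferentiableOn ℂ g (Metric.ball c r))
    (hO : ∀ N : ℕ, g =O[𝓝 c] fun u => ‖u - c‖ ^ N) :
    ∀ u ∈ Metric.ball c r, g u = 0 := by
  intro u hu
  have hr : 0 < r := lt_of_le_of_lt dist_nonneg hu
  set L : ℂ → E := fun t => c + t • (u - c) with hL
  have hLd : Differentiable ℂ L := by
    intro t
    exact (differentiableAt_const c).add (differentiableAt_id.smul_const (u - c))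
  set D : Set ℂ := L ⁻¹' (Metric.ball c r) with hD
  have hDo : IsOpen D := Metric.isOpen_ball.preimage hLd.continuous
  have hDc : Convex ℝ D := by
    intro s hs t ht α β hα hβ hαβ
    have h1 : L (α • s + β • t) = α • L s + β • L t := by
      simp only [hL]
      have h3 : (α : ℂ) + (β : ℂ) = 1 := by exact_mod_cast hαβ
      have h4 : α • (c + s • (u - c)) + β • (c + t • (u - c)) =
          ((α : ℂ) + (β : ℂ)) • c + ((α : ℂ) * s + (β : ℂ) * t) • (u - c) := by
        rw [← Complex.coe_smul α, ← Complex.coe_smul β]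
        module
      rw [h4, h3, one_smul]
      simp
    change L (α • s + β • t) ∈ Metric.ball c r
    rw [h1]
    exact (convex_ball c r) hs ht hα hβ hαβ
  have hd : DifferentiableOn ℂ (fun t => g (L t)) D := by
    intro t ht
    exact (hg (L t) ht).comp t hLd.differentiableAt.differentiableWithinAt (fun _ h => h)
  have han : AnalyticOnNhd ℂ (fun t => g (L t)) D := hd.analyticOnNhd hDo
  have h0' : (0 : ℂ) ∈ D := by
    change L 0 ∈ Metric.ball c r
    simpa [hL] using hr
  have h1' : (1 : ℂ) ∈ D := by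
    change L 1 ∈ Metric.ball c r
    simpa [hL] using hu
  have hev : (fun t => g (L t)) =ᶠ[𝓝 0] 0 := by
    refine flat_one (han 0 h0') fun N => ?_
    have h2 : Filter.Tendsto L (𝓝 0) (𝓝 c) := by
      have := hLd.continuous.tendsto 0
      simpa [hL] using this
    have h3 := (hO N).comp_tendsto h2
    refine h3.trans (Asymptotics.IsBigO.of_bound (‖u - c‖ ^ N) (Filter.Eventually.of_forall ?_))
    intro t
    simp only [hL, comp_apply, add_sub_cancel_left, norm_smul, norm_pow, norm_norm, norm_mul,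
      mul_pow]
    rw [mul_comm]
  have h3 := han.eqOn_zero_of_preconnected_of_eventuallyEq_zero hDc.isPreconnected h0' hev h1'
  simpa [hL] using h3

variable [FiniteDimensional ℂ E]
variable {X : Type} [TopologicalSpace X] [ChartedSpace E X] [IsManifold 𝓘(ℂ, E) ω X]

theorem ov_zero {ι : Type} (N : ℕ) (y : X) : OV N (0 : X → MM E ι) y := by
  intro v
  exact Asymptotics.isBigO_zero _ _

theorem ov_add {ι : Type} {N : ℕ} {y : X} {s t : X → MM E ι} (hs : OV N s y) (ht : OV N t y) :
    OV N (s + t) y := fun v => (hs v).add (ht v)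

theorem ov_smul {ι : Type} {N : ℕ} {y : X} {s : X → MM E ι} (c : ℂ) (hs : OV N s y) :
    OV N (c • s) y := fun v => (hs v).const_mul_left c

theorem ov_succ {ι : Type} {N : ℕ} {y : X} {s : X → MM E ι} (hs : OV (N + 1) s y) :
    OV N s y := by
  intro v
  refine (hs v).trans ?_
  have h1 : Filter.Tendsto (fun x => ‖chartAt E y x - chartAt E y y‖) (𝓝 y) (𝓝 0) := by
    have h2 : ContinuousAt (fun x => ‖chartAt E y x - chartAt E y y‖) y :=
      (((chartAt E y).continuousAt (mem_chart_source E y)).sub continuousAt_const).norm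
    have h3 := h2.tendsto
    simpa using h3
  refine Asymptotics.IsBigO.of_bound 1 ?_
  filter_upwards [h1.eventually (gt_mem_nhds (zero_lt_one' ℝ))] with x hx
  rw [one_mul, norm_pow, norm_pow, norm_norm]
  exact pow_le_pow_of_le_one (norm_nonneg _) hx.le (Nat.le_succ N)

/-- the fields which vanish to order `N` at `y` -/
def VN (ι : Type) (y : X) (N : ℕ) : Submodule ℂ (FC E X ι) where
  carrier := {s | OV N s.1 y}
  add_mem' := fun h1 h2 => ov_add h1 h2
  zero_mem' := ov_zero N y
  smul_mem' := fun c _ h => ov_smul c h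

theorem VN_anti (ι : Type) (y : X) : Antitone (VN (E := E) ι y) :=
  antitone_nat_of_succ_le fun _ _ h => ov_succ h

/-- a flat field is zero near the point -/
theorem flat_field {ι : Type} [Fintype ι] {s : X → MM E ι} (hs : HC s) {y : X}
    (hO : ∀ N, OV N s y) : ∀ᶠ x in 𝓝 y, s x = 0 := by
  set e := chartAt E y with he
  have htgt : e.target ∈ 𝓝 (e y) := e.open_target.mem_nhds (e.map_source (mem_chart_source E y))
  obtain ⟨r, hr, hball⟩ := Metric.mem_nhds_iff.mp htgt
  have hv : ∀ v : ι → E, ∀ u ∈ Metric.ball (e y) r,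
      s (e.symm u) (fun i => toT y (e.symm u) (v i)) = 0 := by
    intro v
    refine ball_flat (g := fun u => s (e.symm u) (fun i => toT y (e.symm u) (v i))) ?_ ?_
    · have h1 := hs y v
      have h2 : MDifferentiableOn 𝓘(ℂ, E) 𝓘(ℂ, E) (e.symm) e.target :=
        mdifferentiableOn_atlas_symm (chart_mem_atlas E y)
      have h3 : MDifferentiableOn 𝓘(ℂ, E) 𝓘(ℂ)
          (fun u => s (e.symm u) (fun i => toT y (e.symm u) (v i))) e.target := by
        intro u hu
        exact (h1 (e.symm u) (e.map_target hu)).comp u (h2 u hu)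
          (fun w hw => e.map_target hw)
      exact (mdifferentiableOn_iff_differentiableOn.mp h3).mono hball
    · intro N
      have h4 : Filter.Tendsto e.symm (𝓝 (e y)) (𝓝 y) := by
        have h5 := e.symm.continuousAt (x := e y)
          (by simpa using e.map_source (mem_chart_source E y))
        have h6 : e.symm (e y) = y := e.left_inv (mem_chart_source E y)
        have h7 := h5.tendsto
        rwa [h6] at h7
      have h8 := (hO N v).comp_tendsto h4
      refine h8.congr' (Filter.EventuallyEq.rfl) ?_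
      filter_upwards [htgt] with u hu
      rw [comp_apply, e.right_inv hu]
  have hW : e.source ∩ e ⁻¹' (Metric.ball (e y) r) ∈ 𝓝 y :=
    (e.isOpen_inter_preimage Metric.isOpen_ball).mem_nhds
      ⟨mem_chart_source E y, by simpa using hr⟩
  filter_upwards [hW] with z hz
  ext w
  have h8 := hv (fun i => ofT y z (w i)) (e z) hz.2
  rw [e.left_inv hz.1] at h8
  have h9 : (fun i => toT y z (ofT y z (w i))) = w := by
    funext i
    exact toT_ofT hz.1 _
  rw [h9] at h8
  simpa using h8

end pORDAux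

open pORDAux

theorem pORD (hFD : S_FD) : S_ORD := by
  intro E _ _ _ X _ _ _ y ι _
  have hfin : Module.Finite ℂ (FC E X ι) := hFD E X ι
  have hart : IsArtinian ℂ (FC E X ι) := inferInstance
  obtain ⟨N, hN⟩ := IsArtinian.monotone_stabilizes (R := ℂ) (M := FC E X ι)
    ⟨fun n => OrderDual.toDual (VN (E := E) ι y n), fun a b hab => VN_anti ι y hab⟩
  refine ⟨N, fun s hs hov => ?_⟩
  have hall : ∀ m, OV m s y := by
    intro m
    rcases le_total N m with h | h
    · have h1 : VN (E := E) ι y N = VN (E := E) ι y m := hN m h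
      have h2 : (⟨s, hs⟩ : FC E X ι) ∈ VN (E := E) ι y N := hov
      rw [h1] at h2
      exact h2
    · have h2 : (⟨s, hs⟩ : FC E X ι) ∈ VN (E := E) ι y N := hov
      exact VN_anti ι y h h2
  exact HC_ident hs (flat_field hs hall)

end MP_d4c35b_ag.TW
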