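import Pool.Agent.Lib.MP_d4c35b_ag.TW.Defs

/-!
Closure properties of the class of polynomial covariant fields.
-/

set_option autoImplicit false
set_option linter.unusedSectionVars false

open scoped Manifold ContDiff Topology
open Function Set

namespace MP_d4c35b_ag.TW

open MP_d4c35b_ag.TG

namespace pPFCAux

variable {E : Type} [NormedAddCommGroup E] [NormedSpace ℂ E] [FiniteDimensional ℂ E]
variable {X : Type} [TopologicalSpace X] [ChartedSpace E X] [IsManifold 𝓘(ℂ, E) ω X]
variable {n : Type}

theorem pf_val {ι : Type} [hι : Fintype ι] (s : X → MM E ι) (ρ : ι → n) (hs : HC s) :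
    PF (fun x (v : n → E) => s x (fun i => v (ρ i))) :=
  ⟨Unit, inferInstance, fun _ => ι, fun _ => hι, fun _ => s, fun _ => ρ, fun _ => hs,
    fun x v => by simp⟩

theorem pf_const (c : ℂ) : PF (fun (_ : X) (_ : n → E) => c) :=
  ⟨Unit, inferInstance, fun _ => Empty, fun _ => inferInstance,
    fun _ _ => MultilinearMap.constOfIsEmpty ℂ (fun _ : Empty => E) c, fun _ => Empty.elim,
    fun _ x₀ v => mdifferentiableOn_const, fun x v => by simp⟩

theorem pf_add {G G' : X → (n → E) → ℂ} (h : PF G) (h' : PF G') :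
    PF (fun x v => G x v + G' x v) := by
  obtain ⟨A, hA, ι, hι, s, ρ, hs, hG⟩ := h
  obtain ⟨A', hA', ι', hι', s', ρ', hs', hG'⟩ := h'
  refine ⟨A ⊕ A', inferInstance, Sum.elim ι ι', fun a => Sum.rec hι hι' a,
    fun a => Sum.rec (motive := fun a => X → MM E (Sum.elim ι ι' a)) s s' a,
    fun a => Sum.rec (motive := fun a => Sum.elim ι ι' a → n) ρ ρ' a, ?_, ?_⟩
  · rintro (a | a)
    · exact hs a
    · exact hs' a
  · intro x v
    rw [Fintype.sum_sum_type]
    change G x v + G' x v = _
    rw [hG, hG']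
    rfl

theorem pf_mul {G G' : X → (n → E) → ℂ} (h : PF G) (h' : PF G') :
    PF (fun x v => G x v * G' x v) := by
  obtain ⟨A, hA, ι, hι, s, ρ, hs, hG⟩ := h
  obtain ⟨A', hA', ι', hι', s', ρ', hs', hG'⟩ := h'
  refine ⟨A × A', inferInstance, fun a => ι a.1 ⊕ ι' a.2, fun a => inferInstance,
    fun a => mulF (s a.1) (s' a.2), fun a => Sum.elim (ρ a.1) (ρ' a.2),
    fun a => HC_mulF (hs a.1) (hs' a.2), ?_⟩
  intro x v
  rw [Fintype.sum_prod_type]
  change G x v * G' x v = _
  rw [hG, hG', Finset.sum_mul_sum]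
  refine Finset.sum_congr rfl fun a _ => Finset.sum_congr rfl fun b _ => ?_
  rw [mulF_apply]
  rfl

theorem pf_sum {Q : Type} [Fintype Q] (G : Q → X → (n → E) → ℂ) (h : ∀ q, PF (G q)) :
    PF (fun x v => ∑ q, G q x v) := by
  classical
  have key : ∀ T : Finset Q, PF (fun x v => ∑ q ∈ T, G q x v) := by
    intro T
    induction T using Finset.induction_on with
    | empty => simpa using pf_const (X := X) (E := E) (n := n) 0
    | insert a T ha ih =>
      have := pf_add (h a) ih
      simpa only [Finset.sum_insert ha] using this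
  exact key Finset.univ

theorem pf_prod {Q : Type} [Fintype Q] (G : Q → X → (n → E) → ℂ) (h : ∀ q, PF (G q)) :
    PF (fun x v => ∏ q, G q x v) := by
  classical
  have key : ∀ T : Finset Q, PF (fun x v => ∏ q ∈ T, G q x v) := by
    intro T
    induction T using Finset.induction_on with
    | empty => simpa using pf_const (X := X) (E := E) (n := n) 1
    | insert a T ha ih =>
      have := pf_mul (h a) ih
      simpa only [Finset.prod_insert ha] using this
  exact key Finset.univ

theorem pf_ren {m : Type} (π : m → n) {G : X → (m → E) → ℂ} (h : PF G) :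
    PF (fun x (v : n → E) => G x (fun i => v (π i))) := by
  obtain ⟨A, hA, ι, hι, s, ρ, hs, hG⟩ := h
  exact ⟨A, hA, ι, hι, s, fun a i => π (ρ a i), hs, fun x v => hG x _⟩

end pPFCAux

theorem pPFC : S_PFC := by
  intro E _ _ _ X _ _ _ n
  exact ⟨fun ι _ s ρ hs => pPFCAux.pf_val s ρ hs, pPFCAux.pf_const,
    fun G G' h h' => pPFCAux.pf_add h h', fun G G' h h' => pPFCAux.pf_mul h h',
    fun Q _ G h => pPFCAux.pf_sum G h, fun Q _ G h => pPFCAux.pf_prod G h,
    fun m π G h => pPFCAux.pf_ren π h⟩

end MP_d4c35b_ag.TW
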