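import Pool.Agent.Lib.MP_d4c35b_ag.TW.Defs
import Pool.Agent.Lib.MP_d4c35b_ag.TG.Ops

/-!
PFI: a polynomial covariant field that vanishes identically at one point is zero.
-/

set_option autoImplicit false

open scoped Manifold ContDiff Topology
open Function Set MP_d4c35b_ag.TG

namespace MP_d4c35b_ag.TW

namespace pPFIAux

/-- The exponent of the monomial `∏ X_{κ i}`. -/
private noncomputable def ex {ι S : Type} [Fintype ι] (κ : ι → S) : S →₀ ℕ :=
  ∑ i, Finsupp.single (κ i) 1

private lemma ex_apply {ι S : Type} [Fintype ι] [DecidableEq S] (κ : ι → S) (σ : S) :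
    ex κ σ = (Finset.univ.filter (fun i => κ i = σ)).card := by
  unfold ex
  rw [Finsupp.finsetSum_apply, Finset.card_filter]
  refine Finset.sum_congr rfl (fun i _ => ?_)
  rw [Finsupp.single_apply]

private lemma ex_eq_iff {ι S : Type} [Fintype ι] [Fintype S] [DecidableEq S] (κ : ι → S) :
    ex κ = ex (id : S → S) ↔ Bijective κ := by
  have h1 : ∀ σ, ex (id : S → S) σ = 1 := by
    intro σ
    rw [ex_apply, Finset.card_eq_one]
    exact ⟨σ, by ext; simp⟩
  constructor
  · intro h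
    have h2 : ∀ σ, (Finset.univ.filter (fun i => κ i = σ)).card = 1 := by
      intro σ
      rw [← ex_apply, h, h1]
    rw [Function.bijective_iff_existsUnique]
    intro σ
    obtain ⟨i, hi⟩ := Finset.card_eq_one.mp (h2 σ)
    refine ⟨i, ?_, fun j hj => ?_⟩
    · have : i ∈ Finset.univ.filter (fun i => κ i = σ) := by rw [hi]; exact Finset.mem_singleton_self i
      exact (Finset.mem_filter.mp this).2
    · have : j ∈ Finset.univ.filter (fun i => κ i = σ) :=
        Finset.mem_filter.mpr ⟨Finset.mem_univ _, hj⟩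
      rw [hi] at this
      exact Finset.mem_singleton.mp this
  · intro h
    ext σ
    rw [h1, ex_apply, Finset.card_eq_one]
    obtain ⟨i, hi, hu⟩ := (Function.bijective_iff_existsUnique κ).mp h σ
    refine ⟨i, ?_⟩
    ext j
    simp only [Finset.mem_filter, Finset.mem_univ, true_and, Finset.mem_singleton]
    exact ⟨fun hj => hu j hj, fun hj => by rw [hj]; exact hi⟩

private lemma eval_monomial_ex {ι S : Type} [Fintype ι] [Fintype S] (κ : ι → S) (c : ℂ) (t : S → ℂ) :
    MvPolynomial.eval t (MvPolynomial.monomial (ex κ) c) = c * ∏ i, t (κ i) := by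
  unfold ex
  classical
  rw [MvPolynomial.eval_monomial]
  congr 1
  rw [Finsupp.prod_fintype _ _ (fun i => pow_zero _)]
  have h1 : ∀ σ, (∑ i, Finsupp.single (κ i) 1 : S →₀ ℕ) σ
      = (Finset.univ.filter (fun i => κ i = σ)).card := fun σ => ex_apply κ σ
  rw [← Finset.prod_fiberwise (s := Finset.univ) (g := κ) (f := fun i => t (κ i))]
  refine Finset.prod_congr rfl (fun σ _ => ?_)
  rw [h1, Finset.prod_congr rfl (g := fun _ => t σ), Finset.prod_const]
  intro i hi
  rw [(Finset.mem_filter.mp hi).2]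

variable {E : Type} [NormedAddCommGroup E] [NormedSpace ℂ E]

private lemma expand {ι S n : Type} [Fintype ι] [DecidableEq ι] [Fintype S] [DecidableEq n] (f : S → n) (ρ : ι → n)
    (m : MM E ι) (w : S → E) (t : S → ℂ) :
    m (fun i => ∑ σ, if f σ = ρ i then t σ • w σ else 0) =
      ∑ κ : ι → S, if ∀ i, f (κ i) = ρ i then m (fun i => w (κ i)) * ∏ i, t (κ i) else 0 := by
  classical
  rw [m.map_sum (fun i σ => if f σ = ρ i then t σ • w σ else 0)]
  refine Finset.sum_congr (by ext; simp) (fun κ _ => ?_)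
  by_cases h : ∀ i, f (κ i) = ρ i
  · rw [if_pos h]
    have h1 : (fun i => if f (κ i) = ρ i then t (κ i) • w (κ i) else 0) =
        fun i => t (κ i) • w (κ i) := by
      funext i
      rw [if_pos (h i)]
    rw [h1, m.map_smul_univ, smul_eq_mul, mul_comm]
  · rw [if_neg h]
    push Not at h
    obtain ⟨i, hi⟩ := h
    refine m.map_coord_zero i ?_
    rw [if_neg hi]

/-- The squarefree coefficient. -/
private lemma core {A : Type} [Fintype A] {ι : A → Type} [∀ a, Fintype (ι a)] {n S : Type} [Fintype S]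
    (f : S → n) (s : ∀ a, MM E (ι a)) (ρ : ∀ a, ι a → n)
    (h : ∀ v : n → E, ∑ a, s a (fun i => v (ρ a i)) = 0) (w : S → E)
    [∀ a, Fintype {e : ι a ≃ S // ∀ i, f (e i) = ρ a i}] :
    ∑ a, ∑ κ : {e : ι a ≃ S // ∀ i, f (e i) = ρ a i}, s a (fun i => w (κ.1 i)) = 0 := by
  classical
  let Q : MvPolynomial S ℂ := ∑ a, ∑ κ : ι a → S,
    if ∀ i, f (κ i) = ρ a i then MvPolynomial.monomial (ex κ) (s a (fun i => w (κ i))) else 0
  have hQ : Q = 0 := by
    refine MvPolynomial.funext (fun t => ?_)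
    rw [map_zero, ← h (fun i => ∑ σ, if f σ = i then t σ • w σ else 0)]
    simp only [Q, map_sum]
    refine Finset.sum_congr rfl (fun a _ => ?_)
    rw [expand f (ρ a) (s a) w t]
    refine Finset.sum_congr rfl (fun κ _ => ?_)
    split_ifs
    · rw [eval_monomial_ex]
    · rw [map_zero]
  have hc : MvPolynomial.coeff (ex (id : S → S)) Q = 0 := by rw [hQ, MvPolynomial.coeff_zero]
  simp only [Q, MvPolynomial.coeff_sum] at hc
  rw [← hc]
  refine Finset.sum_congr rfl (fun a _ => ?_)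
  symm
  have h1 : ∀ κ : ι a → S, MvPolynomial.coeff (ex (id : S → S))
      (if ∀ i, f (κ i) = ρ a i then MvPolynomial.monomial (ex κ) (s a (fun i => w (κ i))) else 0) =
      if (∀ i, f (κ i) = ρ a i) ∧ Bijective κ then s a (fun i => w (κ i)) else 0 := by
    intro κ
    by_cases h2 : ∀ i, f (κ i) = ρ a i
    · rw [if_pos h2, MvPolynomial.coeff_monomial]
      by_cases h3 : Bijective κ
      · rw [if_pos ((ex_eq_iff κ).mpr h3), if_pos ⟨h2, h3⟩]
      · rw [if_neg (fun h4 => h3 ((ex_eq_iff κ).mp h4)), if_neg (fun h4 => h3 h4.2)]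
    · rw [if_neg h2, MvPolynomial.coeff_zero, if_neg (fun h4 => h2 h4.1)]
  rw [Finset.sum_congr rfl (fun κ _ => h1 κ), ← Finset.sum_filter]
  symm
  refine Finset.sum_bij (fun κ _ => (κ.1 : ι a → S)) ?_ ?_ ?_ ?_
  · intro κ _
    exact Finset.mem_filter.mpr ⟨Finset.mem_univ _, κ.2, κ.1.bijective⟩
  · intro κ _ κ' _ hk
    exact Subtype.ext (Equiv.coe_fn_injective hk)
  · intro κ hκ
    obtain ⟨-, h2, h3⟩ := Finset.mem_filter.mp hκ
    exact ⟨⟨Equiv.ofBijective κ h3, h2⟩, Finset.mem_univ _, rfl⟩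
  · intro κ _
    rfl

end pPFIAux

open pPFIAux

theorem pPFI : S_PFI := by
  intro E _ _ _ X _ _ _ hI n _ G hG y hy x v
  obtain ⟨A, _, ι, hι, s, ρ, hs, hG⟩ := hG
  classical
  have key : ∀ (a₀ : A) (x : X) (w : ι a₀ → E),
      ∑ a, ∑ κ : {e : ι a ≃ ι a₀ // ∀ i, ρ a₀ (e i) = ρ a i}, s a x (fun i => w (κ.1 i)) = 0 := by
    intro a₀
    let F : X → MM E (ι a₀) := ∑ a, ∑ κ : {e : ι a ≃ ι a₀ // ∀ i, ρ a₀ (e i) = ρ a i},
      reix κ.1 (s a)
    have hsum : ∀ {B : Type} (T : Finset B) (t : B → X → MM E (ι a₀)), (∀ b, HC (t b)) →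
        HC (∑ b ∈ T, t b) := by
      intro B T t ht
      induction T using Finset.induction_on with
      | empty => rw [Finset.sum_empty]; exact HC_zero
      | insert b T hb ih => rw [Finset.sum_insert hb]; exact HC_add (ht b) ih
    have hF : HC F := hsum _ _ (fun a => hsum _ _ (fun κ => HC_reix _ (hs a)))
    have happ : ∀ x w, F x w = ∑ a, ∑ κ : {e : ι a ≃ ι a₀ // ∀ i, ρ a₀ (e i) = ρ a i},
        s a x (fun i => w (κ.1 i)) := by
      intro x w
      simp only [F, Finset.sum_apply, sum_apply]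
      rfl
    have hFy : F y = 0 := by
      ext w
      rw [happ]
      exact core (ρ a₀) (fun a => s a y) ρ (fun v => by rw [← hG]; exact hy v) w
    have h0 := hI (ι a₀) F hF y hFy
    intro x w
    rw [← happ, h0]
    rfl
  let T : A → A → Type := fun a b => {e : ι a ≃ ι b // ∀ i, ρ b (e i) = ρ a i}
  let R : Setoid A :=
    { r := fun a b => Nonempty (T a b)
      iseqv := ⟨fun a => ⟨⟨Equiv.refl _, fun i => rfl⟩⟩,
        fun {a b} ⟨e⟩ => ⟨⟨e.1.symm, fun i => by
          rw [← e.2 (e.1.symm i), Equiv.apply_symm_apply]⟩⟩,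
        fun {a b c} ⟨e⟩ ⟨e'⟩ => ⟨⟨e.1.trans e'.1, fun i => by
          rw [Equiv.trans_apply, e'.2, e.2]⟩⟩⟩ }
  have hcl : ∀ a₀ : A, ∑ a with R.r a a₀, s a x (fun i => v (ρ a i)) = 0 := by
    intro a₀
    have h1 := key a₀ x (fun i => v (ρ a₀ i))
    have h2 : ∀ a, ∑ κ : T a a₀, s a x (fun i => v (ρ a₀ (κ.1 i))) =
        if R.r a a₀ then (Fintype.card (T a₀ a₀) : ℂ) * s a x (fun i => v (ρ a i)) else 0 := by
      intro a
      have h3 : ∀ κ : T a a₀, s a x (fun i => v (ρ a₀ (κ.1 i))) = s a x (fun i => v (ρ a i)) := by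
        intro κ
        congr 1
        funext i
        rw [κ.2]
      rw [Finset.sum_congr rfl (fun κ _ => h3 κ), Finset.sum_const, Finset.card_univ, nsmul_eq_mul]
      by_cases h4 : R.r a a₀
      · rw [if_pos h4]
        obtain ⟨e⟩ := h4
        congr 2
        refine Fintype.card_congr ⟨fun κ => ⟨e.1.symm.trans κ.1, fun i => ?_⟩,
          fun κ => ⟨e.1.trans κ.1, fun i => ?_⟩, fun κ => ?_, fun κ => ?_⟩
        · rw [Equiv.trans_apply, κ.2, ← e.2, Equiv.apply_symm_apply]
        · rw [Equiv.trans_apply, κ.2, e.2]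
        · exact Subtype.ext (by ext i; simp)
        · exact Subtype.ext (by ext i; simp)
      · rw [if_neg h4]
        have : IsEmpty (T a a₀) := not_nonempty_iff.mp h4
        rw [Fintype.card_eq_zero, Nat.cast_zero, zero_mul]
    have h5 : ∑ a, (if R.r a a₀ then (Fintype.card (T a₀ a₀) : ℂ) * s a x (fun i => v (ρ a i))
        else 0) = 0 := by
      exact (Finset.sum_congr rfl (fun a _ => (h2 a).symm)).trans h1
    rw [← Finset.sum_filter, ← Finset.mul_sum] at h5
    refine (mul_eq_zero.mp h5).resolve_left ?_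
    have : Nonempty (T a₀ a₀) := ⟨⟨Equiv.refl _, fun i => rfl⟩⟩
    exact Nat.cast_ne_zero.mpr Fintype.card_ne_zero
  rw [hG, ← Finset.sum_fiberwise (s := Finset.univ) (g := fun a => (Quotient.mk R a))]
  refine Finset.sum_eq_zero (fun q _ => ?_)
  obtain ⟨a₀, rfl⟩ := Quotient.exists_rep q
  rw [← hcl a₀]
  refine Finset.sum_congr ?_ (fun _ _ => rfl)
  ext a
  simp only [Finset.mem_filter, Finset.mem_univ, true_and]
  exact Quotient.eq

end MP_d4c35b_ag.TW
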