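import Pool.Agent.Lib.MP_d4c35b_ag.TW.Defs2

/-!
SEC of THEOREM W of MP_d4c35b_ag: continuous local sections of a finite torsor.
-/

set_option autoImplicit false

open scoped Manifold ContDiff Topology
open Function Set Filter

namespace MP_d4c35b_ag.TW

open MP_d4c35b_ag.TG

namespace pSECAux

/-- Step (1): solutions near a given solution. -/
theorem near {E V F G : Type} [NormedAddCommGroup E] [NormedAddCommGroup V] [ProperSpace V]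
    [NormedAddCommGroup F] [Group G] (ac : G → V → V) (O : Set E) (Φ : E × V → F)
    (h1 : ∀ m, ac 1 m = m) (hmul : ∀ g h m, ac (g * h) m = ac g (ac h m))
    (hcont : ∀ g, Continuous (ac g)) (hO : IsOpen O)
    (hΦ : ∀ u ∈ O, ∀ m, ContinuousAt Φ (u, m))
    (hex : ∀ u ∈ O, ∃ m, Φ (u, m) = 0)
    (hact : ∀ u ∈ O, ∀ m g, Φ (u, m) = 0 → Φ (u, ac g m) = 0)
    (htr : ∀ u ∈ O, ∀ m m', Φ (u, m) = 0 → Φ (u, m') = 0 → ∃ g, m' = ac g m)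
    (hbd : ∀ u ∈ O, ∃ C : ℝ, ∀ᶠ u' in 𝓝 u, ∀ m, Φ (u', m) = 0 → ‖m‖ ≤ C)
    (u₂ : E) (hu₂ : u₂ ∈ O) (m₂ : V) (hm₂ : Φ (u₂, m₂) = 0) (W : Set V) (hW : W ∈ 𝓝 m₂) :
    ∀ᶠ u in 𝓝 u₂, ∃ m ∈ W, Φ (u, m) = 0 := by
  classical
  by_contra hcon
  rw [Filter.not_eventually] at hcon
  obtain ⟨C, hC⟩ := hbd u₂ hu₂
  have hOn : ∀ᶠ u in 𝓝 u₂, u ∈ O := hO.mem_nhds hu₂
  -- the solutions
  have hsol : ∃ sol : E → V, ∀ u ∈ O, Φ (u, sol u) = 0 := by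
    choose! sol hs using hex
    exact ⟨sol, hs⟩
  obtain ⟨sol, hsol⟩ := hsol
  -- an ultrafilter
  have hne : NeBot (𝓝 u₂ ⊓ 𝓟 {u | ¬ ∃ m ∈ W, Φ (u, m) = 0}) := by
    exact Filter.frequently_mem_iff_neBot.1 hcon
  let U : Ultrafilter E := Ultrafilter.of (𝓝 u₂ ⊓ 𝓟 {u | ¬ ∃ m ∈ W, Φ (u, m) = 0})
  have hU : (U : Filter E) ≤ 𝓝 u₂ ⊓ 𝓟 {u | ¬ ∃ m ∈ W, Φ (u, m) = 0} := Ultrafilter.of_le _
  have hU1 : (U : Filter E) ≤ 𝓝 u₂ := hU.trans inf_le_left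
  have hU2 : ∀ᶠ u in (U : Filter E), ¬ ∃ m ∈ W, Φ (u, m) = 0 := by
    have := hU.trans inf_le_right
    exact le_principal_iff.1 this
  have hUO : ∀ᶠ u in (U : Filter E), u ∈ O := hOn.filter_mono hU1
  have hUC : ∀ᶠ u in (U : Filter E), ‖sol u‖ ≤ C := by
    filter_upwards [hUO, hC.filter_mono hU1] with u hu hb
    exact hb _ (hsol u hu)
  have hcpt : IsCompact (Metric.closedBall (0 : V) C) := isCompact_closedBall _ _
  have hmem : Metric.closedBall (0 : V) C ∈ U.map sol := by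
    rw [Ultrafilter.mem_map]
    have : ∀ᶠ u in (U : Filter E), u ∈ sol ⁻¹' Metric.closedBall (0 : V) C := by
      filter_upwards [hUC] with u hu
      simpa using hu
    exact this
  obtain ⟨m', -, hm'⟩ := isCompact_iff_ultrafilter_le_nhds'.1 hcpt (U.map sol) hmem
  have hts : Tendsto sol (U : Filter E) (𝓝 m') := hm'
  have htid : Tendsto (fun u : E => u) (U : Filter E) (𝓝 u₂) := hU1
  have htp : Tendsto (fun u : E => (u, sol u)) (U : Filter E) (𝓝 (u₂, m')) :=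
    htid.prodMk_nhds hts
  have htΦ : Tendsto (fun u : E => Φ (u, sol u)) (U : Filter E) (𝓝 (Φ (u₂, m'))) :=
    (hΦ u₂ hu₂ m').tendsto.comp htp
  have ht0 : Tendsto (fun u : E => Φ (u, sol u)) (U : Filter E) (𝓝 0) := by
    apply tendsto_const_nhds.congr'
    filter_upwards [hUO] with u hu
    exact (hsol u hu).symm
  have hz : Φ (u₂, m') = 0 := tendsto_nhds_unique htΦ ht0
  obtain ⟨g, hg⟩ := htr u₂ hu₂ m₂ m' hm₂ hz
  have hg' : ac g⁻¹ m' = m₂ := by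
    rw [hg, ← hmul, inv_mul_cancel, h1]
  have htg : Tendsto (fun u => ac g⁻¹ (sol u)) (U : Filter E) (𝓝 m₂) := by
    have := ((hcont g⁻¹).tendsto m').comp hts
    rw [hg'] at this
    exact this
  have hev : ∀ᶠ u in (U : Filter E), ac g⁻¹ (sol u) ∈ W := htg hW
  obtain ⟨u, hu, huO, huW⟩ := (hU2.and (hUO.and hev)).exists
  exact hu ⟨ac g⁻¹ (sol u), huW, hact u huO _ _ (hsol u huO)⟩

end pSECAux

open pSECAux in
theorem pSEC : S_SEC := by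
  classical
  intro E V F G _ _ _ _ _ _ ac O Φ h1 hmul hcont hO hΦ hex hact htr hfree hbd u₁ hu₁ m₁ hm₁
  have hnear := fun u₂ hu₂ m₂ hm₂ W hW =>
    near ac O Φ h1 hmul hcont hO hΦ hex hact htr hbd u₂ hu₂ m₂ hm₂ W hW
  -- step (2)
  have hev : {p : V × V | ∀ g : G, g ≠ 1 → p.2 ≠ ac g p.1} ∈ 𝓝 (m₁, m₁) := by
    have hall : ∀ g : G, ∀ᶠ p in 𝓝 (m₁, m₁), g ≠ 1 → p.2 ≠ ac g p.1 := by
      intro g
      by_cases hg : g = 1
      · exact Filter.Eventually.of_forall fun p hp => (hp hg).elim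
      · have hne : m₁ ≠ ac g m₁ := fun h => hg (hfree u₁ hu₁ m₁ g hm₁ h.symm)
        have hop : IsOpen {p : V × V | p.2 ≠ ac g p.1} :=
          isOpen_ne_fun continuous_snd ((hcont g).comp continuous_fst)
        have : ∀ᶠ p in 𝓝 (m₁, m₁), p ∈ {p : V × V | p.2 ≠ ac g p.1} := hop.mem_nhds hne
        exact this.mono fun p hp _ => hp
    exact Filter.eventually_all.2 hall
  obtain ⟨W₁, W₂, hW₁o, hm₁W₁, hW₂o, hm₁W₂, hWs⟩ := mem_nhds_prod_iff'.1 hev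
  let W : Set V := W₁ ∩ W₂
  have hWo : IsOpen W := hW₁o.inter hW₂o
  have hm₁W : m₁ ∈ W := ⟨hm₁W₁, hm₁W₂⟩
  have huniq : ∀ u ∈ O, ∀ m ∈ W, ∀ m' ∈ W, Φ (u, m) = 0 → Φ (u, m') = 0 → m' = m := by
    intro u hu m hm m' hm' h h'
    obtain ⟨g, hg⟩ := htr u hu m m' h h'
    by_cases hg1 : g = 1
    · rw [hg, hg1, h1]
    · have hmem : (m, m') ∈ {p : V × V | ∀ g : G, g ≠ 1 → p.2 ≠ ac g p.1} := hWs ⟨hm.1, hm'.2⟩
      exact (hmem g hg1 hg).elim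
  -- step (3)
  let S : Set E := {u | u ∈ O ∧ ∃ m ∈ W, Φ (u, m) = 0}
  have hS : ∀ u ∈ S, ∃ m, m ∈ W ∧ Φ (u, m) = 0 := fun u hu => by
    obtain ⟨-, m, hm, h⟩ := hu
    exact ⟨m, hm, h⟩
  choose! μ hμW hμ using hS
  have hSO : ∀ u ∈ S, u ∈ O := fun u hu => hu.1
  refine ⟨S, μ, ?_, ⟨hu₁, m₁, hm₁W, hm₁⟩, hSO, ?_, ?_⟩
  · rw [isOpen_iff_mem_nhds]
    intro u hu
    have ha := hnear u hu.1 (μ u) (hμ u hu) W (hWo.mem_nhds (hμW u hu))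
    have hb : ∀ᶠ v in 𝓝 u, v ∈ O := hO.mem_nhds hu.1
    filter_upwards [ha, hb] with v hv hv'
    exact ⟨hv', hv⟩
  · have hu₁S : u₁ ∈ S := ⟨hu₁, m₁, hm₁W, hm₁⟩
    exact huniq u₁ hu₁ m₁ hm₁W (μ u₁) (hμW u₁ hu₁S) hm₁ (hμ u₁ hu₁S)
  · intro u hu
    refine ⟨?_, hμ u hu⟩
    intro W' hW'
    have ha := hnear u hu.1 (μ u) (hμ u hu) (W ∩ W')
      (Filter.inter_mem (hWo.mem_nhds (hμW u hu)) hW')
    have hb : ∀ᶠ v in 𝓝 u, v ∈ O := hO.mem_nhds hu.1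
    rw [Filter.mem_map]
    filter_upwards [ha, hb] with v hv hv'
    obtain ⟨m, ⟨hmW, hmW'⟩, hm⟩ := hv
    have hvS : v ∈ S := ⟨hv', m, hmW, hm⟩
    have := huniq v hv' m hmW (μ v) (hμW v hvS) hm (hμ v hvS)
    change μ v ∈ W'
    rw [this]
    exact hmW'

end MP_d4c35b_ag.TW
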