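import Pool.Agent.Lib.MP_d4c35b_ag.TW.Defs

/-!
The finite cover defined by a Čech cocycle with values in a finite group.
-/

set_option autoImplicit false
set_option linter.unusedSectionVars false

open scoped Manifold ContDiff Topology
open Set

noncomputable section

namespace MP_d4c35b_ag.TW

open MP_d4c35b_ag.TG

namespace pTOPGAux

variable {X : Type} [TopologicalSpace X] {G : Type} [Group G] [TopologicalSpace G]
  [DiscreteTopology G]
  (U : X → Set X) (γ : X → X → X → G)
  (hU : ∀ i, IsOpen (U i)) (hmem : ∀ i, i ∈ U i)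
  (hlc : ∀ i j x, x ∈ U i → x ∈ U j → ∀ᶠ z in 𝓝 x, γ i j z = γ i j x)
  (hcoc : ∀ i j l x, x ∈ U i → x ∈ U j → x ∈ U l → γ i j x * γ j l x = γ i l x)

include hcoc in
theorem g_self (i x : X) (hi : x ∈ U i) : γ i i x = 1 := by
  have h1 := hcoc i i i x hi hi hi
  exact mul_left_cancel (a := γ i i x) (by rw [h1, mul_one])

/-- The fibre bundle core. -/
def core : FiberBundleCore X X G where
  baseSet := U
  isOpen_baseSet := hU
  indexAt := id
  mem_baseSet_at := hmem
  coordChange := fun i j x g => g * γ i j x
  coordChange_self := by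
    intro i x hx v
    rw [g_self U γ hcoc i x hx, mul_one]
  continuousOn_coordChange := by
    intro i j p hp
    apply ContinuousAt.continuousWithinAt
    have h1 : ∀ᶠ q : X × G in 𝓝 p, q.2 = p.2 := by
      have : Filter.Tendsto (fun q : X × G => q.2) (𝓝 p) (𝓝 p.2) := continuous_snd.tendsto p
      rw [nhds_discrete G] at this
      exact this.eventually (p := fun g : G => g = p.2) (Filter.eventually_pure.2 rfl)
    have h2 : ∀ᶠ q : X × G in 𝓝 p, γ i j q.1 = γ i j p.1 :=
      (continuous_fst.tendsto p).eventually (hlc i j p.1 hp.1.1 hp.1.2)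
    have h3 : (fun q : X × G => q.2 * γ i j q.1) =ᶠ[𝓝 p] fun _ => p.2 * γ i j p.1 := by
      filter_upwards [h1, h2] with q hq1 hq2
      rw [hq1, hq2]
    exact continuousAt_const.congr h3.symm
  coordChange_comp := by
    intro i j k x hx v
    rw [mul_assoc, hcoc i j k x hx.1.1 hx.1.2 hx.2]

end pTOPGAux

open pTOPGAux

theorem pTOPG : S_TOPG := by
  intro X _ _ _ _ _ G _ _ U γ hU hmem hlc hcoc
  let _ : TopologicalSpace G := ⊥
  have _ : DiscreteTopology G := ⟨rfl⟩
  let Z : FiberBundleCore X X G := core U γ hU hmem hlc hcoc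
  have hcov : IsCoveringMap (Bundle.TotalSpace.proj : Z.TotalSpace → X) :=
    FiberBundle.isCoveringMap
  -- T2
  have hT2 : T2Space Z.TotalSpace := by
    refine ⟨fun a b hab => ?_⟩
    by_cases hp : a.proj = b.proj
    · exact hcov.isSeparatedMap a b hp hab
    · obtain ⟨u, v, hu, hv, hau, hbv, huv⟩ := t2_separation hp
      exact ⟨_, _, hu.preimage hcov.continuous, hv.preimage hcov.continuous, hau, hbv,
        huv.preimage _⟩
  -- compact
  have hK : ∀ (i : X) (K : Set X), IsCompact K → K ⊆ U i →
      IsCompact ((Bundle.TotalSpace.proj : Z.TotalSpace → X) ⁻¹' K) := by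
    intro i K hKc hKU
    have h1 : IsCompact (K ×ˢ (univ : Set G)) := hKc.prod isCompact_univ
    have h2 : ContinuousOn (Z.localTriv i).toOpenPartialHomeomorph.symm
        (K ×ˢ (univ : Set G)) := by
      refine (Z.localTriv i).toOpenPartialHomeomorph.continuousOn_symm.mono ?_
      intro p hp
      rw [(Z.localTriv i).target_eq]
      exact ⟨hKU hp.1, trivial⟩
    have h3 := h1.image_of_continuousOn h2
    refine (h3.of_isClosed_subset (hKc.isClosed.preimage hcov.continuous) ?_)
    intro t ht
    have hts : t ∈ (Z.localTriv i).source := by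
      rw [(Z.localTriv i).source_eq]
      exact hKU ht
    refine ⟨(Z.localTriv i) t, ⟨?_, trivial⟩, (Z.localTriv i).left_inv hts⟩
    exact ht
  have hcomp : CompactSpace Z.TotalSpace := by
    have h1 : ∀ x : X, ∃ K : Set X, IsCompact K ∧ x ∈ interior K ∧ K ⊆ U x := fun x =>
      exists_compact_subset (hU x) (hmem x)
    choose K hKc hxK hKU using h1
    obtain ⟨s, hs⟩ := isCompact_univ.elim_finite_subcover (fun x => interior (K x))
      (fun x => isOpen_interior) (fun x _ => mem_iUnion.2 ⟨x, hxK x⟩)
    refine ⟨?_⟩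
    have h2 : IsCompact (⋃ x ∈ s, (Bundle.TotalSpace.proj : Z.TotalSpace → X) ⁻¹' K x) :=
      s.isCompact_biUnion (fun x _ => hK x (K x) (hKc x) (hKU x))
    refine h2.of_isClosed_subset isClosed_univ ?_
    intro t _
    have := hs (mem_univ t.proj)
    simp only [mem_iUnion] at this ⊢
    obtain ⟨x, hx, hxt⟩ := this
    exact ⟨x, hx, (interior_subset : interior (K x) ⊆ K x) hxt⟩
  -- locally connected
  have hlcs : LocallyConnectedSpace Z.TotalSpace := by
    rw [locallyConnectedSpace_iff_connected_subsets]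
    intro t W hW
    obtain ⟨e, het, hef⟩ := hcov.isLocalHomeomorph t
    have h1 : e '' (e.source ∩ interior W) ∈ 𝓝 (e t) := by
      refine IsOpen.mem_nhds ?_ ⟨t, ⟨het, mem_interior_iff_mem_nhds.2 hW⟩, rfl⟩
      exact e.isOpen_image_of_subset_source (e.open_source.inter isOpen_interior)
        inter_subset_left
    obtain ⟨V, hV, hVc, hVs⟩ := (locallyConnectedSpace_iff_connected_subsets.1
      (inferInstance : LocallyConnectedSpace X)) (e t) _ h1
    have hVt : V ⊆ e.target := by
      intro v hv
      obtain ⟨y, hy, rfl⟩ := hVs hv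
      exact e.map_source hy.1
    refine ⟨e.symm '' V, ?_, hVc.image _ (e.continuousOn_symm.mono hVt), ?_⟩
    · have h2 := e.symm.image_mem_nhds (x := e t) (e.map_source het) hV
      rwa [e.left_inv het] at h2
    · rintro _ ⟨v, hv, rfl⟩
      obtain ⟨y, hy, rfl⟩ := hVs hv
      rw [e.left_inv hy.1]
      exact interior_subset hy.2
  obtain ⟨x0⟩ := (inferInstance : Nonempty X)
  let t0 : Z.TotalSpace := ⟨x0, (1 : G)⟩
  let Y : Set Z.TotalSpace := connectedComponent t0
  have hYo : IsOpen Y := isOpen_connectedComponent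
  have hYc : IsClosed Y := isClosed_connectedComponent
  refine ⟨Y, inferInstance, fun y => y.1.proj,
    fun i y => ((Z.localTriv i) y.1).2, inferInstance, ?_, ?_, ?_, ?_, ?_⟩
  · exact isCompact_iff_compactSpace.1 hYc.isCompact
  · exact Subtype.connectedSpace isConnected_connectedComponent
  · exact hcov.isLocalHomeomorph.comp hYo.isOpenEmbedding_subtypeVal.isLocalHomeomorph
  · intro i y hy
    have h1 : ContinuousOn (Z.localTriv i) (Z.localTriv i).source :=
      (Z.localTriv i).continuousOn_toFun
    have h2 : ContinuousOn (fun y : Y => (Z.localTriv i) y.1)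
        ((fun y : Y => y.1.proj) ⁻¹' U i) := by
      refine h1.comp continuous_subtype_val.continuousOn ?_
      intro y hy
      rw [(Z.localTriv i).source_eq]
      exact hy
    have h3 : ContinuousOn (fun y : Y => ((Z.localTriv i) y.1).2)
        ((fun y : Y => y.1.proj) ⁻¹' U i) := continuous_snd.comp_continuousOn h2
    have h4 : IsOpen ((fun y : Y => y.1.proj) ⁻¹' U i) :=
      (hU i).preimage (hcov.continuous.comp continuous_subtype_val)
    have h5 := (h3.continuousAt (h4.mem_nhds hy)).tendsto
    rw [nhds_discrete G] at h5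
    exact h5.eventually (p := fun g : G => g = ((Z.localTriv i) y.1).2)
      (Filter.eventually_pure.2 rfl)
  · intro i j y hi hj
    have h1 : ∀ k, y.1.proj ∈ U k → (((Z.localTriv k) y.1).2 : G) =
        (show G from y.1.2) * γ y.1.proj k y.1.proj := fun k _ => rfl
    change (((Z.localTriv i) y.1).2 : G) * γ i j y.1.proj = (((Z.localTriv j) y.1).2 : G)
    rw [h1 i hi, h1 j hj, mul_assoc, hcoc y.1.proj i j y.1.proj (hmem _) hi hj]

end MP_d4c35b_ag.TW
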