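import Pool.Agent.Lib.MP_d4c35b_ag.TW.Defs

/-!
Transfer principle: the ranks of families of polynomial fields are constant.
-/

set_option autoImplicit false
set_option linter.unusedSectionVars false

open scoped Manifold ContDiff Topology
open Function Set

namespace MP_d4c35b_ag.TW

open MP_d4c35b_ag.TG

namespace pTPAux

/-- independent functions have a nonzero determinant of values -/
theorem exists_det {β : Type} {k : ℕ} (h : Fin k → β → ℂ) (hli : LinearIndependent ℂ h) :
    ∃ b : Fin k → β, (Matrix.of fun i j => h i (b j)).det ≠ 0 := by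
  classical
  set w : β → Fin k → ℂ := fun b i => h i b with hw
  have hspan : Submodule.span ℂ (range w) = ⊤ := by
    by_contra hne
    obtain ⟨φ, hφ0, hφ⟩ := Submodule.exists_le_ker_of_lt_top _ (lt_top_iff_ne_top.2 hne)
    have h1 : ∀ v : Fin k → ℂ, φ v = ∑ i, φ (Pi.single i 1) * v i := by
      intro v
      have h0 : v = ∑ i, v i • (Pi.single i (1 : ℂ) : Fin k → ℂ) := by
        funext j
        simp [Finset.sum_apply, Pi.single_apply]
      conv_lhs => rw [h0]
      rw [map_sum]
      refine Finset.sum_congr rfl fun i _ => ?_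
      rw [map_smul, smul_eq_mul, mul_comm]
    have h2 : ∑ i, φ (Pi.single i 1) • h i = 0 := by
      funext b
      have h3 : φ (w b) = 0 := hφ (Submodule.subset_span ⟨b, rfl⟩)
      rw [h1] at h3
      rw [Finset.sum_apply]
      exact h3
    have h3 := Fintype.linearIndependent_iff.1 hli _ h2
    apply hφ0
    apply LinearMap.ext
    intro v
    rw [h1 v]
    simp [h3]
  obtain ⟨B, hBw, hBs, hBi⟩ := exists_linearIndependent ℂ (range w)
  have hbs : (⊤ : Submodule ℂ (Fin k → ℂ)) ≤ Submodule.span ℂ (range ((↑) : B → Fin k → ℂ)) := by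
    rw [Subtype.range_coe, hBs, hspan]
  let bb : Module.Basis B ℂ (Fin k → ℂ) := Module.Basis.mk hBi hbs
  let e : Fin k ≃ B := (Pi.basisFun ℂ (Fin k)).indexEquiv bb
  have hpre : ∀ j : Fin k, ∃ b : β, w b = (e j : Fin k → ℂ) := fun j => hBw (e j).2
  choose b hb using hpre
  refine ⟨b, ?_⟩
  have h4 : LinearIndependent ℂ (fun j => (Matrix.of fun i j => h i (b j)).col j) := by
    have h5 : (fun j => (Matrix.of fun i j => h i (b j)).col j) =
        fun j => ((e j : B) : Fin k → ℂ) := by
      funext j i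
      rw [← hb j]
      rfl
    rw [h5]
    exact hBi.comp e e.injective
  have h6 := Matrix.linearIndependent_cols_iff_isUnit.1 h4
  exact ((Matrix.isUnit_iff_isUnit_det _).1 h6).ne_zero

/-- converse -/
theorem li_of_det {β : Type} {k : ℕ} (h : Fin k → β → ℂ) (b : Fin k → β)
    (hd : (Matrix.of fun i j => h i (b j)).det ≠ 0) : LinearIndependent ℂ h := by
  rw [Fintype.linearIndependent_iff]
  intro c hc
  have h1 : Matrix.vecMul c (Matrix.of fun i j => h i (b j)) = 0 := by
    funext j
    have h2 := congrFun hc (b j)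
    rw [Finset.sum_apply] at h2
    rw [Matrix.vecMul, dotProduct]
    exact h2
  intro i
  exact congrFun (Matrix.eq_zero_of_vecMul_eq_zero hd h1) i

variable {E : Type} [NormedAddCommGroup E] [NormedSpace ℂ E] [FiniteDimensional ℂ E]
variable {X : Type} [TopologicalSpace X] [ChartedSpace E X] [IsManifold 𝓘(ℂ, E) ω X]

/-- the values of a PF field span a finite-dimensional space of functions of the second group of
variables -/
theorem fin_of_PF {n m : Type} {G : X → (n ⊕ m → E) → ℂ} (hG : PF G) (x : X) :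
    ∃ (T : Type) (_ : Fintype T) (P : T → (m → E) → ℂ), ∀ a : n → E,
      (fun b : m → E => G x (Sum.elim a b)) ∈ Submodule.span ℂ (range P) := by
  classical
  obtain ⟨A, _, ι, hι, s, ρ, hs, hGe⟩ := hG
  set bs := Module.finBasis ℂ E with hbs
  have hfi : ∀ a, Fintype (ι a → Fin (Module.finrank ℂ E)) := fun a => inferInstance
  let T : Type := Σ a : A, (ι a → Fin (Module.finrank ℂ E))
  let P : T → (m → E) → ℂ := fun t b =>
    ∏ i, Sum.elim (fun _ => (1 : ℂ)) (fun j => bs.coord (t.2 i) (b j)) (ρ t.1 i)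
  refine ⟨T, inferInstance, P, ?_⟩
  intro a
  have h1 : (fun b : m → E => G x (Sum.elim a b)) =
      ∑ t : T, (s t.1 x (fun i => bs (t.2 i)) *
        ∏ i, Sum.elim (fun j => bs.coord (t.2 i) (a j)) (fun _ => (1 : ℂ)) (ρ t.1 i)) • P t := by
    funext b
    rw [Finset.sum_apply, hGe, Fintype.sum_sigma]
    refine Finset.sum_congr rfl fun c _ => ?_
    rw [mm_exp_apply bs (s c x) LinearMap.id LinearMap.id
      (fun i => (Sum.elim a b : n ⊕ m → E) (ρ c i)) (fun i => rfl)]
    refine Finset.sum_congr (by ext; simp) fun I _ => ?_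
    rw [Pi.smul_apply, smul_eq_mul, mul_assoc]
    congr 1
    rw [← Finset.prod_mul_distrib]
    refine Finset.prod_congr rfl fun i _ => ?_
    cases h2 : ρ c i with
    | inl j => simp
    | inr j => simp
  rw [h1]
  exact Submodule.sum_mem _ fun t _ => Submodule.smul_mem _ _ (Submodule.subset_span ⟨t, rfl⟩)

/-- the determinant field -/
theorem pf_det (hPFC : S_PFC) {n m : Type} {k : ℕ} (H : Fin k → X → (n ⊕ m → E) → ℂ)
    (hH : ∀ i, PF (H i)) :
    PF (fun (x : X) (v : (Fin k × n) ⊕ (Fin k × m) → E) =>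
      (Matrix.of fun i j => H i x (fun s => v (Sum.map (fun p => (i, p)) (fun p => (j, p)) s))).det)
      := by
  classical
  obtain ⟨-, h2, -, h4, -, -, -⟩ := hPFC E X ((Fin k × n) ⊕ (Fin k × m))
  have hren : ∀ i j, PF (fun (x : X) (v : (Fin k × n) ⊕ (Fin k × m) → E) =>
      H i x (fun s => v (Sum.map (fun p => (i, p)) (fun p => (j, p)) s))) := by
    intro i j
    exact (hPFC E X ((Fin k × n) ⊕ (Fin k × m))).2.2.2.2.2.2 (n ⊕ m)
      (Sum.map (fun p => (i, p)) (fun p => (j, p))) (H i) (hH i)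
  have hprod : ∀ σ : Equiv.Perm (Fin k), PF (fun (x : X) (v : (Fin k × n) ⊕ (Fin k × m) → E) =>
      ∏ i, H (σ i) x (fun s => v (Sum.map (fun p => (σ i, p)) (fun p => (i, p)) s))) := by
    intro σ
    exact (hPFC E X ((Fin k × n) ⊕ (Fin k × m))).2.2.2.2.2.1 (Fin k)
      (fun i x v => H (σ i) x (fun s => v (Sum.map (fun p => (σ i, p)) (fun p => (i, p)) s)))
      (fun i => hren (σ i) i)
  have hterm : ∀ σ : Equiv.Perm (Fin k), PF (fun (x : X) (v : (Fin k × n) ⊕ (Fin k × m) → E) =>
      ((Equiv.Perm.sign σ : ℤ) : ℂ) *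
      ∏ i, H (σ i) x (fun s => v (Sum.map (fun p => (σ i, p)) (fun p => (i, p)) s))) := by
    intro σ
    exact h4 _ _ (h2 ((Equiv.Perm.sign σ : ℤ) : ℂ)) (hprod σ)
  have hsum := (hPFC E X ((Fin k × n) ⊕ (Fin k × m))).2.2.2.2.1 (Equiv.Perm (Fin k))
    (fun σ x v => ((Equiv.Perm.sign σ : ℤ) : ℂ) *
      ∏ i, H (σ i) x (fun s => v (Sum.map (fun p => (σ i, p)) (fun p => (i, p)) s))) hterm
  have heq : (fun (x : X) (v : (Fin k × n) ⊕ (Fin k × m) → E) =>
      (Matrix.of fun i j => H i x (fun s => v (Sum.map (fun p => (i, p)) (fun p => (j, p)) s))).det)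
      = fun x v => ∑ σ : Equiv.Perm (Fin k), ((Equiv.Perm.sign σ : ℤ) : ℂ) *
      ∏ i, H (σ i) x (fun s => v (Sum.map (fun p => (σ i, p)) (fun p => (i, p)) s)) := by
    funext x v
    rw [Matrix.det_apply']
    rfl
  rw [heq]
  exact hsum

/-- nonvanishing determinants are transported from point to point -/
theorem det_transfer (hPFI : S_PFI) (hPFC : S_PFC) (hinj : INJ E X) {n m : Type} [Fintype n]
    [Fintype m] {k : ℕ} (H : Fin k → X → (n ⊕ m → E) → ℂ) (hH : ∀ i, PF (H i)) (x y : X)
    (a : Fin k → n → E) (b : Fin k → m → E)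
    (hd : (Matrix.of fun i j => H i x (Sum.elim (a i) (b j))).det ≠ 0) :
    ∃ (a' : Fin k → n → E) (b' : Fin k → m → E),
      (Matrix.of fun i j => H i y (Sum.elim (a' i) (b' j))).det ≠ 0 := by
  by_contra hcon
  push Not at hcon
  have h1 := hPFI E X hinj ((Fin k × n) ⊕ (Fin k × m)) _ (pf_det hPFC H hH) y (by
    intro v
    have h2 := hcon (fun i p => v (Sum.inl (i, p))) (fun j p => v (Sum.inr (j, p)))
    rw [← h2]
    congr 1
    ext i j
    simp only [Matrix.of_apply]
    congr 1
    funext s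
    cases s <;> rfl) x (Sum.elim (fun p => a p.1 p.2) (fun p => b p.1 p.2))
  apply hd
  rw [← h1]
  congr 1
  ext i j
  simp only [Matrix.of_apply]
  congr 1
  funext s
  cases s <;> rfl

end pTPAux

open pTPAux

theorem pTP (hPFI : S_PFI) (hPFC : S_PFC) : S_TP := by
  classical
  intro E _ _ _ X _ _ _ hinj n m Q _ _ _ f g hf hg x₀ x hx₀
  -- the sets
  set A : X → Set ((m → E) → ℂ) := fun y => {h | ∃ q a', h = fun b => f q y (Sum.elim a' b)}
    with hA
  set P : X → ℕ → Prop := fun y k => ∃ h : Fin k → (m → E) → ℂ, (∀ i, h i ∈ A y) ∧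
    LinearIndependent ℂ h with hP
  have hPt : ∀ y z k, P y k → P z k := by
    rintro y z k ⟨h, hh, hli⟩
    choose q a ha using hh
    obtain ⟨b, hb⟩ := exists_det h hli
    have hb' : (Matrix.of fun i j => f (q i) y (Sum.elim (a i) (b j))).det ≠ 0 := by
      intro h0
      apply hb
      rw [← h0]
      congr 1
      ext i j
      simp only [Matrix.of_apply]
      rw [ha i]
    obtain ⟨a', b', hd⟩ := det_transfer hPFI hPFC hinj (fun i => f (q i)) (fun i => hf (q i))
      y z a b hb'
    exact ⟨fun i b => f (q i) z (Sum.elim (a' i) b), fun i => ⟨q i, a' i, rfl⟩,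
      li_of_det _ b' hd⟩
  -- finite dimension at x
  have hfin : ∃ D : ℕ, ∀ k, P x k → k ≤ D := by
    have h1 : ∀ q, ∃ (T : Type) (_ : Fintype T) (R : T → (m → E) → ℂ), ∀ a : n → E,
      (fun b : m → E => f q x (Sum.elim a b)) ∈ Submodule.span ℂ (range R) :=
      fun q => fin_of_PF (hf q) x
    choose T hT R hR using h1
    set W : Submodule ℂ ((m → E) → ℂ) :=
      Submodule.span ℂ (range fun t : (Σ q, T q) => R t.1 t.2) with hW
    have hWf : Module.Finite ℂ W := Module.Finite.span_of_finite ℂ (Set.finite_range _)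
    have hAW : ∀ h ∈ A x, h ∈ W := by
      rintro h ⟨q, a', rfl⟩
      refine Submodule.span_mono ?_ (hR q a')
      rintro _ ⟨t, rfl⟩
      exact ⟨⟨q, t⟩, rfl⟩
    refine ⟨Module.finrank ℂ W, ?_⟩
    rintro k ⟨h, hh, hli⟩
    have h2 : LinearIndependent ℂ (fun i => (⟨h i, hAW _ (hh i)⟩ : W)) :=
      LinearIndependent.of_comp W.subtype hli
    simpa using h2.fintype_card_le_finrank
  obtain ⟨D, hD⟩ := hfin
  have hP0 : P x 0 := ⟨fun i => i.elim0, fun i => i.elim0, linearIndependent_empty_type⟩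
  obtain ⟨k, hk, hmax⟩ : ∃ k, P x k ∧ ∀ l, P x l → l ≤ k := by
    refine ⟨Nat.findGreatest (P x) D, ?_, ?_⟩
    · exact Nat.findGreatest_spec (Nat.zero_le _) hP0
    · intro l hl
      exact Nat.le_findGreatest (hD l hl) hl
  -- a maximal independent family spans
  have hsp : ∀ y (h : Fin k → (m → E) → ℂ), (∀ i, h i ∈ A y) → LinearIndependent ℂ h →
      Submodule.span ℂ (A y) = Submodule.span ℂ (range h) := by
    intro y h hh hli
    refine le_antisymm (Submodule.span_le.2 ?_) (Submodule.span_mono ?_)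
    · intro u hu
      by_contra hcon
      have h1 : LinearIndependent ℂ (Fin.snoc h u : Fin (k + 1) → (m → E) → ℂ) :=
        linearIndependent_finSnoc.2 ⟨hli, hcon⟩
      have h2 : P y (k + 1) := by
        refine ⟨_, ?_, h1⟩
        intro i
        refine Fin.lastCases ?_ (fun j => ?_) i
        · rw [Fin.snoc_last]; exact hu
        · rw [Fin.snoc_castSucc]; exact hh j
      have h3 := hmax _ (hPt y x _ h2)
      omega
    · rintro _ ⟨i, rfl⟩
      exact hh i
  -- main argument
  obtain ⟨h0, hh0, hli0⟩ := hPt x x₀ k hk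
  have hdim : Module.finrank ℂ (Submodule.span ℂ (A x₀)) ≤ k := by
    rw [hsp x₀ h0 hh0 hli0]
    have := finrank_range_le_card (R := ℂ) h0
    simpa [Set.finrank] using this
  have hfd : Module.Finite ℂ (Submodule.span ℂ (A x₀)) := by
    rw [hsp x₀ h0 hh0 hli0]
    exact Module.Finite.span_of_finite ℂ (Set.finite_range _)
  intro a
  by_contra hcon
  obtain ⟨h, hh, hli⟩ := hk
  rw [hsp x h hh hli] at hcon
  choose q a₁ ha₁ using hh
  set H : Fin (k + 1) → X → (n ⊕ m → E) → ℂ := Fin.snoc (fun i => f (q i)) g with hH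
  have hHP : ∀ i, PF (H i) := by
    intro i
    refine Fin.lastCases ?_ (fun j => ?_) i
    · rw [hH, Fin.snoc_last]; exact hg
    · rw [hH, Fin.snoc_castSucc]; exact hf _
  have hli1 : LinearIndependent ℂ (Fin.snoc h (fun b => g x (Sum.elim a b)) :
      Fin (k + 1) → (m → E) → ℂ) := linearIndependent_finSnoc.2 ⟨hli, hcon⟩
  obtain ⟨b, hb⟩ := exists_det _ hli1
  have hb' : (Matrix.of fun i j => H i x
      (Sum.elim ((Fin.snoc a₁ a : Fin (k + 1) → n → E) i) (b j))).det ≠ 0 := by
    intro h00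
    apply hb
    rw [← h00]
    congr 1
    ext i j
    simp only [Matrix.of_apply]
    refine Fin.lastCases ?_ (fun l => ?_) i
    · rw [hH, Fin.snoc_last, Fin.snoc_last, Fin.snoc_last]
    · rw [hH, Fin.snoc_castSucc, Fin.snoc_castSucc, Fin.snoc_castSucc, ha₁ l]
  obtain ⟨a', b', hd⟩ := det_transfer hPFI hPFC hinj H hHP x x₀ _ b hb'
  have hli2 : LinearIndependent ℂ
      (fun (i : Fin (k + 1)) (b : m → E) => H i x₀ (Sum.elim (a' i) b)) := li_of_det _ b' hd
  have hmem : ∀ i : Fin (k + 1), (fun b : m → E => H i x₀ (Sum.elim (a' i) b)) ∈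
      Submodule.span ℂ (A x₀) := by
    intro i
    refine Fin.lastCases ?_ (fun l => ?_) i
    · rw [hH, Fin.snoc_last]
      exact hx₀ _
    · rw [hH, Fin.snoc_castSucc]
      exact Submodule.subset_span ⟨q l, a' l.castSucc, rfl⟩
  have hli3 : LinearIndependent ℂ (fun i : Fin (k + 1) =>
      (⟨fun b : m → E => H i x₀ (Sum.elim (a' i) b), hmem i⟩ : Submodule.span ℂ (A x₀))) :=
    LinearIndependent.of_comp (Submodule.span ℂ (A x₀)).subtype hli2
  have h9 := hli3.fintype_card_le_finrank
  rw [Fintype.card_fin] at h9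
  omega

end MP_d4c35b_ag.TW
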