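import Pool.Agent.Lib.MP_d4c35b_ag.TW.Defs

/-!
Uniform degree of sections without common zero; powers of functionals on multilinear forms.

`prodK t₁ t₂` : the product of two functionals (slots `ι ⊕ κ`), `HK_prodK`, `HK_reixK`,
`exists_pow` : powers of a holomorphic contravariant field in `Fin (q * k)` slots.
-/

set_option autoImplicit false
set_option linter.unusedSectionVars false

open scoped Manifold ContDiff Topology
open Function Set

namespace MP_d4c35b_ag.TW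

open MP_d4c35b_ag.TG

namespace pUNIAux

variable {E : Type} [NormedAddCommGroup E] [NormedSpace ℂ E]

/-- the product of the values of a covector over all slots -/
noncomputable def pwI (ι : Type) [Fintype ι] (ξ : E →ₗ[ℂ] ℂ) : MM E ι :=
  (MultilinearMap.mkPiAlgebra ℂ ι ℂ).compLinearMap (fun _ => ξ)

theorem pwI_apply {ι : Type} [Fintype ι] (ξ : E →ₗ[ℂ] ℂ) (v : ι → E) :
    pwI ι ξ v = ∏ i, ξ (v i) := by simp [pwI]

theorem pwM_apply (k : ℕ) (ξ : E →ₗ[ℂ] ℂ) (v : Fin k → E) : pwM k ξ v = ∏ i, ξ (v i) := by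
  simp [pwM, tpm]

theorem pwI_fin (k : ℕ) (ξ : E →ₗ[ℂ] ℂ) : pwI (Fin k) ξ = pwM k ξ := by
  ext v
  rw [pwI_apply, pwM_apply]

/-- the product of two functionals -/
noncomputable def prodK {ι κ : Type} (t₁ : MM E ι →ₗ[ℂ] ℂ) (t₂ : MM E κ →ₗ[ℂ] ℂ) :
    MM E (ι ⊕ κ) →ₗ[ℂ] ℂ where
  toFun m := t₁ (t₂.compMultilinearMap m.currySum)
  map_add' a b := by
    rw [← map_add]
    congr 1
    ext v
    exact t₂.map_add (a.currySum v) (b.currySum v)
  map_smul' c a := by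
    rw [RingHom.id_apply, ← map_smul]
    congr 1
    ext v
    exact t₂.map_smul c (a.currySum v)

theorem prodK_apply {ι κ : Type} (t₁ : MM E ι →ₗ[ℂ] ℂ) (t₂ : MM E κ →ₗ[ℂ] ℂ)
    (m : MM E (ι ⊕ κ)) : prodK t₁ t₂ m = t₁ (t₂.compMultilinearMap m.currySum) := rfl

theorem prodK_pw {ι κ : Type} [Fintype ι] [Fintype κ] (t₁ : MM E ι →ₗ[ℂ] ℂ)
    (t₂ : MM E κ →ₗ[ℂ] ℂ) (ξ : E →ₗ[ℂ] ℂ) :
    prodK t₁ t₂ (pwI (ι ⊕ κ) ξ) = t₁ (pwI ι ξ) * t₂ (pwI κ ξ) := by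
  have h1 : ∀ v : ι → E, (pwI (ι ⊕ κ) ξ).currySum v = (∏ i, ξ (v i)) • pwI κ ξ := by
    intro v
    ext w
    rw [MultilinearMap.currySum_apply', pwI_apply, Fintype.prod_sum_type,
      smul_apply, pwI_apply]
    rfl
  have h2 : t₂.compMultilinearMap (pwI (ι ⊕ κ) ξ).currySum = t₂ (pwI κ ξ) • pwI ι ξ := by
    ext v
    rw [LinearMap.compMultilinearMap_apply, h1, map_smul, smul_apply, pwI_apply,
      smul_eq_mul, smul_eq_mul, mul_comm]
  rw [prodK_apply, h2, map_smul, smul_eq_mul, mul_comm]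

/-- renaming the slots of a functional -/
noncomputable def reixK {ι ι' : Type} (e : ι ≃ ι') (t : MM E ι →ₗ[ℂ] ℂ) : MM E ι' →ₗ[ℂ] ℂ where
  toFun m := t (m.domDomCongr e.symm)
  map_add' a b := by
    rw [← map_add]; rfl
  map_smul' c a := by
    rw [RingHom.id_apply, ← map_smul]; rfl

theorem reixK_apply {ι ι' : Type} (e : ι ≃ ι') (t : MM E ι →ₗ[ℂ] ℂ) (m : MM E ι') :
    reixK e t m = t (m.domDomCongr e.symm) := rfl

theorem reixK_pw {ι ι' : Type} [Fintype ι] [Fintype ι'] (e : ι ≃ ι') (t : MM E ι →ₗ[ℂ] ℂ)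
    (ξ : E →ₗ[ℂ] ℂ) : reixK e t (pwI ι' ξ) = t (pwI ι ξ) := by
  rw [reixK_apply]
  congr 1
  ext v
  rw [MultilinearMap.domDomCongr_apply, pwI_apply, pwI_apply]
  exact Equiv.prod_comp e.symm (fun i => ξ (v i))

/-- the functional `m ↦ m ()` -/
noncomputable def unK {ι : Type} [IsEmpty ι] : MM E ι →ₗ[ℂ] ℂ where
  toFun m := m isEmptyElim
  map_add' _ _ := rfl
  map_smul' _ _ := rfl

theorem unK_pw {ι : Type} [Fintype ι] [IsEmpty ι] (ξ : E →ₗ[ℂ] ℂ) :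
    (unK : MM E ι →ₗ[ℂ] ℂ) (pwI ι ξ) = 1 := by
  change pwI ι ξ isEmptyElim = 1
  rw [pwI_apply]
  simp

variable [FiniteDimensional ℂ E]
variable {X : Type} [TopologicalSpace X] [ChartedSpace E X] [IsManifold 𝓘(ℂ, E) ω X]

theorem HK_prodK {ι κ : Type} [Fintype ι] [Fintype κ] {τ₁ : X → MM E ι →ₗ[ℂ] ℂ}
    {τ₂ : X → MM E κ →ₗ[ℂ] ℂ} (h₁ : HK τ₁) (h₂ : HK τ₂) :
    HK (fun x => prodK (τ₁ x) (τ₂ x)) := by
  rw [HK_iff]
  intro y m
  set M : X → MM E ι := fun z =>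
    ((τ₂ z).comp (MultilinearMap.compLinearMapₗ
      (fun _ : κ => (ofT y z : E →L[ℂ] E).toLinearMap))).compMultilinearMap m.currySum with hM
  have h3 := da_HK (f := fun z : X => z) (HK_iff.mp h₁ y) mdifferentiableAt_id (m := M)
    (fun v => HK_iff.mp h₂ y (m.currySum v))
  refine h3.congr_of_eventuallyEq (Filter.Eventually.of_forall fun z => ?_)
  change τ₁ z _ = τ₁ z _
  congr 1
  ext v
  change τ₂ z _ = τ₂ z _
  congr 1
  ext w
  change m _ = m _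
  congr 1
  funext i
  cases i <;> rfl

theorem HK_reixK {ι ι' : Type} [Fintype ι] [Fintype ι'] (e : ι ≃ ι') {τ : X → MM E ι →ₗ[ℂ] ℂ}
    (h : HK τ) : HK (fun x => reixK e (τ x)) := by
  intro x₀ m
  exact h x₀ (m.domDomCongr e.symm)

theorem HK_unK {ι : Type} [IsEmpty ι] : HK (fun _ : X => (unK : MM E ι →ₗ[ℂ] ℂ)) := by
  intro x₀ m
  have h1 : (fun x : X => (unK : MM E ι →ₗ[ℂ] ℂ)
      (m.compLinearMap (fun _ => (ofT x₀ x : E →L[ℂ] E).toLinearMap))) =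
      fun _ => m isEmptyElim := by
    funext x
    change m _ = m _
    congr 1
    funext i
    exact isEmptyElim i
  rw [h1]
  exact mdifferentiableOn_const

/-- powers -/
theorem exists_pow {k : ℕ} {τ : X → MM E (Fin k) →ₗ[ℂ] ℂ} (h : HK τ) (q : ℕ) :
    ∃ σ : X → MM E (Fin (q * k)) →ₗ[ℂ] ℂ, HK σ ∧
      ∀ x ξ, σ x (pwM (q * k) ξ) = (τ x (pwM k ξ)) ^ q := by
  induction q with
  | zero =>
    have : IsEmpty (Fin (0 * k)) := by rw [Nat.zero_mul]; infer_instance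
    refine ⟨fun _ => unK, HK_unK, fun x ξ => ?_⟩
    rw [← pwI_fin, unK_pw, pow_zero]
  | succ q ih =>
    obtain ⟨σ, hσ, hσp⟩ := ih
    have hq : q * k + k = (q + 1) * k := (Nat.succ_mul q k).symm
    refine ⟨fun x => reixK (finSumFinEquiv.trans (finCongr hq)) (prodK (σ x) (τ x)),
      HK_reixK _ (HK_prodK hσ h), fun x ξ => ?_⟩
    rw [← pwI_fin, reixK_pw, prodK_pw, pwI_fin, pwI_fin, hσp, pow_succ]

/-- the covector with given coordinates -/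
noncomputable def xi {d : ℕ} (b : Module.Basis (Fin d) ℂ E) (z : Fin d → ℂ) : E →ₗ[ℂ] ℂ :=
  ∑ j, z j • b.coord j

theorem xi_apply {d : ℕ} (b : Module.Basis (Fin d) ℂ E) (z : Fin d → ℂ) (i : Fin d) :
    xi b z (b i) = z i := by
  rw [xi, LinearMap.sum_apply]
  simp [Finsupp.single_apply]

theorem xi_coord {d : ℕ} (b : Module.Basis (Fin d) ℂ E) (ξ : E →ₗ[ℂ] ℂ) :
    xi b (fun j => ξ (b j)) = ξ := by
  refine b.ext fun i => ?_
  rw [xi_apply]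

theorem eval_xi {d k : ℕ} (b : Module.Basis (Fin d) ℂ E) (t : MM E (Fin k) →ₗ[ℂ] ℂ)
    (z : Fin d → ℂ) :
    t (pwM k (xi b z)) = ∑ I : Fin k → Fin d, (∏ i, z (I i)) * t (EI b I) := by
  have h1 := mm_exp b (pwM k (xi b z)) LinearMap.id LinearMap.id (fun v => rfl)
  rw [h1, map_sum]
  refine Finset.sum_congr rfl fun I _ => ?_
  rw [map_smul, smul_eq_mul, pwM_apply]
  congr 1
  refine Finset.prod_congr rfl fun i _ => ?_
  exact xi_apply b z (I i)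

theorem cont_xi {d k : ℕ} (b : Module.Basis (Fin d) ℂ E) (t : MM E (Fin k) →ₗ[ℂ] ℂ) :
    Continuous (fun z : Fin d → ℂ => t (pwM k (xi b z))) := by
  simp only [eval_xi]
  fun_prop

theorem pw_smul (k : ℕ) (c : ℂ) (ξ : E →ₗ[ℂ] ℂ) : pwM k (c • ξ) = c ^ k • pwM k ξ := by
  ext v
  rw [pwM_apply, smul_apply, pwM_apply]
  simp [Finset.prod_mul_distrib]

end pUNIAux

open pUNIAux

theorem pUNI : S_UNI := by
  classical
  intro E _ _ _ X _ _ _ x₀ hx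
  set b := Module.finBasis ℂ E with hb
  have hne : ∀ z : Fin (Module.finrank ℂ E) → ℂ, z ≠ 0 → xi b z ≠ 0 := by
    intro z hz h0
    apply hz
    funext i
    rw [← xi_apply b z i, h0]
    rfl
  set S : Set (Fin (Module.finrank ℂ E) → ℂ) := Metric.sphere 0 1 with hS
  have hSne : ∀ z ∈ S, z ≠ 0 := by
    intro z hz h0
    rw [hS, mem_sphere_zero_iff_norm, h0, norm_zero] at hz
    exact zero_ne_one hz
  have hch : ∀ z : S, ∃ (k : ℕ) (_ : 1 ≤ k) (τ : X → MM E (Fin k) →ₗ[ℂ] ℂ),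
      HK τ ∧ τ x₀ (pwM k (xi b z.1)) ≠ 0 := fun z => hx _ (hne z.1 (hSne z.1 z.2))
  choose k hk τ hτ hτ0 using hch
  obtain ⟨t, ht⟩ := (isCompact_sphere (0 : Fin (Module.finrank ℂ E) → ℂ) 1).elim_finite_subcover
    (fun z : S => {w | τ z x₀ (pwM (k z) (xi b w)) ≠ 0})
    (fun z => isOpen_ne_fun (cont_xi b (τ z x₀)) continuous_const)
    (fun z hz => mem_iUnion.2 ⟨⟨z, hz⟩, hτ0 ⟨z, hz⟩⟩)
  set K : ℕ := ∏ z ∈ t, k z with hK
  have hK1 : 1 ≤ K := Nat.one_le_iff_ne_zero.2 (Finset.prod_ne_zero_iff.2 fun z _ =>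
    Nat.one_le_iff_ne_zero.1 (hk z))
  have hpow : ∀ a : t, ∃ σ : X → MM E (Fin K) →ₗ[ℂ] ℂ, HK σ ∧
      ∀ ξ, σ x₀ (pwM K ξ) = 0 → τ a.1 x₀ (pwM (k a.1) ξ) = 0 := by
    intro a
    have hdvd : k a.1 ∣ K := Finset.dvd_prod_of_mem k a.2
    obtain ⟨q, hq⟩ := hdvd
    rw [Nat.mul_comm] at hq
    rw [hq]
    obtain ⟨σ, hσ, hσp⟩ := exists_pow (hτ a.1) q
    refine ⟨σ, hσ, fun ξ h0 => ?_⟩
    rw [hσp] at h0
    exact eq_zero_of_pow_eq_zero h0
  choose σ hσ hσ0 using hpow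
  refine ⟨K, hK1, t, inferInstance, σ, hσ, ?_⟩
  intro ξ hξ
  by_contra hcon
  set z : Fin (Module.finrank ℂ E) → ℂ := fun j => ξ (b j) with hz
  have hzξ : xi b z = ξ := xi_coord b ξ
  have hz0 : z ≠ 0 := by
    intro h0
    apply hcon
    rw [← hzξ, h0, xi]
    simp
  have hzn : (‖z‖ : ℂ) ≠ 0 := by exact_mod_cast norm_ne_zero_iff.2 hz0
  set c : ℂ := (‖z‖ : ℂ)⁻¹ with hc
  have hc0 : c ≠ 0 := inv_ne_zero hzn
  have hcz : c • z ∈ Metric.sphere (0 : Fin (Module.finrank ℂ E) → ℂ) 1 := by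
    rw [mem_sphere_zero_iff_norm, norm_smul, hc, norm_inv, Complex.norm_real, norm_norm,
      inv_mul_cancel₀ (norm_ne_zero_iff.2 hz0)]
  have h1 := ht hcz
  simp only [mem_iUnion] at h1
  obtain ⟨a, ha, hne0⟩ := h1
  apply hne0
  have h2 : xi b (c • z) = c • ξ := by
    rw [← hzξ, xi, xi, Finset.smul_sum]
    refine Finset.sum_congr rfl fun j _ => ?_
    rw [smul_smul]
    rfl
  rw [h2, pw_smul, map_smul, hσ0 ⟨a, ha⟩ ξ (hξ ⟨a, ha⟩), smul_zero]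

end MP_d4c35b_ag.TW
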