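import Pool.Agent.Lib.MP_d4c35b_ag.TW.FinW
import Pool.Agent.Lib.MP_d4c35b_ag.TW.FD
import Pool.Agent.Lib.MP_d4c35b_ag.TW.ORD
import Pool.Agent.Lib.MP_d4c35b_ag.TW.NSH
import Pool.Agent.Lib.MP_d4c35b_ag.TW.KL
import Pool.Agent.Lib.MP_d4c35b_ag.TW.PFI
import Pool.Agent.Lib.MP_d4c35b_ag.TW.PFC
import Pool.Agent.Lib.MP_d4c35b_ag.TW.TP
import Pool.Agent.Lib.MP_d4c35b_ag.TW.GF
import Pool.Agent.Lib.MP_d4c35b_ag.TW.GRP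
import Pool.Agent.Lib.MP_d4c35b_ag.TW.LOC
import Pool.Agent.Lib.MP_d4c35b_ag.TW.TOPG
import Pool.Agent.Lib.MP_d4c35b_ag.TW.UNI
import Pool.Agent.Lib.MP_d4c35b_ag.TW.NZ
import Pool.Agent.Lib.MP_d4c35b_ag.TW.JN
import Pool.Agent.Lib.MP_d4c35b_ag.TW.SEC
import Pool.Agent.Lib.MP_d4c35b_ag.TW.DER
import Pool.Agent.Lib.MP_d4c35b_ag.TW.LSEC
import Pool.Agent.Lib.MP_d4c35b_ag.TW.LSX
import Pool.Agent.Lib.MP_d4c35b_ag.TW.COV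

/-! THEOREM W of MP_d4c35b_ag, internal form: assembly. -/

set_option autoImplicit false

namespace MP_d4c35b_ag.TW

theorem fullW : S_mainW :=
  mainW (pINJ (pORD pFD) (pKL pNSH))
    (pLSX (pNZ pPFC (pTP pPFI pPFC) (pGF pPFI pPFC) pNSH)
      (pJN pPFC (pTP pPFI pPFC) (pGF pPFI pPFC))
      (pLSEC pGRP pLOC pSEC pDER) (pGF pPFI pPFC))
    (pCOV pGRP pTOPG)

end MP_d4c35b_ag.TW
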