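import Pool.Agent.Lib.MP_d4c35b_ag.TW.Defs

/-!
THEOREM W of MP_d4c35b_ag, module GRP: the group of matrices preserving a family of tensors
without common zeros is finite, and no infinitesimal matrix preserves them.
-/

set_option autoImplicit false

open scoped Manifold ContDiff Topology
open MP_d4c35b_ag.TG
open Function Set Filter

namespace MP_d4c35b_ag.TW

namespace pGRPAux

variable {r k : ℕ}

/-- action of a matrix on a tensor -/
def act {ρ : Type} (γ : ρ → Fin r → ℂ) (a : (Fin k → Fin r) → ℂ) : (Fin k → ρ) → ℂ :=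
  fun j => ∑ l : Fin k → Fin r, (∏ m, γ (j m) (l m)) * a l

/-- value of the form with coefficients `a` at `z` -/
def hh (z : Fin r → ℂ) (a : (Fin k → Fin r) → ℂ) : ℂ :=
  ∑ j : Fin k → Fin r, (∏ m, z (j m)) * a j

theorem act_mul {ρ : Type} (γ : ρ → Fin r → ℂ) (δ : Fin r → Fin r → ℂ)
    (a : (Fin k → Fin r) → ℂ) :
    act γ (act δ a) = act (fun s t => ∑ u, γ s u * δ u t) a := by
  funext j
  simp only [act]
  have h1 : ∀ l : Fin k → Fin r, (∏ m, ∑ u, γ (j m) u * δ u (l m)) =
      ∑ p : Fin k → Fin r, (∏ m, γ (j m) (p m)) * ∏ m, δ (p m) (l m) := by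
    intro l
    rw [Finset.prod_univ_sum, Fintype.piFinset_univ]
    exact Finset.sum_congr rfl fun p _ => Finset.prod_mul_distrib
  simp_rw [h1, Finset.mul_sum, Finset.sum_mul]
  rw [Finset.sum_comm]
  exact Finset.sum_congr rfl fun p _ => Finset.sum_congr rfl fun l _ => by ring

theorem hh_eq_act (z : Fin r → ℂ) (a : (Fin k → Fin r) → ℂ) :
    hh z a = act (fun _ : Unit => z) a (fun _ => ()) := rfl

theorem hh_act (z : Fin r → ℂ) (γ : Fin r → Fin r → ℂ) (a : (Fin k → Fin r) → ℂ) :
    hh z (act γ a) = hh (fun t => ∑ u, z u * γ u t) a := by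
  rw [hh_eq_act, act_mul, hh_eq_act]

theorem act_one (a : (Fin k → Fin r) → ℂ) :
    act (fun s t => if s = t then (1 : ℂ) else 0) a = a := by
  funext j
  simp only [act]
  rw [Finset.sum_eq_single j]
  · simp
  · intro l _ hl
    obtain ⟨m, hm⟩ := Function.ne_iff.mp hl
    rw [Finset.prod_eq_zero (Finset.mem_univ m), zero_mul]
    rw [if_neg (Ne.symm hm)]
  · intro h
    exact absurd (Finset.mem_univ _) h

theorem hh_smul (t : ℂ) (z : Fin r → ℂ) (a : (Fin k → Fin r) → ℂ) :
    hh (fun i => t * z i) a = t ^ k * hh z a := by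
  simp only [hh, Finset.prod_mul_distrib, Finset.prod_const, Finset.card_univ, Fintype.card_fin,
    Finset.mul_sum]
  exact Finset.sum_congr rfl fun j _ => by ring

theorem hh_zero (hk : 1 ≤ k) (a : (Fin k → Fin r) → ℂ) : hh (fun _ => 0) a = 0 := by
  have h := hh_smul 0 (fun _ : Fin r => (0 : ℂ)) a
  simpa [zero_pow (Nat.one_le_iff_ne_zero.mp hk)] using h

theorem continuous_hh (a : (Fin k → Fin r) → ℂ) : Continuous fun z : Fin r → ℂ => hh z a := by
  unfold hh
  fun_prop

/-- lower bound -/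
theorem lower {κ : Type} [Fintype κ] (c : κ → (Fin k → Fin r) → ℂ) (hk : 1 ≤ k)
    (hc : ∀ z : Fin r → ℂ, (∀ i, hh z (c i) = 0) → z = 0) :
    ∃ δ : ℝ, 0 < δ ∧ ∀ z : Fin r → ℂ, δ * ‖z‖ ^ k ≤ ‖fun i => hh z (c i)‖ := by
  have hcont : Continuous fun z : Fin r → ℂ => ‖fun i => hh z (c i)‖ :=
    (continuous_pi fun i => continuous_hh (c i)).norm
  have hscale : ∀ z : Fin r → ℂ, z ≠ 0 →
      ‖fun i => hh z (c i)‖ = ‖z‖ ^ k * ‖fun i => hh ((‖z‖ : ℂ)⁻¹ • z) (c i)‖ := by
    intro z hz
    have hz' : (‖z‖ : ℂ) ≠ 0 := by simpa using hz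
    have h1 : (fun i => hh z (c i)) = ((‖z‖ : ℂ) ^ k) • fun i => hh ((‖z‖ : ℂ)⁻¹ • z) (c i) := by
      funext i
      have := hh_smul (‖z‖ : ℂ) ((‖z‖ : ℂ)⁻¹ • z) (c i)
      simp only [Pi.smul_apply, smul_eq_mul] at this ⊢
      rw [← this]
      congr 1
      funext s
      rw [mul_inv_cancel_left₀ hz']
    rw [h1, norm_smul, norm_pow, Complex.norm_real, norm_norm]
  have hsph : ∀ z : Fin r → ℂ, z ≠ 0 → (‖z‖ : ℂ)⁻¹ • z ∈ Metric.sphere (0 : Fin r → ℂ) 1 := by
    intro z hz
    have hz' : ‖z‖ ≠ 0 := by simpa using hz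
    rw [mem_sphere_zero_iff_norm, norm_smul, norm_inv, Complex.norm_real, norm_norm,
      inv_mul_cancel₀ hz']
  rcases (Metric.sphere (0 : Fin r → ℂ) 1).eq_empty_or_nonempty with he | hne
  · refine ⟨1, one_pos, fun z => ?_⟩
    by_cases hz : z = 0
    · rw [hz, norm_zero, zero_pow (Nat.one_le_iff_ne_zero.mp hk), mul_zero]
      exact norm_nonneg _
    · exact absurd (hsph z hz) (by rw [he]; exact notMem_empty _)
  · obtain ⟨z₀, hz₀, hmin⟩ := (isCompact_sphere (0 : Fin r → ℂ) 1).exists_isMinOn hne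
      hcont.continuousOn
    have hz₀' : z₀ ≠ 0 := by
      rintro rfl
      simp at hz₀
    refine ⟨‖fun i => hh z₀ (c i)‖, ?_, fun z => ?_⟩
    · rw [norm_pos_iff]
      intro h
      exact hz₀' (hc z₀ fun i => congrFun h i)
    · by_cases hz : z = 0
      · rw [hz, norm_zero, zero_pow (Nat.one_le_iff_ne_zero.mp hk), mul_zero]
        exact norm_nonneg _
      · rw [hscale z hz, mul_comm]
        exact mul_le_mul_of_nonneg_left (hmin (hsph z hz)) (pow_nonneg (norm_nonneg _) _)

theorem hasDerivAt_hh (y : ℂ → Fin r → ℂ) (y' : Fin r → ℂ) (t : ℂ) (hy : HasDerivAt y y' t)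
    (a : (Fin k → Fin r) → ℂ) :
    HasDerivAt (fun t => hh (y t) a)
      (∑ j : Fin k → Fin r, (∑ m, (∏ m' ∈ Finset.univ.erase m, y t (j m')) * y' (j m)) * a j)
      t := by
  have hy' : ∀ i, HasDerivAt (fun t => y t i) (y' i) t := hasDerivAt_pi.mp hy
  unfold hh
  refine HasDerivAt.fun_sum fun j _ => ?_
  refine HasDerivAt.mul_const ?_ _
  have := HasDerivAt.fun_finsetProd (u := Finset.univ) (f := fun (m : Fin k) t => y t (j m))
    (f' := fun m => y' (j m)) (x := t) (fun m _ => hy' (j m))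
  simpa [smul_eq_mul] using this

/-- the swap `(s, j) ↦ (j m, update j m s)` -/
def sw (m : Fin k) : (Fin r × (Fin k → Fin r)) ≃ (Fin r × (Fin k → Fin r)) where
  toFun p := (p.2 m, update p.2 m p.1)
  invFun p := (p.2 m, update p.2 m p.1)
  left_inv p := by ext <;> simp
  right_inv p := by ext <;> simp

theorem deriv_zero (B : Fin r → Fin r → ℂ) (a : (Fin k → Fin r) → ℂ)
    (hB : ∀ j : Fin k → Fin r, ∑ m : Fin k, ∑ l : Fin r, B (j m) l * a (update j m l) = 0)
    (z : Fin r → ℂ) :
    (∑ j : Fin k → Fin r, (∑ m, (∏ m' ∈ Finset.univ.erase m, z (j m')) *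
      (∑ s, z s * B s (j m))) * a j) = 0 := by
  have h1 : ∀ m : Fin k,
      (∑ j : Fin k → Fin r, (∏ m' ∈ Finset.univ.erase m, z (j m')) *
        (∑ s, z s * B s (j m)) * a j) =
      ∑ j : Fin k → Fin r, (∏ m', z (j m')) * ∑ l : Fin r, B (j m) l * a (update j m l) := by
    intro m
    have hL : (∑ j : Fin k → Fin r, (∏ m' ∈ Finset.univ.erase m, z (j m')) *
        (∑ s, z s * B s (j m)) * a j) = ∑ p : Fin r × (Fin k → Fin r),
        (∏ m' ∈ Finset.univ.erase m, z (p.2 m')) * (z p.1 * B p.1 (p.2 m)) * a p.2 := by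
      rw [Fintype.sum_prod_type, Finset.sum_comm]
      refine Finset.sum_congr rfl fun j _ => ?_
      rw [Finset.mul_sum, Finset.sum_mul]
    have hR : (∑ j : Fin k → Fin r, (∏ m', z (j m')) *
        ∑ l : Fin r, B (j m) l * a (update j m l)) = ∑ p : Fin r × (Fin k → Fin r),
        (∏ m', z (p.2 m')) * (B (p.2 m) p.1 * a (update p.2 m p.1)) := by
      rw [Fintype.sum_prod_type, Finset.sum_comm]
      refine Finset.sum_congr rfl fun j _ => ?_
      rw [Finset.mul_sum]
    rw [hL, hR]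
    refine Fintype.sum_equiv (sw m) _ _ fun p => ?_
    obtain ⟨s, j⟩ := p
    simp only [sw, Equiv.coe_fn_mk, update_idem, update_self, update_eq_self]
    rw [← Finset.mul_prod_erase Finset.univ _ (Finset.mem_univ m), update_self]
    have : ∏ m' ∈ Finset.univ.erase m, z (update j m s m') =
        ∏ m' ∈ Finset.univ.erase m, z (j m') :=
      Finset.prod_congr rfl fun m' hm' => by rw [update_of_ne (Finset.ne_of_mem_erase hm')]
    rw [this]
    ring
  simp_rw [Finset.sum_mul]
  rw [Finset.sum_comm]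
  simp_rw [h1]
  rw [Finset.sum_comm]
  refine Finset.sum_eq_zero fun j _ => ?_
  rw [← Finset.mul_sum, hB j, mul_zero]

theorem infin {κ : Type} [Fintype κ] (c : κ → (Fin k → Fin r) → ℂ) (hk : 1 ≤ k)
    (hc : ∀ z : Fin r → ℂ, (∀ i, hh z (c i) = 0) → z = 0) (B : Fin r → Fin r → ℂ)
    (hB : ∀ i (j : Fin k → Fin r),
      ∑ m : Fin k, ∑ l : Fin r, B (j m) l * c i (update j m l) = 0) : B = 0 := by
  obtain ⟨δ, hδ, hlow⟩ := lower c hk hc
  let T₀ : (Fin r → ℂ) →ₗ[ℂ] (Fin r → ℂ) := Matrix.vecMulLinear (Matrix.of B)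
  let T : (Fin r → ℂ) →L[ℂ] (Fin r → ℂ) := LinearMap.toContinuousLinearMap T₀
  have hT : ∀ z t, T z t = ∑ s, z s * B s t := fun z t => rfl
  have key : ∀ z : Fin r → ℂ, T z = 0 := by
    intro z
    let y : ℂ → Fin r → ℂ := fun t => NormedSpace.exp (t • T) z
    have hy : ∀ t, HasDerivAt y (T (y t)) t := by
      intro t
      have h := hasDerivAt_exp_smul_const' T t
      have h2 := ((ContinuousLinearMap.apply ℂ (Fin r → ℂ) z).hasFDerivAt.comp_hasDerivAt t h)
      simpa [y, Function.comp_def] using h2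
    have hy0 : y 0 = z := by
      have h0 : (0 : ℂ) • T = 0 := by
        ext
        simp
      change NormedSpace.exp ((0 : ℂ) • T) z = z
      rw [h0, NormedSpace.exp_zero]
      rfl
    have hconst : ∀ i t, hh (y t) (c i) = hh z (c i) := by
      intro i t
      have hd : ∀ t, HasDerivAt (fun t => hh (y t) (c i)) 0 t := by
        intro t
        have := hasDerivAt_hh y (T (y t)) t (hy t) (c i)
        have h0 := deriv_zero B (c i) (hB i) (y t)
        simp only [hT] at this
        rw [h0] at this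
        exact this
      have := is_const_of_deriv_eq_zero (f := fun t => hh (y t) (c i))
        (fun t => (hd t).differentiableAt) (fun t => (hd t).deriv) t 0
      simpa [hy0] using this
    have hbd : ∀ t, ‖y t‖ ≤ 1 + ‖fun i => hh z (c i)‖ / δ := by
      intro t
      have h1 := hlow (y t)
      simp only [hconst] at h1
      have h2 : ‖y t‖ ^ k ≤ ‖fun i => hh z (c i)‖ / δ := by
        rw [le_div_iff₀ hδ, mul_comm]
        exact h1
      by_cases h3 : ‖y t‖ ≤ 1
      · have : 0 ≤ ‖fun i => hh z (c i)‖ / δ := div_nonneg (norm_nonneg _) hδ.le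
        linarith
      · have h4 : ‖y t‖ ≤ ‖y t‖ ^ k :=
          le_self_pow₀ (not_le.mp h3).le (Nat.one_le_iff_ne_zero.mp hk)
        linarith
    have hdiff : Differentiable ℂ y := fun t => (hy t).differentiableAt
    have hbd' : Bornology.IsBounded (range y) := by
      rw [isBounded_iff_forall_norm_le]
      exact ⟨_, by rintro _ ⟨t, rfl⟩; exact hbd t⟩
    have hcst : y = fun _ => z := by
      funext t
      rw [hdiff.apply_eq_apply_of_bounded hbd' t 0, hy0]
    have h0 := hy 0
    rw [hcst] at h0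
    exact h0.unique (hasDerivAt_const 0 z)
  funext s t
  have := congrFun (key (Pi.single s 1)) t
  rw [hT] at this
  simpa [Pi.single_apply] using this

/-- the sum over the tensors of indices which agree with `j` off `m` -/
theorem sum_delta (j : Fin k → Fin r) (m : Fin k) (G : (Fin k → Fin r) → ℂ) :
    (∑ l : Fin k → Fin r, (∏ m' ∈ Finset.univ.erase m, if j m' = l m' then (1 : ℂ) else 0) * G l) =
      ∑ s : Fin r, G (update j m s) := by
  have hinj : Function.Injective fun s : Fin r => update j m s := update_injective j m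
  have h1 : (∑ s : Fin r, G (update j m s)) =
      ∑ l ∈ Finset.univ.map ⟨fun s : Fin r => update j m s, hinj⟩,
        (∏ m' ∈ Finset.univ.erase m, if j m' = l m' then (1 : ℂ) else 0) * G l := by
    rw [Finset.sum_map]
    refine Finset.sum_congr rfl fun s _ => ?_
    rw [Finset.prod_eq_one, one_mul]
    · rfl
    · intro m' hm'
      simp [update_of_ne (Finset.ne_of_mem_erase hm')]
  rw [h1]
  symm
  refine Finset.sum_subset (Finset.subset_univ _) fun l _ hl => ?_
  have h2 : ∃ m' ∈ Finset.univ.erase m, j m' ≠ l m' := by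
    by_contra hcon
    push Not at hcon
    apply hl
    rw [Finset.mem_map]
    refine ⟨l m, Finset.mem_univ _, ?_⟩
    funext m'
    by_cases h : m' = m
    · subst h
      simp
    · simp only [Embedding.coeFn_mk, update_of_ne h]
      exact hcon m' (Finset.mem_erase.mpr ⟨h, Finset.mem_univ _⟩)
  obtain ⟨m', hm', hne⟩ := h2
  rw [Finset.prod_eq_zero hm' (if_neg hne), zero_mul]

/-- the identity is isolated in the stabilizer -/
theorem isolated {κ : Type} [Fintype κ] (c : κ → (Fin k → Fin r) → ℂ) (hk : 1 ≤ k)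
    (hc : ∀ z : Fin r → ℂ, (∀ i, hh z (c i) = 0) → z = 0) :
    ∀ᶠ γ in 𝓝[≠] (fun s t : Fin r => if s = t then (1 : ℂ) else 0),
      (fun i => act γ (c i)) ≠ c := by
  set e : Fin r → Fin r → ℂ := fun s t => if s = t then (1 : ℂ) else 0 with he
  let f : (Fin r → Fin r → ℂ) → κ → (Fin k → Fin r) → ℂ := fun γ i => act γ (c i)
  have hf : Differentiable ℂ f := by
    refine differentiable_pi.2 fun i => differentiable_pi.2 fun j => ?_
    change Differentiable ℂ fun γ : Fin r → Fin r → ℂ => ∑ l, (∏ m, γ (j m) (l m)) * c i l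
    refine Differentiable.fun_sum fun l _ => ?_
    refine Differentiable.mul_const ?_ _
    intro γ
    exact (HasFDerivAt.finsetProd (u := Finset.univ)
      (g := fun (m : Fin k) (γ : Fin r → Fin r → ℂ) => γ (j m) (l m))
      (g' := fun m => (ContinuousLinearMap.proj (R := ℂ) (φ := fun _ : Fin r => ℂ) (l m)).comp
        (ContinuousLinearMap.proj (R := ℂ) (φ := fun _ : Fin r => Fin r → ℂ) (j m)))
      (fun m _ => ((ContinuousLinearMap.proj (R := ℂ) (φ := fun _ : Fin r => ℂ) (l m)).comp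
        (ContinuousLinearMap.proj (R := ℂ) (φ := fun _ : Fin r => Fin r → ℂ)
          (j m))).hasFDerivAt)).differentiableAt
  have hd := (hf e).hasFDerivAt
  have hform : ∀ (D : Fin r → Fin r → ℂ) i j, fderiv ℂ f e D i j =
      ∑ m : Fin k, ∑ s : Fin r, D (j m) s * c i (update j m s) := by
    intro D i j
    have hline : HasDerivAt (fun t : ℂ => e + t • D) D 0 := by
      have := ((hasDerivAt_id (0 : ℂ)).smul_const D).const_add e
      simpa using this
    have hd0 : HasFDerivAt f (fderiv ℂ f e) ((fun t : ℂ => e + t • D) 0) := by simpa using hd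
    have h1 := hd0.comp_hasDerivAt (0 : ℂ) hline
    have h2 : HasDerivAt (fun t : ℂ => f (e + t • D) i j) (fderiv ℂ f e D i j) 0 :=
      hasDerivAt_pi.mp (hasDerivAt_pi.mp h1 i) j
    have h3 : HasDerivAt (fun t : ℂ => ∑ l : Fin k → Fin r,
        (∏ m, (e + t • D) (j m) (l m)) * c i l)
        (∑ l : Fin k → Fin r, (∑ m, (∏ m' ∈ Finset.univ.erase m, e (j m') (l m')) *
          D (j m) (l m)) * c i l) 0 := by
      refine HasDerivAt.fun_sum fun l _ => ?_
      refine HasDerivAt.mul_const ?_ _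
      have h4 : ∀ m ∈ (Finset.univ : Finset (Fin k)),
          HasDerivAt (fun t : ℂ => (e + t • D) (j m) (l m)) (D (j m) (l m)) 0 := fun m _ =>
        hasDerivAt_pi.mp (hasDerivAt_pi.mp hline (j m)) (l m)
      have := HasDerivAt.fun_finsetProd (u := Finset.univ)
        (f := fun (m : Fin k) (t : ℂ) => (e + t • D) (j m) (l m))
        (f' := fun m => D (j m) (l m)) (x := (0 : ℂ)) h4
      simpa [smul_eq_mul] using this
    rw [h2.unique h3]
    simp_rw [Finset.sum_mul]
    rw [Finset.sum_comm]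
    refine Finset.sum_congr rfl fun m _ => ?_
    have := sum_delta j m (fun l => D (j m) (l m) * c i l)
    simp only [update_self] at this
    rw [← this]
    exact Finset.sum_congr rfl fun l _ => by rw [mul_assoc]
  have hker : LinearMap.ker ((fderiv ℂ f e : (Fin r → Fin r → ℂ) →L[ℂ] _) :
      (Fin r → Fin r → ℂ) →ₗ[ℂ] (κ → (Fin k → Fin r) → ℂ)) = ⊥ := by
    rw [LinearMap.ker_eq_bot']
    intro D hD
    refine infin c hk hc D fun i j => ?_
    rw [← hform]
    exact congrFun (congrFun hD i) j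
  obtain ⟨K, -, hK⟩ := LinearMap.exists_antilipschitzWith _ hker
  exact hd.eventually_ne ⟨K, hK⟩

theorem bounded {κ : Type} [Fintype κ] (c : κ → (Fin k → Fin r) → ℂ) (hk : 1 ≤ k)
    (hc : ∀ z : Fin r → ℂ, (∀ i, hh z (c i) = 0) → z = 0) :
    ∃ C : ℝ, ∀ γ : Fin r → Fin r → ℂ, (fun i => act γ (c i)) = c → ‖γ‖ ≤ C := by
  obtain ⟨δ, hδ, hlow⟩ := lower c hk hc
  let N : Fin r → ℝ := fun a => ‖fun i => hh (Pi.single a 1) (c i)‖ / δ
  have hN : ∀ a, 0 ≤ N a := fun a => div_nonneg (norm_nonneg _) hδ.le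
  refine ⟨1 + ∑ a, N a, fun γ hγ => ?_⟩
  have hpos : 0 ≤ 1 + ∑ a, N a := add_nonneg zero_le_one (Finset.sum_nonneg fun a _ => hN a)
  rw [pi_norm_le_iff_of_nonneg hpos]
  intro a
  have h1 := hlow (γ a)
  have h2 : (fun i => hh (γ a) (c i)) = fun i => hh (Pi.single a 1) (c i) := by
    funext i
    have h3 : hh (Pi.single a 1) (act γ (c i)) = hh (γ a) (c i) := by
      rw [hh_act]
      congr 1
      funext t
      simp [Pi.single_apply]
    rw [← h3, congrFun hγ i]
  rw [h2] at h1
  have h4 : ‖γ a‖ ^ k ≤ N a := by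
    rw [le_div_iff₀ hδ, mul_comm]
    exact h1
  have h5 : N a ≤ ∑ a, N a := Finset.single_le_sum (fun a _ => hN a) (Finset.mem_univ a)
  by_cases h6 : ‖γ a‖ ≤ 1
  · linarith [Finset.sum_nonneg fun a (_ : a ∈ Finset.univ) => hN a]
  · have h7 : ‖γ a‖ ≤ ‖γ a‖ ^ k :=
      le_self_pow₀ (not_le.mp h6).le (Nat.one_le_iff_ne_zero.mp hk)
    linarith

theorem finite {κ : Type} [Fintype κ] (c : κ → (Fin k → Fin r) → ℂ) (hk : 1 ≤ k)
    (hc : ∀ z : Fin r → ℂ, (∀ i, hh z (c i) = 0) → z = 0) :
    Set.Finite {γ : Fin r → Fin r → ℂ | (fun i => act γ (c i)) = c} := by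
  set S := {γ : Fin r → Fin r → ℂ | (fun i => act γ (c i)) = c} with hS
  set e : Fin r → Fin r → ℂ := fun s t => if s = t then (1 : ℂ) else 0 with he
  have hcont : Continuous fun γ : Fin r → Fin r → ℂ => fun i => act γ (c i) := by
    unfold act
    fun_prop
  have hcl : IsClosed S := isClosed_eq hcont continuous_const
  have hbd : Bornology.IsBounded S := by
    obtain ⟨C, hC⟩ := bounded c hk hc
    rw [isBounded_iff_forall_norm_le]
    exact ⟨C, fun γ hγ => hC γ hγ⟩
  have hcpt : IsCompact S := Metric.isCompact_of_isClosed_isBounded hcl hbd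
  by_contra hinf
  obtain ⟨γ₀, hγ₀, hacc⟩ := Set.Infinite.exists_accPt_of_subset_isCompact hinf hcpt subset_rfl
  -- the inverse of `γ₀`
  have hdet : (Matrix.of γ₀).det ≠ 0 := by
    intro h
    obtain ⟨v, hv, hv0⟩ := Matrix.exists_vecMul_eq_zero_iff.mpr h
    apply hv
    refine hc v fun i => ?_
    have h1 : (fun t => ∑ u, v u * γ₀ u t) = fun _ => (0 : ℂ) := by
      funext t
      exact congrFun hv0 t
    rw [← congrFun hγ₀ i, hh_act, h1, hh_zero hk]
  obtain ⟨η, hη⟩ : ∃ η : Fin r → Fin r → ℂ, (fun s t => ∑ u, η s u * γ₀ u t) = e := by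
    refine ⟨((Matrix.of γ₀)⁻¹ : Matrix (Fin r) (Fin r) ℂ), ?_⟩
    have h1 := Matrix.nonsing_inv_mul (Matrix.of γ₀) (isUnit_iff_ne_zero.mpr hdet)
    funext s t
    have h2 := congrFun (congrFun h1 s) t
    rw [Matrix.mul_apply, Matrix.one_apply] at h2
    exact h2
  obtain ⟨η', hη'⟩ : ∃ η' : Fin r → Fin r → ℂ, (fun s t => ∑ u, η' s u * η u t) = e :=
    ⟨γ₀, by
      have h1 : (Matrix.of η) * (Matrix.of γ₀) = 1 := by
        funext s t
        rw [Matrix.mul_apply, Matrix.one_apply]
        exact congrFun (congrFun hη s) t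
      have h2 := mul_eq_one_comm.mp h1
      funext s t
      have h3 := congrFun (congrFun h2 s) t
      rw [Matrix.mul_apply, Matrix.one_apply] at h3
      exact h3⟩
  let Λ : (Fin r → Fin r → ℂ) → (Fin r → Fin r → ℂ) := fun γ s t => ∑ u, η s u * γ u t
  have hΛc : Continuous Λ := by fun_prop
  have hassoc : ∀ (α β γ : Fin r → Fin r → ℂ), (fun s t => ∑ u, α s u * ∑ v, β u v * γ v t) =
      fun s t => ∑ v, (∑ u, α s u * β u v) * γ v t := by
    intro α β γ
    funext s t
    simp_rw [Finset.mul_sum, Finset.sum_mul]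
    rw [Finset.sum_comm]
    exact Finset.sum_congr rfl fun u _ => Finset.sum_congr rfl fun v _ => by ring
  have hΛi : Function.Injective Λ := by
    intro α β hαβ
    have h1 : ∀ α : Fin r → Fin r → ℂ, (fun s t => ∑ u, η' s u * Λ α u t) = α := by
      intro α
      have := hassoc η' η α
      have h2 : (fun s t => ∑ v, (∑ u, η' s u * η u v) * α v t) = α := by
        funext s t
        have h3 : ∀ v, (∑ u, η' s u * η u v) = if s = v then (1 : ℂ) else 0 := fun v =>
          congrFun (congrFun hη' s) v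
        simp [h3]
      rw [h2] at this
      exact this
    rw [← h1 α, ← h1 β, hαβ]
  have hΛe : Λ γ₀ = e := hη
  have hΛS : ∀ γ ∈ S, Λ γ ∈ S := by
    intro γ hγ
    have hηS : ∀ i, act η (c i) = c i := by
      intro i
      have h1 := act_mul η γ₀ (c i)
      rw [hη, act_one, congrFun hγ₀ i] at h1
      exact h1
    change (fun i => act (Λ γ) (c i)) = c
    funext i
    rw [← act_mul η γ (c i), congrFun hγ i, hηS]
  have hten : Tendsto Λ (𝓝[≠] γ₀) (𝓝[≠] e) := by
    refine tendsto_nhdsWithin_iff.mpr ⟨?_, ?_⟩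
    · have := hΛc.tendsto γ₀
      rw [hΛe] at this
      exact this.mono_left nhdsWithin_le_nhds
    · filter_upwards [self_mem_nhdsWithin] with γ hγ
      intro h
      apply hγ
      apply hΛi
      rw [hΛe]
      exact h
  have h1 := hten.eventually (isolated c hk hc)
  have h2 : ∃ᶠ γ in 𝓝[≠] γ₀, γ ∈ S := accPt_iff_frequently_nhdsNE.mp hacc
  obtain ⟨γ, hγ1, hγ2⟩ := (h2.and_eventually h1).exists
  exact hγ2 (hΛS γ hγ1)

end pGRPAux

theorem pGRP : S_GRP := by
  intro r k κ _ c hk hc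
  refine ⟨?_, fun B hB => pGRPAux.infin c hk hc B hB⟩
  have := pGRPAux.finite c hk hc
  refine this.subset fun γ hγ => ?_
  funext i j
  exact hγ i j

end MP_d4c35b_ag.TW
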