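import Pool.Agent.Lib.MP_d4c35b_ag.TW.Defs

set_option autoImplicit false
set_option linter.unusedSectionVars false

open scoped Manifold ContDiff Topology
open Function Set

namespace MP_d4c35b_ag.TW

open MP_d4c35b_ag.TG

variable {E : Type} [NormedAddCommGroup E] [NormedSpace ℂ E] [FiniteDimensional ℂ E]
variable {X : Type} [TopologicalSpace X] [ChartedSpace E X] [IsManifold 𝓘(ℂ, E) ω X]

theorem pwM_apply {k : ℕ} (ξ : E →ₗ[ℂ] ℂ) (v : Fin k → E) : pwM k ξ v = ∏ i, ξ (v i) := by
  simp [pwM, tpm_apply]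

/-- absence of common zeros is an open condition -/
theorem ncz_nhds {k : ℕ} {κ : Type} [Fintype κ] {τ : κ → X → MM E (Fin k) →ₗ[ℂ] ℂ}
    (hτ : ∀ i, HK (τ i)) {x₀ : X} (h0 : NCZ (fun i => τ i x₀)) :
    ∀ᶠ x in 𝓝 x₀, NCZ (fun i => τ i x) := by
  classical
  set b := Module.finBasis ℂ E with hb
  set n := Module.finrank ℂ E with hn
  set c : κ → (Fin k → Fin n) → X → ℂ := fun i I x =>
    τ i x ((EI b I).compLinearMap (fun _ => (ofT x₀ x : E →L[ℂ] E).toLinearMap)) with hc
  set f : κ → X → (Fin n → ℂ) → ℂ := fun i x η =>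
    ∑ I : Fin k → Fin n, (∏ m, η (I m)) * c i I x with hf
  have hcc : ∀ i I, ContinuousAt (c i I) x₀ := fun i I =>
    ((HK_iff.mp (hτ i) x₀) (EI b I)).continuousAt
  -- the formula for `τ`
  have hform : ∀ x ∈ (chartAt E x₀).source, ∀ (ξ : E →ₗ[ℂ] ℂ) (i : κ),
      τ i x (pwM k ξ) = f i x (fun j => ξ (toT x₀ x (b j))) := by
    intro x hx ξ i
    have hexp := mm_exp b (pwM k ξ) (toT x₀ x : E →L[ℂ] E).toLinearMap
      (ofT x₀ x : E →L[ℂ] E).toLinearMap (fun v => toT_ofT hx v)
    rw [hexp, map_sum]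
    refine Finset.sum_congr rfl fun I _ => ?_
    rw [map_smul, smul_eq_mul, pwM_apply]
    rfl
  have hfs : ∀ i x (η : Fin n → ℂ) (a : ℂ), f i x (a • η) = a ^ k * f i x η := by
    intro i x η a
    simp only [hf, Pi.smul_apply, smul_eq_mul, Finset.mul_sum]
    refine Finset.sum_congr rfl fun I _ => ?_
    rw [Finset.prod_mul_distrib]
    simp only [Finset.prod_const, Finset.card_univ, Fintype.card_fin]
    ring
  have key : ∀ᶠ x in 𝓝 x₀, ∀ η ∈ Metric.sphere (0 : Fin n → ℂ) 1, ∃ i, f i x η ≠ 0 := by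
    refine IsCompact.eventually_forall_of_forall_eventually (isCompact_sphere _ _) ?_
    intro η hη
    obtain ⟨i, hi⟩ : ∃ i, f i x₀ η ≠ 0 := by
      by_contra hcon
      push Not at hcon
      set ξ : E →ₗ[ℂ] ℂ := b.constr ℂ η with hξ
      have h1 : ξ = 0 := h0 ξ (fun i => by
        have h2 := hform x₀ (mem_chart_source E x₀) ξ i
        have h3 : (fun j => ξ (toT x₀ x₀ (b j))) = η := by
          funext j
          rw [toT_self, hξ, Module.Basis.constr_basis]
        rw [h3, hcon i] at h2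
        exact h2)
      have h4 : η = 0 := by
        funext j
        have h5 := congrArg (fun l : E →ₗ[ℂ] ℂ => l (b j)) h1
        simpa [hξ, Module.Basis.constr_basis] using h5
      rw [h4] at hη
      simp at hη
    have hcont : ContinuousAt (fun z : X × (Fin n → ℂ) => f i z.1 z.2) (x₀, η) := by
      simp only [hf]
      refine tendsto_finsetSum _ fun I _ => ?_
      refine Filter.Tendsto.mul ?_ ?_
      · exact tendsto_finsetProd _ fun m _ =>
          (((continuous_apply (I m)).comp continuous_snd).continuousAt)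
      · exact ContinuousAt.comp (f := fun z : X × (Fin n → ℂ) => z.1) (g := c i I)
          (hcc i I) continuousAt_fst
    filter_upwards [hcont.eventually_ne hi] with z hz
    exact ⟨i, hz⟩
  filter_upwards [key, (chartAt E x₀).open_source.mem_nhds (mem_chart_source E x₀)] with x hx hxs
  intro ξ hξ
  set η : Fin n → ℂ := fun j => ξ (toT x₀ x (b j)) with hη
  have hη0 : η = 0 := by
    by_contra hne
    have hnorm : (‖η‖ : ℂ) ≠ 0 := by
      simpa using norm_ne_zero_iff.mpr hne
    obtain ⟨i, hi⟩ := hx ((‖η‖ : ℂ)⁻¹ • η) (by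
      rw [mem_sphere_zero_iff_norm, norm_smul, norm_inv, Complex.norm_real, norm_norm]
      exact inv_mul_cancel₀ (norm_ne_zero_iff.mpr hne))
    apply hi
    rw [hfs, ← hform x hxs ξ i, hξ i, mul_zero]
  ext v
  have h1 : v = toT x₀ x (ofT x₀ x v) := (toT_ofT hxs v).symm
  rw [h1]
  have h2 : ∀ w : E, ξ (toT x₀ x w) = 0 := by
    intro w
    have h3 : (ξ.comp (toT x₀ x : E →L[ℂ] E).toLinearMap) = 0 :=
      b.ext fun j => congrFun hη0 j
    exact congrArg (fun l : E →ₗ[ℂ] ℂ => l w) h3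
  rw [h2]
  rfl

end MP_d4c35b_ag.TW
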