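import Pool.Agent.Lib.MP_d4c35b_ag.TG.Read

/-!
Hypothesis of THEOREM W of MP_d4c35b_ag: the stable base locus of `O_{P(T_X)}(1)` does not
dominate `X`.
-/

set_option autoImplicit false

open scoped Manifold ContDiff TensorProduct
open Set

namespace MP_d4c35b_ag.Read

variable {E : Type} [NormedAddCommGroup E] [NormedSpace ℂ E]
  {X : Type} [TopologicalSpace X] [ChartedSpace E X] [IsManifold 𝓘(ℂ, E) ω X]

/-- The value at the point `x` of the section `τ` of `T_X^{⊗k}` on `ξ ⊗ … ⊗ ξ`, `ξ ∈ T_x^*`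
(that is, the value at the point `[ξ]` of `P(T_X)` of the section of `O(k)` defined by `τ`). -/
noncomputable def valueAt {k : ℕ} (τ : Contra E X k) (x : X)
    (ξ : TangentSpace 𝓘(ℂ, E) x →ₗ[ℂ] ℂ) : ℂ :=
  PiTensorProduct.lift
    ((MultilinearMap.mkPiAlgebra ℂ (Fin k) ℂ).compLinearMap (fun _ => ξ)) (τ x)

/-- The fibre of `P(T_X) → X` over `x₀` does not meet the stable base locus of `O(1)`: for every
`ξ ∈ T_{x₀}^*`, `ξ ≠ 0`, there are `k ≥ 1` and a global holomorphic section `τ` of `T_X^{⊗k}` with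
`⟨τ(x₀), ξ ⊗ … ⊗ ξ⟩ ≠ 0`. -/
def OutsideStableBaseLocus (x₀ : X) : Prop :=
  ∀ ξ : TangentSpace 𝓘(ℂ, E) x₀ →ₗ[ℂ] ℂ, ξ ≠ 0 →
    ∃ (k : ℕ) (τ : Contra E X k), 1 ≤ k ∧ HolContra τ ∧ valueAt τ x₀ ξ ≠ 0

end MP_d4c35b_ag.Read
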